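import Mathlib

/-!
The `p`-sets `{0} ∪ H e₀ ∪ H e₁ ∪ H e₂`, `H` the subgroup of index three, and their directions.
-/

set_option autoImplicit false

open Finset

namespace KS41.Dir

/-- the three scaled unit vectors and the origin -/
def cevaSet {p : ℕ} (H : Finset (ZMod p)) : Finset (Fin 3 → ZMod p) :=
  insert 0 ((Finset.univ ×ˢ H).image (fun q : Fin 3 × ZMod p => Pi.single q.1 q.2))

variable {p : ℕ} [Fact p.Prime]

lemma mem_cevaSet {H : Finset (ZMod p)} {a : Fin 3 → ZMod p} :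
    a ∈ cevaSet H ↔ a = 0 ∨ ∃ i : Fin 3, ∃ x ∈ H, a = Pi.single i x := by
  rw [cevaSet, Finset.mem_insert, Finset.mem_image]
  constructor
  · rintro (h | ⟨⟨i, x⟩, hq, h⟩)
    · exact Or.inl h
    · rw [Finset.mem_product] at hq
      exact Or.inr ⟨i, x, hq.2, h.symm⟩
  · rintro (h | ⟨i, x, hx, h⟩)
    · exact Or.inl h
    · exact Or.inr ⟨(i, x), Finset.mem_product.mpr ⟨Finset.mem_univ _, hx⟩, h.symm⟩

lemma card_cevaSet {H : Finset (ZMod p)} (h0 : (0 : ZMod p) ∉ H) :
    (cevaSet H).card = 3 * H.card + 1 := by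
  rw [cevaSet, Finset.card_insert_of_notMem, Finset.card_image_of_injOn]
  · rw [Finset.card_product, Finset.card_univ, Fintype.card_fin]
  · rintro ⟨i, x⟩ hx ⟨j, y⟩ hy hxy
    have hx' : x ∈ H := (Finset.mem_product.mp (Finset.mem_coe.mp hx)).2
    have hxy' : (Pi.single i x : Fin 3 → ZMod p) = Pi.single j y := hxy
    have hx0 : x ≠ 0 := fun h => h0 (h ▸ hx')
    by_cases hij : i = j
    · subst hij
      rw [Pi.single_injective i hxy']
    · exfalso
      have := congrFun hxy' i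
      rw [Pi.single_eq_same, Pi.single_eq_of_ne hij] at this
      exact hx0 this
  · rw [Finset.mem_image]
    rintro ⟨⟨i, x⟩, hq, h⟩
    have hx' : x ∈ H := (Finset.mem_product.mp hq).2
    have := congrFun h i
    rw [Pi.single_eq_same] at this
    have hx0 : x = 0 := this
    exact h0 (hx0 ▸ hx')

/-- the directions are spanned by these vectors -/
def cevaDirs (H : Finset (ZMod p)) : Finset (Fin 3 → ZMod p) :=
  (Finset.univ.image (fun i : Fin 3 => Pi.single i 1)) ∪
    (Finset.univ ×ˢ H).image (fun q : Fin 3 × ZMod p => Pi.single q.1 1 - Pi.single (q.1 + 1) q.2)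

lemma card_cevaDirs_le (H : Finset (ZMod p)) : (cevaDirs H).card ≤ 3 + 3 * H.card := by
  rw [cevaDirs]
  refine (Finset.card_union_le _ _).trans (Nat.add_le_add ?_ ?_)
  · refine Finset.card_image_le.trans ?_
    simp
  · refine Finset.card_image_le.trans ?_
    rw [Finset.card_product, Finset.card_univ, Fintype.card_fin]

lemma span_smul {c : ZMod p} (hc : c ≠ 0) (v w : Fin 3 → ZMod p) (h : v = c • w) :
    Submodule.span (ZMod p) {v} = Submodule.span (ZMod p) {w} := by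
  rw [h]
  exact Submodule.span_singleton_smul_eq (IsUnit.mk0 c hc) w

lemma ceva_dir {H : Finset (ZMod p)} (h0 : (0 : ZMod p) ∉ H)
    (hdiv : ∀ x ∈ H, ∀ y ∈ H, x / y ∈ H) {a b : Fin 3 → ZMod p} (ha : a ∈ cevaSet H)
    (hb : b ∈ cevaSet H) (hab : a ≠ b) :
    ∃ v ∈ cevaDirs H, Submodule.span (ZMod p) {a - b} = Submodule.span (ZMod p) {v} := by
  have hne : ∀ x ∈ H, x ≠ 0 := fun x hx h => h0 (h ▸ hx)
  have hax : ∀ (i : Fin 3) (x : ZMod p), (Pi.single i x : Fin 3 → ZMod p) = x • Pi.single i 1 := by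
    intro i x
    rw [← Pi.single_smul, smul_eq_mul, mul_one]
  have hunit : ∀ i : Fin 3, (Pi.single i 1 : Fin 3 → ZMod p) ∈ cevaDirs H := by
    intro i
    rw [cevaDirs]
    exact Finset.mem_union_left _ (Finset.mem_image_of_mem _ (Finset.mem_univ i))
  have hmix : ∀ (i : Fin 3) (x : ZMod p), x ∈ H →
      (Pi.single i 1 - Pi.single (i + 1) x : Fin 3 → ZMod p) ∈ cevaDirs H := by
    intro i x hx
    rw [cevaDirs]
    apply Finset.mem_union_right
    rw [Finset.mem_image]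
    exact ⟨(i, x), Finset.mem_product.mpr ⟨Finset.mem_univ _, hx⟩, rfl⟩
  -- the mixed case
  have hkey : ∀ (i : Fin 3) (x y : ZMod p), x ∈ H → y ∈ H →
      ∃ v ∈ cevaDirs H, Submodule.span (ZMod p) {(Pi.single i x - Pi.single (i + 1) y : Fin 3 → ZMod p)}
        = Submodule.span (ZMod p) {v} := by
    intro i x y hx hy
    refine ⟨_, hmix i (y / x) (hdiv y hy x hx), span_smul (hne x hx) _ _ ?_⟩
    rw [smul_sub, ← hax i x, ← Pi.single_smul, smul_eq_mul, mul_div_cancel₀ _ (hne x hx)]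
  have hneg : ∀ v : Fin 3 → ZMod p, Submodule.span (ZMod p) {-v} = Submodule.span (ZMod p) {v} := by
    intro v
    exact span_smul (c := -1) (neg_ne_zero.mpr one_ne_zero) _ _ (by rw [neg_one_smul])
  have hij : ∀ i j : Fin 3, i ≠ j → j = i + 1 ∨ i = j + 1 := by decide
  rcases mem_cevaSet.mp ha with rfl | ⟨i, x, hx, rfl⟩
  · rcases mem_cevaSet.mp hb with rfl | ⟨j, y, hy, rfl⟩
    · exact absurd rfl hab
    · refine ⟨_, hunit j, ?_⟩
      rw [zero_sub, hneg]
      exact span_smul (hne y hy) _ _ (hax j y)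
  · rcases mem_cevaSet.mp hb with rfl | ⟨j, y, hy, rfl⟩
    · refine ⟨_, hunit i, ?_⟩
      rw [sub_zero]
      exact span_smul (hne x hx) _ _ (hax i x)
    · by_cases h : i = j
      · subst h
        have hxy : x ≠ y := fun h => hab (by rw [h])
        refine ⟨_, hunit i, ?_⟩
        rw [← Pi.single_sub]
        exact span_smul (sub_ne_zero.mpr hxy) _ _ (hax i _)
      · rcases hij i j h with rfl | rfl
        · exact hkey i x y hx hy
        · obtain ⟨v, hv, hv'⟩ := hkey j y x hy hx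
          refine ⟨v, hv, ?_⟩
          rw [← hv', ← hneg, neg_sub]

lemma ceva_dirs_le {H : Finset (ZMod p)} (h0 : (0 : ZMod p) ∉ H)
    (hdiv : ∀ x ∈ H, ∀ y ∈ H, x / y ∈ H) :
    Set.ncard {W : Submodule (ZMod p) (Fin 3 → ZMod p) |
        ∃ a ∈ cevaSet H, ∃ b ∈ cevaSet H, a ≠ b ∧ W = Submodule.span (ZMod p) {a - b}} ≤
      3 + 3 * H.card := by
  classical
  have hsub : {W : Submodule (ZMod p) (Fin 3 → ZMod p) |
        ∃ a ∈ cevaSet H, ∃ b ∈ cevaSet H, a ≠ b ∧ W = Submodule.span (ZMod p) {a - b}} ⊆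
      (((cevaDirs H).image (fun v => Submodule.span (ZMod p) {v}) :
        Finset (Submodule (ZMod p) (Fin 3 → ZMod p))) : Set _) := by
    rintro W ⟨a, ha, b, hb, hab, rfl⟩
    obtain ⟨v, hv, h⟩ := ceva_dir h0 hdiv ha hb hab
    rw [Finset.coe_image]
    exact ⟨v, hv, h.symm⟩
  refine (Set.ncard_le_ncard hsub (Finset.finite_toSet _)).trans ?_
  rw [Set.ncard_coe_finset]
  exact Finset.card_image_le.trans (card_cevaDirs_le H)

lemma ceva_nonplanar {H : Finset (ZMod p)} (h1 : (1 : ZMod p) ∈ H) :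
    ¬ ∃ v : Fin 3 → ZMod p, v ≠ 0 ∧ ∃ c : ZMod p, ∀ a ∈ cevaSet H, ∑ i, v i * a i = c := by
  rintro ⟨v, hv, c, hc⟩
  have h2 := hc 0 (mem_cevaSet.mpr (Or.inl rfl))
  simp only [Pi.zero_apply, mul_zero, Finset.sum_const_zero] at h2
  apply hv
  funext i
  have h3 := hc (Pi.single i 1) (mem_cevaSet.mpr (Or.inr ⟨i, 1, h1, rfl⟩))
  rw [← h2, Finset.sum_eq_single i] at h3
  · rwa [Pi.single_eq_same, mul_one] at h3
  · intro j _ hj
    rw [Pi.single_eq_of_ne hj, mul_zero]
  · intro h; exact absurd (Finset.mem_univ i) h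

/-- the subgroup of index three of the multiplicative group -/
lemma exists_cubes (hp3 : p % 3 = 1) : ∃ H : Finset (ZMod p), (0 : ZMod p) ∉ H ∧ (1 : ZMod p) ∈ H ∧
    (∀ x ∈ H, ∀ y ∈ H, x / y ∈ H) ∧ 3 * H.card + 1 = p := by
  classical
  obtain ⟨g, hg⟩ := IsCyclic.exists_generator (α := (ZMod p)ˣ)
  have hog : orderOf g = p - 1 := by
    rw [orderOf_eq_card_of_forall_mem_zpowers hg, Nat.card_eq_fintype_card, ZMod.card_units]
  have hp2 := (Fact.out : p.Prime).two_le
  set S := Subgroup.zpowers (g ^ 3) with hS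
  have hcard : Nat.card S = (p - 1) / 3 := by
    rw [hS, Nat.card_zpowers, orderOf_pow, hog]
    congr 1
    rw [Nat.gcd_eq_right]
    omega
  refine ⟨(Finset.univ.filter (fun u : (ZMod p)ˣ => u ∈ S)).image Units.val, ?_, ?_, ?_, ?_⟩
  · rw [Finset.mem_image]
    rintro ⟨u, _, hu⟩
    exact u.ne_zero hu
  · rw [Finset.mem_image]
    exact ⟨1, by rw [Finset.mem_filter]; exact ⟨Finset.mem_univ _, S.one_mem⟩, Units.val_one⟩
  · intro x hx y hy
    rw [Finset.mem_image] at hx hy ⊢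
    obtain ⟨u, hu, rfl⟩ := hx
    obtain ⟨w, hw, rfl⟩ := hy
    rw [Finset.mem_filter] at hu hw
    refine ⟨u / w, ?_, Units.val_div_eq_div_val u w⟩
    rw [Finset.mem_filter]
    exact ⟨Finset.mem_univ _, S.div_mem hu.2 hw.2⟩
  · rw [Finset.card_image_of_injective _ Units.val_injective]
    have h1 : (Finset.univ.filter (fun u : (ZMod p)ˣ => u ∈ S)).card = Nat.card S := by
      rw [Nat.card_eq_fintype_card, Fintype.card_subtype]
    rw [h1, hcard]
    omega

end KS41.Dir
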