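import Pool.Agent.KS6_41.Dir.Main3
import Pool.Agent.KS6_41.Dir.Example

/-!
Direction sets as sets of one-dimensional subspaces.
-/

set_option autoImplicit false

open Finset

namespace KS41.Dir

variable {p : ℕ} [Fact p.Prime]

/-- the number of directions -/
noncomputable def ndirs (A : Finset (Fin 3 → ZMod p)) : ℕ :=
  Set.ncard {W : Submodule (ZMod p) (Fin 3 → ZMod p) |
    ∃ a ∈ A, ∃ b ∈ A, a ≠ b ∧ W = Submodule.span (ZMod p) {a - b}}

/-- representatives of the directions -/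
lemma exists_D (A : Finset (Fin 3 → ZMod p)) :
    ∃ D : Finset (Vec p), D.card ≤ ndirs A ∧ Dirs A D ∧ ∀ d ∈ D, d ≠ 0 := by
  classical
  set DD : Finset (Submodule (ZMod p) (Fin 3 → ZMod p)) :=
    A.offDiag.image (fun q => Submodule.span (ZMod p) {q.1 - q.2}) with hDD
  have hset : {W : Submodule (ZMod p) (Fin 3 → ZMod p) |
        ∃ a ∈ A, ∃ b ∈ A, a ≠ b ∧ W = Submodule.span (ZMod p) {a - b}} = (DD : Set _) := by
    ext W
    simp only [Set.mem_ofPred_eq, hDD, Finset.coe_image, Set.mem_image, Finset.mem_coe,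
      Finset.mem_offDiag]
    constructor
    · rintro ⟨a, ha, b, hb, hab, rfl⟩
      exact ⟨(a, b), ⟨ha, hb, hab⟩, rfl⟩
    · rintro ⟨⟨a, b⟩, ⟨ha, hb, hab⟩, rfl⟩
      exact ⟨a, ha, b, hb, hab, rfl⟩
  have hrep : ∀ W ∈ DD, ∃ d : Fin 3 → ZMod p, (∃ a ∈ A, ∃ b ∈ A, a ≠ b ∧ d = a - b) ∧
      W = Submodule.span (ZMod p) {d} := by
    intro W hW
    rw [hDD, Finset.mem_image] at hW
    obtain ⟨⟨a, b⟩, hq, rfl⟩ := hW
    rw [Finset.mem_offDiag] at hq
    exact ⟨a - b, ⟨a, hq.1, b, hq.2.1, hq.2.2, rfl⟩, rfl⟩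
  choose! r hr1 hr2 using hrep
  set D : Finset (Fin 3 → ZMod p) := DD.image r with hD
  have hdirs : Dirs A D := by
    constructor
    · intro d hd
      rw [hD, Finset.mem_image] at hd
      obtain ⟨W, hW, rfl⟩ := hd
      exact hr1 W hW
    · intro a ha b hb hab
      obtain ⟨W0, hW0⟩ : ∃ W0 : Submodule (ZMod p) (Fin 3 → ZMod p),
        W0 = Submodule.span (ZMod p) {a - b} := ⟨_, rfl⟩
      have hW : W0 ∈ DD := by
        rw [hDD, Finset.mem_image]
        exact ⟨(a, b), by rw [Finset.mem_offDiag]; exact ⟨ha, hb, hab⟩, hW0.symm⟩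
      refine ⟨r W0, Finset.mem_image_of_mem r hW, ?_⟩
      have h3 := hr2 _ hW
      have h4 : r W0 ∈ Submodule.span (ZMod p) {r W0} := Submodule.mem_span_singleton_self _
      rw [← h3] at h4
      have h5 : ∀ x ∈ W0, ∃ c : ZMod p, c • (a - b) = x := by
        intro x hx
        rw [hW0] at hx
        exact Submodule.mem_span_singleton.mp hx
      obtain ⟨c, hc⟩ := h5 _ h4
      refine ⟨c, ?_, hc.symm⟩
      intro hc0
      rw [hc0, zero_smul] at hc
      obtain ⟨a', _, b', _, hab', hr'⟩ := hr1 _ hW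
      rw [← hc] at hr'
      exact hab' (sub_eq_zero.mp hr'.symm)
  refine ⟨D, ?_, hdirs, ?_⟩
  · rw [ndirs, hset, Set.ncard_coe_finset]
    exact Finset.card_image_le
  · intro d hd h0
    obtain ⟨a, _, b, _, hab, hd'⟩ := hdirs.rep d hd
    rw [h0] at hd'
    exact hab (sub_eq_zero.mp hd'.symm)

/-- at most three points lie in a plane -/
lemma planar_of_card_le {A : Finset (Vec p)} (hA : A.card = p) (hp3 : p ≤ 3) :
    ¬ NonPlanar A := by
  classical
  intro hnp
  have hp2 := (Fact.out : p.Prime).two_le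
  obtain ⟨a, ha⟩ := Finset.card_pos.mp (by omega : 0 < A.card)
  obtain ⟨b, hb⟩ : ∃ b, b ∈ A.erase a := by
    apply Finset.card_pos.mp
    rw [Finset.card_erase_of_mem ha]; omega
  have hab := Finset.mem_erase.mp hb
  have hrest : ((A.erase a).erase b).card ≤ 1 := by
    rw [Finset.card_erase_of_mem hb, Finset.card_erase_of_mem ha]; omega
  obtain ⟨w, hw⟩ : ∃ w, ∀ x ∈ (A.erase a).erase b, x = w := by
    rcases Finset.eq_empty_or_nonempty ((A.erase a).erase b) with h0 | ⟨w, hw⟩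
    · exact ⟨0, by rw [h0]; intro x hx; simp at hx⟩
    · refine ⟨w, fun x hx => ?_⟩
      exact Finset.card_le_one.mp hrest x hx w hw
  obtain ⟨φ, hφ, hφ1, hφ2⟩ := exists_orth2 (b - a) (w - a)
  rw [dotProduct_sub, sub_eq_zero] at hφ1 hφ2
  refine hnp φ hφ ⟨φ ⬝ᵥ a, fun x hx => ?_⟩
  by_cases h1 : x = a
  · rw [h1]
  · by_cases h2 : x = b
    · rw [h2, hφ1]
    · have := hw x (Finset.mem_erase.mpr ⟨h2, Finset.mem_erase.mpr ⟨h1, hx⟩⟩)
      rw [this, hφ2]

/-- a nonplanar `p`-set forces `p ≥ 5`, and `p` is odd -/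
lemma prime_ge_five {A : Finset (Vec p)} (hA : A.card = p) (hnp : NonPlanar A) :
    5 ≤ p ∧ ∃ h, 2 ≤ h ∧ p = 2 * h + 1 := by
  have hpr := (Fact.out : p.Prime)
  have h3 : ¬ p ≤ 3 := fun h => planar_of_card_le hA h hnp
  have hp4 : p ≠ 4 := by
    rintro rfl
    revert hpr; decide
  have hodd : p % 2 = 1 := by
    rcases hpr.eq_two_or_odd with h | h
    · omega
    · exact h
  exact ⟨by omega, p / 2, by omega, by omega⟩

/-- at least `p + 2` directions, and at least `p + 3` if `p % 3 = 2` -/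
theorem lower_bound {A : Finset (Vec p)} (hA : A.card = p) (hnp : NonPlanar A) :
    p + 2 ≤ ndirs A ∧ (p % 3 ≠ 1 → p + 3 ≤ ndirs A) := by
  obtain ⟨D, hDc, hD, hD0⟩ := exists_D A
  obtain ⟨hp5, h, hh, hp⟩ := prime_ge_five hA hnp
  have hpr := (Fact.out : p.Prime)
  have hmod : p % 3 ≠ 0 := by
    intro h0
    have := (Nat.prime_dvd_prime_iff_eq Nat.prime_three hpr).mp (Nat.dvd_of_mod_eq_zero h0)
    omega
  constructor
  · by_contra hcon
    push Not at hcon
    obtain ⟨K, hKh, hK3, hM⟩ := low_moments3 hD hA hnp 0 (by omega) (by omega) hD0 h hh hp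
    exact basic_false hD hA hnp (by omega) hp5 K (by omega) (by omega) hM
  · intro h1
    by_contra hcon
    push Not at hcon
    obtain ⟨K, hKh, hK3, hM⟩ := low_moments3 hD hA hnp 1 (by omega) (by omega) hD0 h hh hp
    exact basic_false hD hA hnp (by omega) hp5 K (by omega) (by omega) hM

end KS41.Dir
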