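import Pool.Agent.KS6_41.Dir.DirMain4

/-!
The key polynomial estimate, with the sharper degree bound `2 r - 2` for the Wronskian-type
expression (adapted from an earlier file, where only `2 r - 1` is used).
-/

set_option autoImplicit false

open Polynomial Finset

namespace KS41.Dir

variable {p : ℕ} [Fact p.Prime]

theorem core3 {ι κ : Type*} [DecidableEq ι] (s0 : Finset ι) (A : Finset κ)
    (α β γ : ι → ZMod p) (x y zz : κ → ZMod p) (j : ℕ) (hp3 : 3 ≤ p)
    (hj1 : 1 ≤ j) (hs0 : s0.card + j < 2 * (p - 1)) (hα : ∀ d ∈ s0, α d ≠ 0)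
    (H0 : ∀ u v w : ZMod p, w ≠ 0 → (∏ d ∈ s0, (u * α d + v * β d + w * γ d)) *
      ∑ a ∈ A, (u * x a + v * y a + w * zz a) ^ j = 0)
    (H1 : ∑ a ∈ A, (x a) ^ j ≠ 0) :
    3 * p + 1 ≤ 2 * s0.card + 3 * j ∨
      ∃ x0 : ZMod p, p - j ≤ (s0.filter (fun d => x0 * α d + β d = 0)).card := by
  classical
  set s := s0.disjSum (Finset.univ : Finset (Fin j)) with hs
  have hscard : s.card = s0.card + j := by
    rw [hs, Finset.card_disjSum]; simp
  set N := s.card with hN
  set α' : κ → (ι ⊕ Fin j) → ZMod p := fun a => Sum.elim α (fun _ => x a) with hα'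
  set β' : κ → (ι ⊕ Fin j) → ZMod p := fun a => Sum.elim β (fun _ => y a) with hβ'
  set γ' : κ → (ι ⊕ Fin j) → ZMod p := fun a => Sum.elim γ (fun _ => zz a) with hγ'
  set w := wpoly s A α' β' γ' with hw
  set κ0 : ZMod p := (∏ d ∈ s0, α d) * ∑ a ∈ A, (x a) ^ j with hκ0
  have hκne : κ0 ≠ 0 := mul_ne_zero (Finset.prod_ne_zero_iff.mpr hα) H1
  -- the sum over the pencil at infinity
  have hinf : ∑ z : ZMod p, ∑ a ∈ A, ∏ i ∈ s, (α' a i + z * γ' a i) = κ0 := by
    have h1 : ∀ z : ZMod p, ∑ a ∈ A, ∏ i ∈ s, (α' a i + z * γ' a i) =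
        (∏ d ∈ s0, (α d + z * γ d)) * ∑ a ∈ A, (x a + z * zz a) ^ j := by
      intro z
      rw [Finset.mul_sum]
      apply Finset.sum_congr rfl
      intro a _
      exact prod_disj' s0 α γ x zz j z a
    rw [Finset.sum_congr rfl (fun z _ => h1 z), Finset.sum_eq_single 0]
    · simp [hκ0]
    · intro z _ hz
      have h2 := H0 1 0 z hz
      simpa using h2
    · intro hn; exact absurd (Finset.mem_univ _) hn
  have hNge : p - 1 ≤ N := by
    by_contra hlt
    push Not at hlt
    apply hκne
    rw [← hinf, Finset.sum_comm]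
    apply Finset.sum_eq_zero
    intro a _
    exact sum_prod_lt s _ _ hlt
  have hNlt : N < 2 * (p - 1) := by omega
  have hwdeg : w.natDegree ≤ N - (p - 1) := wpoly_natDegree s A α' β' γ'
  have hwtop : w.coeff (N - (p - 1)) = κ0 := by
    rw [hw, wpoly_coeff_top s A α' β' γ' hNge hNlt, hinf]
  -- w as a sum
  have hwsum : w = ∑ z : ZMod p, Phi s0 α β γ z * Gp A x y zz j z := by
    rw [hw, wpoly]
    apply Finset.sum_congr rfl
    intro z _
    rw [Gp, Finset.mul_sum]
    apply Finset.sum_congr rfl
    intro a _
    exact prod_disj s0 α β γ x y zz j z a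
  set Φ := Phi s0 α β γ 0 with hΦ
  set g := Gp A x y zz j 0 with hg
  set F := Φ * g with hF
  have hPeval : ∀ z : ZMod p, z ≠ 0 → ∀ ξ : ZMod p,
      (Phi s0 α β γ z * Gp A x y zz j z).eval ξ = 0 := by
    intro z hz ξ
    have h1 := H0 ξ 1 z hz
    rw [eval_mul, Phi, Gp, eval_prod, eval_finset_sum]
    simp only [eval_add, eval_mul, eval_C, eval_X, eval_pow]
    convert h1 using 2
    · apply Finset.prod_congr rfl
      intro d _; ring
    · apply Finset.sum_congr rfl
      intro a _; ring
  have hFw : ∀ ξ : ZMod p, F.eval ξ = w.eval ξ := by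
    intro ξ
    rw [hwsum, eval_finset_sum, Finset.sum_eq_single 0]
    · intro z _ hz
      exact hPeval z hz ξ
    · intro hn; exact absurd (Finset.mem_univ _) hn
  have hΦdeg : Φ.natDegree ≤ s0.card := by
    rw [hΦ, Phi]
    apply (natDegree_prod_le _ _).trans
    apply (Finset.sum_le_card_nsmul _ _ 1 _).trans
    · simp
    · intro d _
      exact natDegree_linear_le
  have hΦtop : Φ.coeff s0.card = ∏ d ∈ s0, α d := by
    rw [hΦ, Phi, coeff_prod_lin, Finset.sum_eq_single s0]
    · simp
    · intro t ht hne
      rw [if_neg]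
      intro hc
      exact hne (Finset.eq_of_subset_of_card_le (Finset.mem_powerset.mp ht) hc.ge)
    · intro hn; exact absurd (Finset.mem_powerset_self s0) hn
  have hgdeg : g.natDegree ≤ j := by
    rw [hg, Gp]
    apply natDegree_sum_le_of_forall_le
    intro a _
    apply (natDegree_pow_le).trans
    have : (C (x a) * X + C (y a + 0 * zz a) : (ZMod p)[X]).natDegree ≤ 1 := natDegree_linear_le
    calc j * _ ≤ j * 1 := Nat.mul_le_mul_left _ this
      _ = j := mul_one j
  have hgtop : g.coeff j = ∑ a ∈ A, x a ^ j := by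
    rw [hg, Gp, finsetSum_coeff]
    apply Finset.sum_congr rfl
    intro a _
    have h1 := coeff_pow_of_natDegree_le (p := (C (x a) * X + C (y a + 0 * zz a) : (ZMod p)[X]))
      (m := j) (n := 1) natDegree_linear_le
    rw [mul_one] at h1
    rw [h1]
    simp
  have hFtop : F.coeff N = κ0 := by
    rw [hscard, hF, coeff_mul_add_eq_of_natDegree_le hΦdeg hgdeg, hΦtop, hgtop]
  have hFdeg : F.natDegree ≤ N := by
    rw [hscard, hF]
    exact natDegree_mul_le.trans (Nat.add_le_add hΦdeg hgdeg)
  have hF0 : F ≠ 0 := by
    intro h0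
    rw [h0, coeff_zero] at hFtop
    exact hκne hFtop.symm
  have hg0 : g ≠ 0 := fun h0 => hF0 (by rw [hF, h0, mul_zero])
  obtain ⟨K, hK⟩ := dvd_of_vanish (F - w) (by
    intro ξ
    rw [eval_sub, hFw ξ, sub_self])
  have hXmon : ((X : (ZMod p)[X]) ^ p - X).Monic := by
    apply monic_X_pow_sub
    rw [degree_X]
    have : 1 < p := by omega
    exact_mod_cast this
  have hXdeg : ((X : (ZMod p)[X]) ^ p - X).natDegree = p := by
    have : (X : (ZMod p)[X]).natDegree < ((X : (ZMod p)[X]) ^ p).natDegree := by
      rw [natDegree_X_pow, natDegree_X]; omega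
    rw [natDegree_sub_eq_left_of_natDegree_lt this, natDegree_X_pow]
  have hwN : w.coeff N = 0 := coeff_eq_zero_of_natDegree_lt (by omega)
  have hdiffN : (F - w).coeff N = κ0 := by rw [coeff_sub, hFtop, hwN, sub_zero]
  have hdiffdeg : (F - w).natDegree = N := by
    apply le_antisymm
    · apply (natDegree_sub_le _ _).trans
      exact max_le hFdeg (by omega)
    · apply le_natDegree_of_ne_zero
      rw [hdiffN]; exact hκne
  have hK0 : K ≠ 0 := by
    intro h0
    rw [h0, mul_zero] at hK
    rw [hK, coeff_zero] at hdiffN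
    exact hκne hdiffN.symm
  set r := K.natDegree with hr
  have hNr : N = p + r := by
    rw [← hdiffdeg, hK, natDegree_mul hXmon.ne_zero hK0, hXdeg]
  have hKtop : K.coeff r = κ0 := by
    have h1 : (F - w).leadingCoeff = κ0 := by rw [leadingCoeff, hdiffdeg, hdiffN]
    rw [hK, leadingCoeff_mul, hXmon.leadingCoeff, one_mul] at h1
    exact h1
  have hr1 : N - (p - 1) = r + 1 := by omega
  rw [hr1] at hwdeg hwtop
  have hw0 : w ≠ 0 := by
    intro h0
    rw [h0, coeff_zero] at hwtop
    exact hκne hwtop.symm
  have hFeq : F = w + (X ^ p - X) * K := by rw [← hK]; ring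
  have hdX : derivative ((X : (ZMod p)[X]) ^ p - X) = -1 := by
    rw [derivative_sub, derivative_X_pow]; simp
  set RHS := K * derivative w - derivative K * w - K * K with hRHS
  have hLHS : K * derivative F - derivative K * F = RHS := by
    rw [hRHS, hFeq, derivative_add, derivative_mul, hdX]
    ring
  set u := w - X * K with hu
  have hudeg : u.natDegree ≤ r := by
    rw [natDegree_le_iff_coeff_eq_zero]
    intro i hi
    rw [hu, coeff_sub]
    have hi1 : i = (i - 1) + 1 := by omega
    rw [hi1, coeff_X_mul]
    by_cases hir : i = r + 1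
    · have : i - 1 = r := by omega
      rw [this, hwtop, hKtop, sub_self]
    · rw [coeff_eq_zero_of_natDegree_lt (show w.natDegree < i - 1 + 1 by omega),
        coeff_eq_zero_of_natDegree_lt (show K.natDegree < i - 1 by omega), sub_zero]
  have hRu : RHS = K * derivative u - derivative K * u := by
    rw [hRHS, hu, derivative_sub, derivative_mul, derivative_X]
    ring
  by_cases hR0 : RHS = 0
  · right
    -- w = (X + c) K
    have hwr : derivative u * K = u * derivative K := by
      rw [hRu] at hR0
      linear_combination hR0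
    obtain ⟨c, hc⟩ := wronsk_zero K u hK0 (by omega) hudeg hwr
    have hweq : w = (X + C c) * K := by
      have : w = u + X * K := by rw [hu]; ring
      rw [this, hc]; ring
    have hXc : (X : (ZMod p)[X]) ^ p + C c = (X + C c) ^ p := by
      rw [add_pow_char, ← C_pow, ZMod.pow_card]
    have hFK : F = K * (X + C c) ^ p := by
      rw [hFeq, hweq, ← hXc]; ring
    refine ⟨-c, ?_⟩
    by_contra hlt
    push Not at hlt
    set I := s0.filter (fun d => -c * α d + β d = 0) with hI
    have hΦsplit : Φ = (C (∏ d ∈ I, α d) * ∏ d ∈ s0.filter (fun d => ¬ (-c * α d + β d = 0)),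
        (C (α d) * X + C (β d))) * (X + C c) ^ I.card := by
      rw [hΦ, Phi, ← Finset.prod_filter_mul_prod_filter_not s0 (fun d => -c * α d + β d = 0)]
      have h1 : ∏ d ∈ s0.filter (fun d => -c * α d + β d = 0), (C (α d) * X + C (β d + 0 * γ d))
          = C (∏ d ∈ I, α d) * (X + C c) ^ I.card := by
        rw [map_prod, ← Finset.prod_const, ← Finset.prod_mul_distrib]
        apply Finset.prod_congr rfl
        intro d hd
        have h2 : β d = c * α d := by
          have := (Finset.mem_filter.mp hd).2
          linear_combination this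
        rw [h2]
        simp only [zero_mul, add_zero, map_mul]
        ring
      rw [h1]
      simp only [zero_mul, add_zero]
      ring
    set Rr := C (∏ d ∈ I, α d) * ∏ d ∈ s0.filter (fun d => ¬ (-c * α d + β d = 0)),
        (C (α d) * X + C (β d)) with hRr
    have hRreval : Rr.eval (-c) ≠ 0 := by
      rw [hRr, eval_mul, eval_C, eval_prod]
      apply mul_ne_zero
      · apply Finset.prod_ne_zero_iff.mpr
        intro d hd
        exact hα d (Finset.mem_filter.mp hd).1
      · apply Finset.prod_ne_zero_iff.mpr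
        intro d hd
        have := (Finset.mem_filter.mp hd).2
        simp only [eval_add, eval_mul, eval_C, eval_X]
        intro h3
        apply this
        rw [← h3]; ring
    have hdvd : (X + C c : (ZMod p)[X]) ^ (p - I.card) ∣ Rr * g := by
      have h1 : (Rr * g) * (X + C c) ^ I.card = (K * (X + C c) ^ (p - I.card)) * (X + C c) ^ I.card := by
        have : (X + C c : (ZMod p)[X]) ^ p = (X + C c) ^ (p - I.card) * (X + C c) ^ I.card := by
          rw [← pow_add]; congr 1; omega
        have h2 : F = K * ((X + C c) ^ (p - I.card) * (X + C c) ^ I.card) := by rw [← this]; exact hFK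
        rw [hF, hΦsplit] at h2
        linear_combination h2
      have h3 : (X + C c : (ZMod p)[X]) ^ I.card ≠ 0 := pow_ne_zero _ (X_add_C_ne_zero c)
      have h4 := mul_right_cancel₀ h3 h1
      exact ⟨K, by rw [h4]; ring⟩
    have hcop : IsCoprime ((X + C c : (ZMod p)[X]) ^ (p - I.card)) Rr := by
      apply IsCoprime.pow_left
      have hXc' : (X + C c : (ZMod p)[X]) = X - C (-c) := by simp
      rw [hXc']
      rw [(irreducible_X_sub_C (-c)).coprime_iff_not_dvd, dvd_iff_isRoot]
      exact hRreval
    have hdvdg : (X + C c : (ZMod p)[X]) ^ (p - I.card) ∣ g := hcop.dvd_of_dvd_mul_left hdvd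
    have h5 := natDegree_le_of_dvd hdvdg hg0
    rw [natDegree_pow, natDegree_X_add_C, mul_one] at h5
    omega
  · left
    -- degree of RHS
    set cc := u.coeff r / κ0 with hcc
    set v := u - C cc * K with hv
    have hRv : RHS = K * derivative v - derivative K * v := by
      have h1 : derivative v = derivative u - C cc * derivative K := by
        rw [hv, derivative_sub, derivative_mul, derivative_C]
        ring
      rw [hRu, h1, hv]
      ring
    have hvdeg0 : v.natDegree ≤ r := by
      rw [hv]
      apply (natDegree_sub_le _ _).trans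
      apply max_le hudeg
      exact (natDegree_C_mul_le _ _).trans le_rfl
    have hvr : v.coeff r = 0 := by
      rw [hv, coeff_sub, coeff_C_mul, hKtop, hcc]
      field_simp
      ring
    have hv0 : v ≠ 0 := by
      intro h0
      apply hR0
      rw [hRv, h0]; simp
    have hvr' : v.natDegree ≠ r := by
      intro h0
      apply hv0
      rw [← leadingCoeff_eq_zero, leadingCoeff, h0, hvr]
    have hr1' : 1 ≤ r := by omega
    have hRdeg : RHS.natDegree ≤ 2 * r - 2 := by
      rw [hRv]
      apply (natDegree_sub_le _ _).trans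
      apply max_le
      · by_cases h0 : v.natDegree = 0
        · have : derivative v = 0 := by
            rw [eq_C_of_natDegree_eq_zero h0, derivative_C]
          rw [this, mul_zero, natDegree_zero]; omega
        · apply natDegree_mul_le.trans
          have := natDegree_derivative_le v
          omega
      · apply natDegree_mul_le.trans
        have := natDegree_derivative_le K
        omega
    -- distinct roots
    set Ξ := s0.image (fun d => -β d / α d) with hΞ
    have hΞroot : ∀ ξ ∈ Ξ, w.eval ξ = 0 := by
      intro ξ hξ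
      obtain ⟨d, hd, rfl⟩ := Finset.mem_image.mp hξ
      rw [← hFw, hF, eval_mul]
      have : Φ.eval (-β d / α d) = 0 := by
        rw [hΦ, Phi, eval_prod]
        apply Finset.prod_eq_zero hd
        have := hα d hd
        simp only [eval_add, eval_mul, eval_C, eval_X, zero_mul, add_zero]
        field_simp
        ring
      rw [this, zero_mul]
    have hΞcard : Ξ.card ≤ r + 1 := by
      have h1 : Ξ ⊆ w.roots.toFinset := by
        intro ξ hξ
        rw [Multiset.mem_toFinset, mem_roots hw0]
        exact hΞroot ξ hξ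
      calc Ξ.card ≤ w.roots.toFinset.card := Finset.card_le_card h1
        _ ≤ Multiset.card w.roots := Multiset.toFinset_card_le _
        _ ≤ w.natDegree := card_roots' w
        _ ≤ r + 1 := hwdeg
    set I : ZMod p → Finset ι := fun ξ => s0.filter (fun d => -β d / α d = ξ) with hI
    have hIdvd : ∀ ξ ∈ Ξ, (X - C ξ) ^ ((I ξ).card - 1) ∣ RHS := by
      intro ξ hξ
      have hpos : 0 < (I ξ).card := by
        obtain ⟨d, hd, hdξ⟩ := Finset.mem_image.mp hξ
        exact Finset.card_pos.mpr ⟨d, Finset.mem_filter.mpr ⟨hd, hdξ⟩⟩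
      have h1 : (X - C ξ) ^ (I ξ).card ∣ F := by
        have h2 : (X - C ξ) ^ (I ξ).card ∣ Φ := by
          rw [hΦ, Phi, ← Finset.prod_filter_mul_prod_filter_not s0 (fun d => -β d / α d = ξ)]
          apply Dvd.dvd.mul_right
          rw [← Finset.prod_const]
          apply Finset.prod_dvd_prod_of_dvd
          intro d hd
          refine ⟨C (α d), ?_⟩
          have h3 := (Finset.mem_filter.mp hd).2
          have h4 := hα d (Finset.mem_filter.mp hd).1
          have h5 : β d = -(ξ * α d) := by
            rw [← h3]; field_simp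
          rw [h5]
          simp only [zero_mul, add_zero, map_neg, map_mul]
          ring
        exact h2.mul_right g
      obtain ⟨Q, hQ⟩ := h1
      have h3 : (X - C ξ) ^ ((I ξ).card - 1) ∣ F := by
        rw [hQ]
        exact (pow_dvd_pow _ (by omega)).mul_right Q
      have h4 : (X - C ξ) ^ ((I ξ).card - 1) ∣ derivative F := by
        rw [hQ, derivative_mul]
        apply dvd_add
        · apply Dvd.dvd.mul_right
          rw [derivative_pow]
          apply Dvd.dvd.mul_right
          exact Dvd.intro_left _ rfl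
        · exact (pow_dvd_pow _ (by omega)).mul_right _
      rw [← hLHS]
      exact dvd_sub (h4.mul_left K) (h3.mul_left _)
    have hproddvd : (∏ ξ ∈ Ξ, (X - C ξ) ^ ((I ξ).card - 1)) ∣ RHS := by
      apply Finset.prod_dvd_of_coprime
      · intro a _ b _ hab
        apply IsCoprime.pow
        exact pairwise_coprime_X_sub_C Function.injective_id hab
      · exact hIdvd
    have hdegprod := natDegree_le_of_dvd hproddvd hR0
    rw [natDegree_prod_of_monic _ _ (fun ξ _ => (monic_X_sub_C ξ).pow _)] at hdegprod
    have h6 : ∑ ξ ∈ Ξ, ((X - C ξ : (ZMod p)[X]) ^ ((I ξ).card - 1)).natDegree =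
        ∑ ξ ∈ Ξ, ((I ξ).card - 1) := by
      apply Finset.sum_congr rfl
      intro ξ _
      rw [natDegree_pow, natDegree_X_sub_C, mul_one]
    rw [h6] at hdegprod
    have h7 : ∑ ξ ∈ Ξ, (I ξ).card = s0.card := by
      rw [hI, hΞ]
      exact (Finset.card_eq_sum_card_image (fun d => -β d / α d) s0).symm
    have h8 : ∑ ξ ∈ Ξ, (I ξ).card ≤ ∑ ξ ∈ Ξ, ((I ξ).card - 1) + Ξ.card := by
      rw [Finset.card_eq_sum_ones, ← Finset.sum_add_distrib]
      apply Finset.sum_le_sum
      intro ξ _
      omega
    omega

end KS41.Dir
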