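import Mathlib

set_option autoImplicit false

open Polynomial Finset

namespace KS41.Dir

variable {p : ℕ} [Fact p.Prime]

lemma sum_pow_lt (i : ℕ) (h : i < p - 1) : ∑ z : ZMod p, z ^ i = 0 := by
  have := FiniteField.sum_pow_lt_card_sub_one (ZMod p) i
  rw [ZMod.card] at this
  exact this h

lemma sum_pow_card_sub_one : ∑ z : ZMod p, z ^ (p - 1) = -1 := by
  have hp := (Fact.out : p.Prime).two_le
  rw [← Finset.add_sum_erase Finset.univ _ (Finset.mem_univ (0 : ZMod p)), zero_pow (by omega), zero_add]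
  have : ∀ z ∈ Finset.univ.erase (0 : ZMod p), z ^ (p - 1) = 1 := by
    intro z hz
    exact ZMod.pow_card_sub_one_eq_one (Finset.ne_of_mem_erase hz)
  rw [Finset.sum_congr rfl this, Finset.sum_const, Finset.card_erase_of_mem (Finset.mem_univ _),
    Finset.card_univ, ZMod.card, nsmul_eq_mul, mul_one, Nat.cast_sub (by omega), Nat.cast_one,
    CharP.cast_eq_zero, zero_sub]

lemma sum_pow_big (i : ℕ) (h1 : p - 1 < i) (h2 : i < 2 * (p - 1)) : ∑ z : ZMod p, z ^ i = 0 := by
  have hp := (Fact.out : p.Prime).two_le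
  have h3 : ∀ z : ZMod p, z ^ i = z ^ (i - (p - 1)) := by
    intro z
    have h4 : i = p + (i - p) := by omega
    have h5 : i - (p - 1) = 1 + (i - p) := by omega
    rw [h5, h4, pow_add, ZMod.pow_card, pow_add, pow_one]
    congr 2
    omega
  rw [Finset.sum_congr rfl (fun z _ => h3 z)]
  exact sum_pow_lt _ (by omega)

lemma sum_prod_expand {ι : Type*} [DecidableEq ι] (T : Finset ι) (β γ : ι → ZMod p) :
    ∑ z : ZMod p, ∏ i ∈ T, (β i + z * γ i) =
      ∑ t ∈ T.powerset, (∏ i ∈ t, β i) * (∏ i ∈ T \ t, γ i) * ∑ z : ZMod p, z ^ (T \ t).card := by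
  have h1 : ∀ z : ZMod p, ∏ i ∈ T, (β i + z * γ i) =
      ∑ t ∈ T.powerset, (∏ i ∈ t, β i) * (∏ i ∈ T \ t, γ i) * z ^ (T \ t).card := by
    intro z
    rw [Finset.prod_add]
    apply Finset.sum_congr rfl
    intro t _
    rw [Finset.prod_mul_distrib, Finset.prod_const]
    ring
  rw [Finset.sum_congr rfl (fun z _ => h1 z), Finset.sum_comm]
  apply Finset.sum_congr rfl
  intro t _
  rw [Finset.mul_sum]

lemma sum_prod_lt {ι : Type*} [DecidableEq ι] (T : Finset ι) (β γ : ι → ZMod p) (h : T.card < p - 1) :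
    ∑ z : ZMod p, ∏ i ∈ T, (β i + z * γ i) = 0 := by
  rw [sum_prod_expand]
  apply Finset.sum_eq_zero
  intro t _
  rw [sum_pow_lt _ (lt_of_le_of_lt (Finset.card_le_card Finset.sdiff_subset) h), mul_zero]

lemma sum_prod_eq {ι : Type*} [DecidableEq ι] (T : Finset ι) (β γ : ι → ZMod p) (h : T.card = p - 1) :
    ∑ z : ZMod p, ∏ i ∈ T, (β i + z * γ i) = - ∏ i ∈ T, γ i := by
  rw [sum_prod_expand, Finset.sum_eq_single ∅]
  · simp [h, sum_pow_card_sub_one]
  · intro t ht hne
    have h1 : (T \ t).card < p - 1 := by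
      rw [← h]
      apply Finset.card_lt_card
      rw [Finset.ssubset_iff_subset_ne]
      refine ⟨Finset.sdiff_subset, ?_⟩
      intro heq
      obtain ⟨x, hx⟩ := Finset.nonempty_iff_ne_empty.mpr hne
      have h2 : x ∈ T := Finset.mem_powerset.mp ht hx
      rw [← heq, Finset.mem_sdiff] at h2
      exact h2.2 hx
    rw [sum_pow_lt _ h1, mul_zero]
  · intro hn
    exact absurd (Finset.empty_mem_powerset T) hn

lemma coeff_prod_lin {ι : Type*} [DecidableEq ι] (s : Finset ι) (α b : ι → ZMod p) (m : ℕ) :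
    (∏ i ∈ s, (C (α i) * X + C (b i))).coeff m =
      ∑ t ∈ s.powerset, if t.card = m then (∏ i ∈ t, α i) * ∏ i ∈ s \ t, b i else 0 := by
  rw [Finset.prod_add, finsetSum_coeff]
  apply Finset.sum_congr rfl
  intro t _
  rw [Finset.prod_mul_distrib, Finset.prod_const]
  have h1 : (∏ i ∈ t, C (α i) : (ZMod p)[X]) = C (∏ i ∈ t, α i) := by
    rw [map_prod]
  have h2 : (∏ i ∈ s \ t, C (b i) : (ZMod p)[X]) = C (∏ i ∈ s \ t, b i) := by
    rw [map_prod]
  rw [h1, h2, coeff_mul_C, coeff_C_mul, coeff_X_pow]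
  by_cases h : t.card = m
  · rw [if_pos h, if_pos h.symm, mul_one]
  · rw [if_neg h, if_neg (Ne.symm h), mul_zero, zero_mul]

/-- the polynomial `w` -/
noncomputable def wpoly {ι κ : Type*} (s : Finset ι) (A : Finset κ)
    (α β γ : κ → ι → ZMod p) : (ZMod p)[X] :=
  ∑ z : ZMod p, ∑ a ∈ A, ∏ i ∈ s, (C (α a i) * X + C (β a i + z * γ a i))

lemma wpoly_coeff {ι κ : Type*} [DecidableEq ι] (s : Finset ι) (A : Finset κ)
    (α β γ : κ → ι → ZMod p) (m : ℕ) :
    (wpoly s A α β γ).coeff m = ∑ a ∈ A, ∑ t ∈ s.powerset,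
      if t.card = m then (∏ i ∈ t, α a i) * ∑ z : ZMod p, ∏ i ∈ s \ t, (β a i + z * γ a i) else 0 := by
  rw [wpoly]
  simp only [finsetSum_coeff, coeff_prod_lin]
  rw [Finset.sum_comm]
  apply Finset.sum_congr rfl
  intro a _
  rw [Finset.sum_comm]
  apply Finset.sum_congr rfl
  intro t _
  by_cases h : t.card = m
  · simp only [h, if_true]
    rw [Finset.mul_sum]
  · simp [h]

theorem wpoly_natDegree {ι κ : Type*} [DecidableEq ι] (s : Finset ι) (A : Finset κ)
    (α β γ : κ → ι → ZMod p) :
    (wpoly s A α β γ).natDegree ≤ s.card - (p - 1) := by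
  rw [natDegree_le_iff_coeff_eq_zero]
  intro m hm
  rw [wpoly_coeff]
  apply Finset.sum_eq_zero
  intro a _
  apply Finset.sum_eq_zero
  intro t ht
  by_cases h : t.card = m
  · rw [if_pos h, sum_prod_lt, mul_zero]
    rw [Finset.card_sdiff_of_subset (Finset.mem_powerset.mp ht)]
    have := Finset.card_le_card (Finset.mem_powerset.mp ht)
    have hp := (Fact.out : p.Prime).two_le
    omega
  · rw [if_neg h]

theorem wpoly_coeff_top {ι κ : Type*} [DecidableEq ι] (s : Finset ι) (A : Finset κ)
    (α β γ : κ → ι → ZMod p) (h1 : p - 1 ≤ s.card) (h2 : s.card < 2 * (p - 1)) :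
    (wpoly s A α β γ).coeff (s.card - (p - 1)) =
      ∑ z : ZMod p, ∑ a ∈ A, ∏ i ∈ s, (α a i + z * γ a i) := by
  rw [wpoly_coeff, Finset.sum_comm (s := (Finset.univ : Finset (ZMod p)))]
  apply Finset.sum_congr rfl
  intro a _
  rw [sum_prod_expand]
  apply Finset.sum_congr rfl
  intro t ht
  have hcard := Finset.card_sdiff_of_subset (Finset.mem_powerset.mp ht)
  have hle := Finset.card_le_card (Finset.mem_powerset.mp ht)
  have hp := (Fact.out : p.Prime).two_le
  by_cases h : t.card = s.card - (p - 1)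
  · have h3 : (s \ t).card = p - 1 := by omega
    rw [if_pos h, sum_prod_eq _ _ _ h3, h3, sum_pow_card_sub_one]
    ring
  · rw [if_neg h]
    have h3 : (s \ t).card ≠ p - 1 := by omega
    rcases lt_or_gt_of_ne h3 with h4 | h4
    · rw [sum_pow_lt _ h4, mul_zero]
    · rw [sum_pow_big _ h4 (by omega), mul_zero]

/-- a polynomial vanishing everywhere is divisible by `X^p - X` -/
lemma dvd_of_vanish (q : (ZMod p)[X]) (h : ∀ x : ZMod p, q.eval x = 0) :
    ∃ K : (ZMod p)[X], q = (X ^ p - X) * K := by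
  have hp := (Fact.out : p.Prime).two_le
  have hXmon : ((X : (ZMod p)[X]) ^ p - X).Monic := by
    apply monic_X_pow_sub
    rw [degree_X]
    have : 1 < p := by omega
    exact_mod_cast this
  have hXdeg : ((X : (ZMod p)[X]) ^ p - X).natDegree = p := by
    have : (X : (ZMod p)[X]).natDegree < ((X : (ZMod p)[X]) ^ p).natDegree := by
      rw [natDegree_X_pow, natDegree_X]; omega
    rw [natDegree_sub_eq_left_of_natDegree_lt this, natDegree_X_pow]
  have h1 := modByMonic_add_div q (X ^ p - X : (ZMod p)[X])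
  have h2 : q %ₘ (X ^ p - X : (ZMod p)[X]) = 0 := by
    apply Polynomial.eq_zero_of_natDegree_lt_card_of_eval_eq_zero' _ (Finset.univ : Finset (ZMod p))
    · intro x _
      have h3 : q.eval x = (q %ₘ (X ^ p - X : (ZMod p)[X])).eval x := by
        conv_lhs => rw [← h1]
        simp
      rw [← h3, h x]
    · rw [Finset.card_univ, ZMod.card]
      have h4 := natDegree_modByMonic_lt q hXmon (by
        intro h5
        rw [h5, natDegree_one] at hXdeg
        omega)
      rw [hXdeg] at h4
      exact h4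
  refine ⟨q /ₘ (X ^ p - X), ?_⟩
  conv_lhs => rw [← h1]
  rw [h2, zero_add]

/-- Wronskian zero lemma -/
lemma wronsk_zero (K u : (ZMod p)[X]) (hK : K ≠ 0) (hKp : K.natDegree < p)
    (hu : u.natDegree ≤ K.natDegree) (h : derivative u * K = u * derivative K) :
    ∃ c : ZMod p, u = C c * K := by
  set r := K.natDegree with hr
  have hlc : K.coeff r ≠ 0 := by
    rw [hr]; exact leadingCoeff_ne_zero.mpr hK
  set c := u.coeff r / K.coeff r with hc
  refine ⟨c, ?_⟩
  set v := u - C c * K with hv
  have hv' : derivative v * K = v * derivative K := by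
    rw [hv, derivative_sub, derivative_C_mul]
    linear_combination h
  have hvdeg : v.natDegree ≤ r := by
    apply (natDegree_sub_le _ _).trans
    exact max_le hu (natDegree_C_mul_le _ _)
  have hvr : v.coeff r = 0 := by
    rw [hv, coeff_sub, coeff_C_mul, hc]
    field_simp
    ring
  by_contra hne
  have hv0 : v ≠ 0 := by
    intro h0
    exact hne (sub_eq_zero.mp (hv ▸ h0))
  set s := v.natDegree with hs
  have hsr : s < r := by
    rcases lt_or_eq_of_le hvdeg with h1 | h1
    · exact h1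
    · exfalso
      apply hv0
      rw [← leadingCoeff_eq_zero, leadingCoeff, ← hs, h1]
      exact hvr
  have hlv : v.coeff s ≠ 0 := by
    rw [hs]; exact leadingCoeff_ne_zero.mpr hv0
  have hd1 : (v * derivative K).coeff (s + (r - 1)) = v.coeff s * (derivative K).coeff (r - 1) := by
    apply coeff_mul_add_eq_of_natDegree_le le_rfl
    exact natDegree_derivative_le K
  have hd2 : (derivative K).coeff (r - 1) = K.coeff r * (r : ZMod p) := by
    rw [coeff_derivative]
    have h1 : r - 1 + 1 = r := by omega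
    rw [h1]
    congr 1
    rw [← Nat.cast_succ]; congr 1
  have hd3 : (derivative v * K).coeff (s + (r - 1)) = v.coeff s * (s : ZMod p) * K.coeff r := by
    rcases Nat.eq_zero_or_pos s with h0 | h0
    · have hvC : v = C (v.coeff 0) := eq_C_of_natDegree_eq_zero (by rw [← hs, h0])
      have hvd : derivative v = 0 := by rw [hvC, derivative_C]
      rw [hvd, zero_mul, coeff_zero, h0]; simp
    · have h1 : s + (r - 1) = (s - 1) + r := by omega
      rw [h1, coeff_mul_add_eq_of_natDegree_le (natDegree_derivative_le v) le_rfl, coeff_derivative]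
      have h2 : s - 1 + 1 = s := by omega
      rw [h2]
      congr 2
      rw [← Nat.cast_succ]; congr 1
  rw [hv', hd1, hd2] at hd3
  have h3 : (v.coeff s * K.coeff r) * ((r : ZMod p) - (s : ZMod p)) = 0 := by
    linear_combination hd3
  rcases mul_eq_zero.mp h3 with h4 | h4
  · exact mul_ne_zero hlv hlc h4
  · rw [← Nat.cast_sub hsr.le, ZMod.natCast_eq_zero_iff] at h4
    exact absurd (Nat.le_of_dvd (by omega) h4) (by omega)

end KS41.Dir
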