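import Mathlib
import Pool.Agent.KS6_41.Dir.DirGap
import Pool.Agent.KS6_41.Dir.DirCore

set_option autoImplicit false

open Polynomial Finset

namespace KS41.Dir

variable {p : ℕ} [Fact p.Prime]

abbrev Vec (p : ℕ) := Fin 3 → ZMod p

structure Dirs (A D : Finset (Vec p)) : Prop where
  rep : ∀ d ∈ D, ∃ a ∈ A, ∃ b ∈ A, a ≠ b ∧ d = a - b
  cov : ∀ a ∈ A, ∀ b ∈ A, a ≠ b → ∃ d ∈ D, ∃ c : ZMod p, c ≠ 0 ∧ d = c • (a - b)

/-- no plane contains `A` -/
def NonPlanar (A : Finset (Vec p)) : Prop :=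
  ∀ v : Vec p, v ≠ 0 → ¬ ∃ c : ZMod p, ∀ a ∈ A, v ⬝ᵥ a = c

def M (A : Finset (Vec p)) (k : ℕ) (u : Vec p) : ZMod p := ∑ a ∈ A, (u ⬝ᵥ a) ^ k

def mem (u1 u2 : Vec p) : Option (ZMod p) → Vec p
  | none => u1
  | some x => x • u1 + u2

def kill (D : Finset (Vec p)) (u : Vec p) : Finset (Vec p) := D.filter (fun d => u ⬝ᵥ d = 0)

lemma mem_kill {D : Finset (Vec p)} {u d : Vec p} : d ∈ kill D u ↔ d ∈ D ∧ u ⬝ᵥ d = 0 := by
  simp [kill]

lemma injOn_of_kill {A D : Finset (Vec p)} (hD : Dirs A D) {u : Vec p} (h : kill D u = ∅) :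
    Set.InjOn (fun a => u ⬝ᵥ a) A := by
  intro a ha b hb hab
  by_contra hne
  obtain ⟨d, hd, c, hc, rfl⟩ := hD.cov a ha b hb hne
  have : c • (a - b) ∈ kill D u := by
    rw [mem_kill]
    refine ⟨hd, ?_⟩
    rw [dotProduct_smul, dotProduct_sub]
    have hab' : u ⬝ᵥ a = u ⬝ᵥ b := hab
    rw [hab', sub_self, smul_zero]
  rw [h] at this
  simp at this

lemma not_injOn {A D : Finset (Vec p)} (hD : Dirs A D) {u d : Vec p} (hd : d ∈ D) (h : u ⬝ᵥ d = 0) :
    ¬ Set.InjOn (fun a => u ⬝ᵥ a) A := by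
  intro hinj
  obtain ⟨a, ha, b, hb, hab, rfl⟩ := hD.rep d hd
  apply hab
  apply hinj (by exact_mod_cast ha) (by exact_mod_cast hb)
  rw [dotProduct_sub] at h
  exact sub_eq_zero.mp h

lemma M_of_inj {A : Finset (Vec p)} (hA : A.card = p) {u : Vec p}
    (h : Set.InjOn (fun a => u ⬝ᵥ a) A) {k : ℕ} (hk : k < p - 1) : M A k u = 0 := by
  have h1 : A.image (fun a => u ⬝ᵥ a) = Finset.univ := by
    apply Finset.eq_univ_of_card
    rw [Finset.card_image_of_injOn h, hA, ZMod.card]
  have h2 : M A k u = ∑ z ∈ A.image (fun a => u ⬝ᵥ a), z ^ k := by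
    rw [Finset.sum_image h, M]
  rw [h2, h1]
  exact sum_pow_lt k hk

lemma mem_dot (u1 u2 d : Vec p) (x : ZMod p) : mem u1 u2 (some x) ⬝ᵥ d = x * (u1 ⬝ᵥ d) + u2 ⬝ᵥ d := by
  simp [mem, add_dotProduct, smul_dotProduct]

lemma kill_unique {u1 u2 d : Vec p} (h : ¬ (u1 ⬝ᵥ d = 0 ∧ u2 ⬝ᵥ d = 0)) {x y : Option (ZMod p)}
    (hx : mem u1 u2 x ⬝ᵥ d = 0) (hy : mem u1 u2 y ⬝ᵥ d = 0) : x = y := by
  rcases x with _ | x <;> rcases y with _ | y
  · rfl
  · exfalso
    rw [mem_dot] at hy
    have hx' : u1 ⬝ᵥ d = 0 := hx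
    rw [hx', mul_zero, zero_add] at hy
    exact h ⟨hx', hy⟩
  · exfalso
    rw [mem_dot] at hx
    have hy' : u1 ⬝ᵥ d = 0 := hy
    rw [hy', mul_zero, zero_add] at hx
    exact h ⟨hy', hx⟩
  · rw [mem_dot] at hx hy
    by_contra hne
    have hxy : x ≠ y := fun h => hne (by rw [h])
    have h1 : (x - y) * (u1 ⬝ᵥ d) = 0 := by linear_combination hx - hy
    rcases mul_eq_zero.mp h1 with h2 | h2
    · exact hxy (sub_eq_zero.mp h2)
    · rw [h2, mul_zero, zero_add] at hx
      exact h ⟨h2, hx⟩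

lemma exists_killer (u1 u2 d : Vec p) : ∃ x : Option (ZMod p), mem u1 u2 x ⬝ᵥ d = 0 := by
  by_cases h : u1 ⬝ᵥ d = 0
  · exact ⟨none, h⟩
  · refine ⟨some (-(u2 ⬝ᵥ d) / (u1 ⬝ᵥ d)), ?_⟩
    rw [mem_dot]
    field_simp
    ring

lemma pencil_zero (A : Finset (Vec p)) (u1 u2 : Vec p) (k : ℕ) (hk : 1 ≤ k) (x0 : Option (ZMod p))
    (hne : M A k (mem u1 u2 x0) ≠ 0) :
    (Finset.univ.filter (fun x : Option (ZMod p) => M A k (mem u1 u2 x) = 0)).card ≤ k := by
  classical
  set G : (ZMod p)[X] := ∑ a ∈ A, (C (u1 ⬝ᵥ a) * X + C (u2 ⬝ᵥ a)) ^ k with hG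
  have hGdeg : G.natDegree ≤ k := by
    apply natDegree_sum_le_of_forall_le
    intro a _
    apply (natDegree_pow_le).trans
    have : (C (u1 ⬝ᵥ a) * X + C (u2 ⬝ᵥ a) : (ZMod p)[X]).natDegree ≤ 1 := natDegree_linear_le
    calc k * _ ≤ k * 1 := Nat.mul_le_mul_left _ this
      _ = k := mul_one k
  have hGtop : G.coeff k = M A k u1 := by
    rw [hG, finsetSum_coeff, M]
    apply Finset.sum_congr rfl
    intro a _
    have h1 := coeff_pow_of_natDegree_le (p := (C (u1 ⬝ᵥ a) * X + C (u2 ⬝ᵥ a) : (ZMod p)[X]))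
      (m := k) (n := 1) natDegree_linear_le
    rw [mul_one] at h1
    rw [h1]
    simp
  have hGeval : ∀ x, G.eval x = M A k (mem u1 u2 (some x)) := by
    intro x
    rw [hG, eval_finsetSum, M]
    apply Finset.sum_congr rfl
    intro a _
    rw [mem_dot]
    simp only [eval_pow, eval_add, eval_mul, eval_C, eval_X]
    ring
  have hG0 : G ≠ 0 := by
    intro h0
    rcases x0 with _ | x
    · apply hne
      show M A k u1 = 0
      rw [← hGtop, h0, coeff_zero]
    · apply hne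
      rw [← hGeval, h0, eval_zero]
  have hroots : G.roots.toFinset.card ≤ G.natDegree :=
    (Multiset.toFinset_card_le _).trans (card_roots' G)
  by_cases h1 : M A k u1 = 0
  · have hGd : G.natDegree ≤ k - 1 := by
      rw [natDegree_le_iff_coeff_eq_zero]
      intro i hi
      by_cases hik : i = k
      · rw [hik, hGtop, h1]
      · exact coeff_eq_zero_of_natDegree_lt (by omega)
    have hsub : Finset.univ.filter (fun x : Option (ZMod p) => M A k (mem u1 u2 x) = 0) ⊆
        insert none (G.roots.toFinset.image some) := by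
      intro x hx
      rw [Finset.mem_filter] at hx
      rcases x with _ | x
      · exact Finset.mem_insert_self _ _
      · apply Finset.mem_insert_of_mem
        apply Finset.mem_image_of_mem
        rw [Multiset.mem_toFinset, mem_roots hG0]
        show G.eval x = 0
        rw [hGeval]; exact hx.2
    calc _ ≤ (insert none (G.roots.toFinset.image some)).card := Finset.card_le_card hsub
      _ ≤ (G.roots.toFinset.image some).card + 1 := Finset.card_insert_le _ _
      _ ≤ G.roots.toFinset.card + 1 := by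
          have := Finset.card_image_le (s := G.roots.toFinset) (f := (some : ZMod p → Option (ZMod p)))
          omega
      _ ≤ k := by omega
  · have hsub : Finset.univ.filter (fun x : Option (ZMod p) => M A k (mem u1 u2 x) = 0) ⊆
        (G.roots.toFinset.image some) := by
      intro x hx
      rw [Finset.mem_filter] at hx
      rcases x with _ | x
      · exact absurd hx.2 h1
      · apply Finset.mem_image_of_mem
        rw [Multiset.mem_toFinset, mem_roots hG0]
        show G.eval x = 0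
        rw [hGeval]; exact hx.2
    calc _ ≤ (G.roots.toFinset.image some).card := Finset.card_le_card hsub
      _ ≤ G.roots.toFinset.card := Finset.card_image_le
      _ ≤ k := by omega

def Free (D : Finset (Vec p)) (u1 u2 : Vec p) : Prop :=
  (∀ x, mem u1 u2 x ≠ 0) ∧ ∀ d ∈ D, ¬ (u1 ⬝ᵥ d = 0 ∧ u2 ⬝ᵥ d = 0)

lemma D_nonempty {A D : Finset (Vec p)} (hD : Dirs A D) (hA : A.card = p) : D.Nonempty := by
  have hp := (Fact.out : p.Prime).two_le
  obtain ⟨a, ha, b, hb, hab⟩ := Finset.one_lt_card.mp (by omega : 1 < A.card)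
  obtain ⟨d, hd, _⟩ := hD.cov a ha b hb hab
  exact ⟨d, hd⟩

lemma gap_functional {A D : Finset (Vec p)} (hD : Dirs A D) (hA : A.card = p) (hnp : NonPlanar A)
    (h : ℕ) (hh : 1 ≤ h) (hp : p = 2 * h + 1) {u d : Vec p} (hu : u ≠ 0) (hd : d ∈ D)
    (hud : u ⬝ᵥ d = 0) : ∃ k, 1 ≤ k ∧ k ≤ h ∧ M A k u ≠ 0 := by
  by_contra hcon
  push Not at hcon
  rcases gap h hh hp A hA (fun a => u ⬝ᵥ a) (fun k hk1 hk2 => hcon k hk1 hk2) with h1 | h1
  · have hp2 := (Fact.out : p.Prime).two_le
    obtain ⟨a0, ha0⟩ := Finset.card_pos.mp (by omega : 0 < A.card)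
    exact hnp u hu ⟨u ⬝ᵥ a0, fun a ha => h1 a ha a0 ha0⟩
  · exact not_injOn hD hd hud h1

lemma pencil_noninj {A D : Finset (Vec p)} (hD : Dirs A D) (hA : A.card = p) (hnp : NonPlanar A)
    (h : ℕ) (hh : 1 ≤ h) (hp : p = 2 * h + 1) {u1 u2 : Vec p} (hf : Free D u1 u2) :
    h + 2 ≤ (Finset.univ.filter (fun x : Option (ZMod p) => (kill D (mem u1 u2 x)).Nonempty)).card := by
  classical
  obtain ⟨d, hd⟩ := D_nonempty hD hA
  obtain ⟨x0, hx0⟩ := exists_killer u1 u2 d
  obtain ⟨k, hk1, hk2, hk3⟩ := gap_functional hD hA hnp h hh hp (hf.1 x0) hd hx0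
  have h1 := pencil_zero A u1 u2 k hk1 x0 hk3
  have h2 : Finset.univ.filter (fun x : Option (ZMod p) => ¬ (kill D (mem u1 u2 x)).Nonempty) ⊆
      Finset.univ.filter (fun x : Option (ZMod p) => M A k (mem u1 u2 x) = 0) := by
    intro x hx
    rw [Finset.mem_filter] at hx ⊢
    refine ⟨hx.1, ?_⟩
    exact M_of_inj hA (injOn_of_kill hD (Finset.not_nonempty_iff_eq_empty.mp hx.2)) (by omega)
  have h3 := Finset.card_le_card h2
  have h4 := Finset.card_filter_add_card_filter_not (s := (Finset.univ : Finset (Option (ZMod p))))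
    (fun x => (kill D (mem u1 u2 x)).Nonempty)
  rw [Finset.card_univ, Fintype.card_option, ZMod.card] at h4
  omega

lemma exists_free {D : Finset (Vec p)} (hDp : D.card ≤ p) (hD0 : ∀ d ∈ D, d ≠ 0)
    {u0 : Vec p} (hu0 : u0 ≠ 0) : ∃ u', Free D u0 u' := by
  classical
  obtain ⟨i, hi⟩ : ∃ i, u0 i ≠ 0 := by
    by_contra hcon
    push Not at hcon
    exact hu0 (funext hcon)
  set m1 : Vec p := Pi.single (i + 1) 1 with hm1
  set m2 : Vec p := Pi.single (i + 2) 1 with hm2
  have hm1d : ∀ d : Vec p, m1 ⬝ᵥ d = d (i + 1) := by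
    intro d; rw [hm1, single_dotProduct, one_mul]
  have hm2d : ∀ d : Vec p, m2 ⬝ᵥ d = d (i + 2) := by
    intro d; rw [hm2, single_dotProduct, one_mul]
  have hzero : ∀ d : Vec p, u0 ⬝ᵥ d = 0 → m1 ⬝ᵥ d = 0 → m2 ⬝ᵥ d = 0 → d = 0 := by
    intro d h0 h1 h2
    rw [hm1d] at h1
    rw [hm2d] at h2
    have h3 : u0 ⬝ᵥ d = u0 i * d i + u0 (i + 1) * d (i + 1) + u0 (i + 2) * d (i + 2) := by
      rw [dotProduct, Fin.sum_univ_three]
      fin_cases i <;> simp <;> ring
    rw [h1, h2, mul_zero, mul_zero, add_zero, add_zero, h0] at h3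
    have h4 : d i = 0 := by
      rcases mul_eq_zero.mp h3.symm with h5 | h5
      · exact absurd h5 hi
      · exact h5
    funext l
    fin_cases i <;> fin_cases l <;> simp_all
  -- pigeonhole
  obtain ⟨x, hx⟩ : ∃ x : Option (ZMod p), ∀ d ∈ kill D u0, mem m1 m2 x ⬝ᵥ d ≠ 0 := by
    by_contra hcon
    push Not at hcon
    choose f hf1 hf2 using hcon
    have hinj : Function.Injective f := by
      intro x y hxy
      have hd := mem_kill.mp (hf1 x)
      apply kill_unique (u1 := m1) (u2 := m2) (d := f x)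
      · rintro ⟨h1, h2⟩
        exact hD0 _ hd.1 (hzero _ hd.2 h1 h2)
      · exact hf2 x
      · rw [hxy]; exact hf2 y
    have h1 : (Finset.univ.image f).card ≤ (kill D u0).card := by
      apply Finset.card_le_card
      intro v hv
      obtain ⟨x, _, rfl⟩ := Finset.mem_image.mp hv
      exact hf1 x
    rw [Finset.card_image_of_injective _ hinj, Finset.card_univ, Fintype.card_option, ZMod.card] at h1
    have h2 : (kill D u0).card ≤ D.card := Finset.card_filter_le _ _
    omega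
  refine ⟨mem m1 m2 x, ?_, ?_⟩
  · intro y
    have hcomp : (mem m1 m2 x) i = 0 := by
      rcases x with _ | x
      · show m1 i = 0
        rw [hm1]
        fin_cases i <;> simp
      · show (x • m1 + m2) i = 0
        rw [hm1, hm2]
        fin_cases i <;> simp
    have hmne : mem m1 m2 x ≠ 0 := by
      intro h0
      rcases x with _ | x
      · have : m1 (i + 1) = 0 := by
          have h1 : m1 = 0 := h0
          rw [h1]; rfl
        rw [hm1, Pi.single_eq_same] at this
        exact one_ne_zero this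
      · have h1 : (x • m1 + m2) (i + 2) = 0 := by
          have h1 : x • m1 + m2 = 0 := h0
          rw [h1]; rfl
        rw [hm1, hm2] at h1
        fin_cases i <;> simp at h1
    rcases y with _ | y
    · exact hu0
    · intro h0
      have h1 : (y • u0 + mem m1 m2 x) i = 0 := by
        have h1 : y • u0 + mem m1 m2 x = 0 := h0
        rw [h1]; rfl
      rw [Pi.add_apply, hcomp, add_zero, Pi.smul_apply, smul_eq_mul] at h1
      have hy : y = 0 := by
        rcases mul_eq_zero.mp h1 with h2 | h2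
        · exact h2
        · exact absurd h2 hi
      apply hmne
      have h2 : y • u0 + mem m1 m2 x = 0 := h0
      rw [hy, zero_smul, zero_add] at h2
      exact h2
  · rintro d hd ⟨h1, h2⟩
    exact hx d (mem_kill.mpr ⟨hd, h1⟩) h2

end KS41.Dir
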