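import Mathlib
import Pool.Agent.KS6_41.Dir.DirMain1
import Pool.Agent.KS6_41.Dir.DirMain2
import Pool.Agent.KS6_41.Dir.DirRado

set_option autoImplicit false

open Polynomial Finset

namespace KS41.Dir

variable {p : ℕ} [Fact p.Prime]

lemma moments_aux (A : Finset (Vec p)) (hA : A.card = p) (K : ℕ) (hKp : K < p)
    (hM : ∀ k, 1 ≤ k → k ≤ K → ∀ u, M A k u = 0) {τ : Type*} [DecidableEq τ]
    (u : τ → Vec p) (c : τ → ZMod p) (T : Finset τ) :
    ∀ (w : Vec p) (b : ZMod p) (i : ℕ), T.card + i ≤ K →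
      ∑ a ∈ A, (∏ t ∈ T, (u t ⬝ᵥ a + c t)) * (w ⬝ᵥ a + b) ^ i = 0 := by
  have hM0 : ∀ k, k ≤ K → ∀ u, M A k u = 0 := by
    intro k hk u
    rcases Nat.eq_zero_or_pos k with h0 | h0
    · rw [h0, M]
      simp [hA]
    · exact hM k h0 hk u
  induction T using Finset.induction_on with
  | empty =>
    intro w b i hi
    simp only [Finset.prod_empty, one_mul]
    simp_rw [add_pow]
    rw [Finset.sum_comm]
    apply Finset.sum_eq_zero
    intro m hm
    rw [Finset.mem_range] at hm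
    have : ∑ a ∈ A, (w ⬝ᵥ a) ^ m * b ^ (i - m) * (i.choose m : ZMod p) =
        M A m w * (b ^ (i - m) * (i.choose m : ZMod p)) := by
      rw [M, Finset.sum_mul]
      apply Finset.sum_congr rfl
      intro a _; ring
    rw [this, hM0 m (by simp at hi; omega), zero_mul]
  | insert t0 T ht0 ih =>
    intro w b i hi
    rw [Finset.card_insert_of_notMem ht0] at hi
    set P : (ZMod p)[X] := ∑ a ∈ A, C (∏ t ∈ T, (u t ⬝ᵥ a + c t)) *
      (C (w ⬝ᵥ a + b) + C (u t0 ⬝ᵥ a + c t0) * X) ^ (i + 1) with hP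
    have hPdeg : P.natDegree < p := by
      refine lt_of_le_of_lt ?_ (show i + 1 < p by omega)
      apply natDegree_sum_le_of_forall_le
      intro a _
      refine (natDegree_C_mul_le _ _).trans ?_
      refine (natDegree_pow_le).trans ?_
      have : (C (w ⬝ᵥ a + b) + C (u t0 ⬝ᵥ a + c t0) * X : (ZMod p)[X]).natDegree ≤ 1 := by
        rw [add_comm]; exact natDegree_linear_le
      calc (i + 1) * _ ≤ (i + 1) * 1 := Nat.mul_le_mul_left _ this
        _ = i + 1 := mul_one _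
    have hPev : ∀ s : ZMod p, P.eval s = 0 := by
      intro s
      rw [hP, eval_finsetSum]
      have h1 := ih (w + s • u t0) (b + s * c t0) (i + 1) (by omega)
      rw [← h1]
      apply Finset.sum_congr rfl
      intro a _
      simp only [eval_mul, eval_C, eval_pow, eval_add, eval_X, add_dotProduct, smul_dotProduct, smul_eq_mul]
      congr 2
      ring
    have hP0 : P = 0 := by
      apply Polynomial.eq_zero_of_natDegree_lt_card_of_eval_eq_zero P (f := (id : ZMod p → ZMod p))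
        Function.injective_id
      · intro s; exact hPev s
      · rw [ZMod.card]; exact hPdeg
    have hd : (derivative P).eval 0 = 0 := by rw [hP0]; simp
    have hd2 : (derivative P).eval 0 = ((i + 1 : ℕ) : ZMod p) *
        ∑ a ∈ A, (∏ t ∈ insert t0 T, (u t ⬝ᵥ a + c t)) * (w ⬝ᵥ a + b) ^ i := by
      rw [hP, derivative_sum, eval_finsetSum, Finset.mul_sum]
      apply Finset.sum_congr rfl
      intro a _
      rw [Finset.prod_insert ht0]
      generalize (∏ t ∈ T, (u t ⬝ᵥ a + c t)) = Q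
      rw [derivative_mul, derivative_C, zero_mul, zero_add, derivative_pow]
      simp
      ring
    rw [hd2] at hd
    rcases mul_eq_zero.mp hd with h1 | h1
    · exfalso
      rw [ZMod.natCast_eq_zero_iff] at h1
      have := Nat.le_of_dvd (by omega) h1
      omega
    · exact h1

lemma moments (A : Finset (Vec p)) (hA : A.card = p) (K : ℕ) (hKp : K < p)
    (hM : ∀ k, 1 ≤ k → k ≤ K → ∀ u, M A k u = 0) {τ : Type*} [DecidableEq τ]
    (u : τ → Vec p) (c : τ → ZMod p) (T : Finset τ) (hT : T.card ≤ K) :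
    ∑ a ∈ A, (∏ t ∈ T, (u t ⬝ᵥ a + c t)) = 0 := by
  have := moments_aux A hA K hKp hM u c T 0 0 0 (by omega)
  simpa using this

lemma plane_bound (A : Finset (Vec p)) (hA : A.card = p) (K : ℕ) (hKp : K < p)
    (hM : ∀ k, 1 ≤ k → k ≤ K → ∀ u, M A k u = 0) (hnp : NonPlanar A) (φ : Vec p) (hφ : φ ≠ 0)
    (c : ZMod p) : K + 1 ≤ (A.filter (fun a => φ ⬝ᵥ a ≠ c)).card := by
  classical
  by_contra hcon
  push Not at hcon
  set B := A.filter (fun a => φ ⬝ᵥ a ≠ c) with hB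
  obtain ⟨b0, hb0⟩ : ∃ b0, b0 ∈ B := by
    by_contra hne
    push Not at hne
    apply hnp φ hφ
    refine ⟨c, ?_⟩
    intro a ha
    by_contra hac
    exact hne a (by rw [hB, Finset.mem_filter]; exact ⟨ha, hac⟩)
  have hb0' := hb0
  rw [hB, Finset.mem_filter] at hb0'
  have hcoord : ∀ b : Vec p, b ≠ b0 → ∃ i, b i ≠ b0 i := by
    intro b hb
    by_contra hne
    push Not at hne
    exact hb (funext hne)
  have hex : ∀ b : Vec p, ∃ i : Fin 3, b ≠ b0 → b i ≠ b0 i := by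
    intro b
    by_cases hb : b = b0
    · exact ⟨0, fun h => absurd hb h⟩
    · obtain ⟨i, hi⟩ := hcoord b hb
      exact ⟨i, fun _ => hi⟩
  choose ix hix using hex
  have hm := moments A hA K hKp hM (fun b : Vec p => if b = b0 then φ else Pi.single (ix b) 1)
    (fun b : Vec p => if b = b0 then -c else - b (ix b)) B (by omega)
  rw [Finset.sum_eq_single b0] at hm
  · rw [Finset.prod_eq_zero_iff] at hm
    obtain ⟨b, hb, hb2⟩ := hm
    by_cases hbb : b = b0
    · rw [if_pos hbb, if_pos hbb] at hb2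
      apply hb0'.2
      linear_combination hb2
    · rw [if_neg hbb, if_neg hbb, single_dotProduct, one_mul] at hb2
      apply hix b hbb
      linear_combination -hb2
  · intro a ha hab
    by_cases haB : a ∈ B
    · apply Finset.prod_eq_zero haB
      rw [if_neg hab, if_neg hab, single_dotProduct, one_mul]
      ring
    · apply Finset.prod_eq_zero hb0
      rw [if_pos rfl, if_pos rfl]
      have : φ ⬝ᵥ a = c := by
        by_contra hne
        exact haB (by rw [hB, Finset.mem_filter]; exact ⟨ha, hne⟩)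
      rw [this]; ring
  · intro hb; exact absurd hb0'.1 hb

noncomputable def Ln (A : Finset (Vec p)) (a v : Vec p) : Finset (Vec p) := by
  classical
  exact A.filter (fun b => ∃ t : ZMod p, b = a + t • v)

lemma mem_Ln {A : Finset (Vec p)} {a v b : Vec p} : b ∈ Ln A a v ↔ b ∈ A ∧ ∃ t : ZMod p, b = a + t • v := by
  classical
  rw [Ln, Finset.mem_filter]

lemma Ln_sub {A : Finset (Vec p)} {a v a' v' b c : Vec p} (hbc : b ≠ c) (hb : b ∈ Ln A a v)
    (hc : c ∈ Ln A a v) (hb' : b ∈ Ln A a' v') (hc' : c ∈ Ln A a' v') : Ln A a v ⊆ Ln A a' v' := by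
  rw [mem_Ln] at hb hc hb' hc'
  obtain ⟨_, t, ht⟩ := hb
  obtain ⟨_, s, hs⟩ := hc
  obtain ⟨_, t', ht'⟩ := hb'
  obtain ⟨_, s', hs'⟩ := hc'
  intro x hx
  rw [mem_Ln] at hx ⊢
  obtain ⟨hxA, r, hr⟩ := hx
  refine ⟨hxA, t' + (r - t) / (s - t) * (s' - t'), ?_⟩
  have hst : s - t ≠ 0 := by
    intro h0
    apply hbc
    rw [ht, hs, sub_eq_zero.mp h0]
  funext l
  have e1 := congrFun ht l
  have e2 := congrFun hs l
  have e3 := congrFun ht' l
  have e4 := congrFun hs' l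
  have e5 := congrFun hr l
  simp only [Pi.add_apply, Pi.smul_apply, smul_eq_mul] at *
  have e6 : (s - t) * v l = (s' - t') * v' l := by linear_combination e1 - e2 - e3 + e4
  field_simp
  linear_combination (s - t) * e5 + (r - t) * e6 - (s - t) * e1 + (s - t) * e3

lemma self_mem_Ln {A : Finset (Vec p)} {a v : Vec p} (ha : a ∈ A) : a ∈ Ln A a v := by
  rw [mem_Ln]; exact ⟨ha, 0, by simp⟩

lemma exists_orth2 (v w : Vec p) : ∃ φ : Vec p, φ ≠ 0 ∧ φ ⬝ᵥ v = 0 ∧ φ ⬝ᵥ w = 0 := by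
  set N : Matrix (Fin 2) (Fin 3) (ZMod p) := ![v, w] with hN
  have h1 : LinearMap.ker N.mulVecLin ≠ ⊥ := by
    apply LinearMap.ker_ne_bot_of_finrank_lt
    simp
  obtain ⟨φ, hφ1, hφ2⟩ := Submodule.exists_mem_ne_zero_of_ne_bot h1
  rw [LinearMap.mem_ker, Matrix.mulVecLin_apply] at hφ1
  refine ⟨φ, hφ2, ?_, ?_⟩
  · have := congrFun hφ1 0
    rw [dotProduct_comm]
    exact this
  · have := congrFun hφ1 1
    rw [dotProduct_comm]
    exact this

lemma line_bound {A D : Finset (Vec p)} (hD : Dirs A D) (hnp : NonPlanar A)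
    {a v : Vec p} : 2 * (Ln A a v).card ≤ D.card := by
  classical
  obtain ⟨φ0, hφ0, hφ0v, _⟩ := exists_orth2 v v
  obtain ⟨a', ha', ha'2⟩ : ∃ a' ∈ A, φ0 ⬝ᵥ a' ≠ φ0 ⬝ᵥ a := by
    by_contra hne
    push Not at hne
    exact hnp φ0 hφ0 ⟨φ0 ⬝ᵥ a, hne⟩
  obtain ⟨φ, hφ, hφv, hφa⟩ := exists_orth2 v (a' - a)
  obtain ⟨a'', ha'', ha''2⟩ : ∃ a'' ∈ A, φ ⬝ᵥ a'' ≠ φ ⬝ᵥ a := by
    by_contra hne
    push Not at hne
    exact hnp φ hφ ⟨φ ⬝ᵥ a, hne⟩
  have k0 : ∀ b ∈ Ln A a v, φ0 ⬝ᵥ b = φ0 ⬝ᵥ a := by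
    intro b hb
    rw [mem_Ln] at hb
    obtain ⟨_, t, rfl⟩ := hb
    rw [dotProduct_add, dotProduct_smul, hφ0v, smul_zero, add_zero]
  have k1 : ∀ b ∈ Ln A a v, φ ⬝ᵥ b = φ ⬝ᵥ a := by
    intro b hb
    rw [mem_Ln] at hb
    obtain ⟨_, t, rfl⟩ := hb
    rw [dotProduct_add, dotProduct_smul, hφv, smul_zero, add_zero]
  have hex1 : ∀ b ∈ Ln A a v, ∃ d ∈ D, ∃ c : ZMod p, c ≠ 0 ∧ d = c • (a' - b) := by
    intro b hb
    apply hD.cov a' ha' b (mem_Ln.mp hb).1
    intro h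
    apply ha'2
    rw [h]; exact k0 b hb
  have hex2 : ∀ b ∈ Ln A a v, ∃ d ∈ D, ∃ c : ZMod p, c ≠ 0 ∧ d = c • (a'' - b) := by
    intro b hb
    apply hD.cov a'' ha'' b (mem_Ln.mp hb).1
    intro h
    apply ha''2
    rw [h]; exact k1 b hb
  choose! d hd cd hcd hd2 using hex1
  choose! e he ce hce he2 using hex2
  have hdinj : Set.InjOn d (Ln A a v) := by
    intro b hb b' hb' hbb
    rw [hd2 b hb, hd2 b' hb'] at hbb
    have h1 : φ0 ⬝ᵥ (cd b • (a' - b)) = φ0 ⬝ᵥ (cd b' • (a' - b')) := by rw [hbb]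
    rw [dotProduct_smul, dotProduct_smul, dotProduct_sub, dotProduct_sub, k0 b hb, k0 b' hb',
      smul_eq_mul, smul_eq_mul] at h1
    have h2 : φ0 ⬝ᵥ a' - φ0 ⬝ᵥ a ≠ 0 := sub_ne_zero.mpr ha'2
    have h3 : cd b = cd b' := mul_right_cancel₀ h2 h1
    rw [← h3] at hbb
    have h4 := smul_right_injective (Vec p) (hcd b hb) hbb
    simpa using h4
  have heinj : Set.InjOn e (Ln A a v) := by
    intro b hb b' hb' hbb
    rw [he2 b hb, he2 b' hb'] at hbb
    have h1 : φ ⬝ᵥ (ce b • (a'' - b)) = φ ⬝ᵥ (ce b' • (a'' - b')) := by rw [hbb]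
    rw [dotProduct_smul, dotProduct_smul, dotProduct_sub, dotProduct_sub, k1 b hb, k1 b' hb',
      smul_eq_mul, smul_eq_mul] at h1
    have h2 : φ ⬝ᵥ a'' - φ ⬝ᵥ a ≠ 0 := sub_ne_zero.mpr ha''2
    have h3 : ce b = ce b' := mul_right_cancel₀ h2 h1
    rw [← h3] at hbb
    have h4 := smul_right_injective (Vec p) (hce b hb) hbb
    simpa using h4
  have hdisj : Disjoint ((Ln A a v).image d) ((Ln A a v).image e) := by
    rw [Finset.disjoint_left]
    intro x hx hx'
    obtain ⟨b, hb, rfl⟩ := Finset.mem_image.mp hx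
    obtain ⟨b', hb', hbb⟩ := Finset.mem_image.mp hx'
    rw [hd2 b hb, he2 b' hb'] at hbb
    have h1 : φ ⬝ᵥ (ce b' • (a'' - b')) = φ ⬝ᵥ (cd b • (a' - b)) := by rw [hbb]
    rw [dotProduct_smul, dotProduct_smul, dotProduct_sub, dotProduct_sub, k1 b hb, k1 b' hb',
      smul_eq_mul, smul_eq_mul] at h1
    rw [dotProduct_sub] at hφa
    rw [hφa, mul_zero] at h1
    rcases mul_eq_zero.mp h1 with h2 | h2
    · exact hce b' hb' h2
    · exact ha''2 (sub_eq_zero.mp h2)
  have hsub : (Ln A a v).image d ∪ (Ln A a v).image e ⊆ D := by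
    intro x hx
    rw [Finset.mem_union] at hx
    rcases hx with hx | hx
    · obtain ⟨b, hb, rfl⟩ := Finset.mem_image.mp hx
      exact hd b hb
    · obtain ⟨b, hb, rfl⟩ := Finset.mem_image.mp hx
      exact he b hb
  have hc := Finset.card_le_card hsub
  rw [Finset.card_union_of_disjoint hdisj, Finset.card_image_of_injOn hdinj,
    Finset.card_image_of_injOn heinj] at hc
  omega

lemma exists_a0 {A D : Finset (Vec p)} (hD : Dirs A D) (hA : A.card = p) (hnp : NonPlanar A)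
    (hDp : D.card ≤ p) (h : ℕ) (hh : 1 ≤ h) (hp : p = 2 * h + 1) (K : ℕ) (hK : p - 1 ≤ 3 * K) :
    ∃ a0 ∈ A, ∀ v, v ≠ 0 → (Ln A a0 v).card ≤ K + 1 := by
  classical
  by_contra hcon
  push Not at hcon
  choose! V hV0 hV using hcon
  obtain ⟨a1, ha1⟩ := Finset.card_pos.mp (by omega : 0 < A.card)
  set L1 := Ln A a1 (V a1) with hL1
  have b1 : 2 * L1.card ≤ D.card := line_bound hD hnp
  obtain ⟨a2, ha2, ha2'⟩ : ∃ a2 ∈ A, a2 ∉ L1 := by
    by_contra hne
    push Not at hne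
    have := Finset.card_le_card (show A ⊆ L1 from hne)
    omega
  set L2 := Ln A a2 (V a2) with hL2
  have b2 : 2 * L2.card ≤ D.card := line_bound hD hnp
  obtain ⟨a3, ha3, ha3'⟩ : ∃ a3 ∈ A, a3 ∉ L1 ∪ L2 := by
    by_contra hne
    push Not at hne
    have h1 := Finset.card_le_card (show A ⊆ L1 ∪ L2 from hne)
    have h2 := Finset.card_union_le L1 L2
    omega
  rw [Finset.mem_union, not_or] at ha3'
  set L3 := Ln A a3 (V a3) with hL3
  have c1 : K + 2 ≤ L1.card := hV a1 ha1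
  have c2 : K + 2 ≤ L2.card := hV a2 ha2
  have c3 : K + 2 ≤ L3.card := hV a3 ha3
  have hint : ∀ x y : Vec p, x ∈ A → x ∉ Ln A y (V y) → (Ln A x (V x) ∩ Ln A y (V y)).card ≤ 1 := by
    intro x y hx hxy
    by_contra hne
    push Not at hne
    obtain ⟨b, hb, c, hc, hbc⟩ := Finset.one_lt_card.mp hne
    rw [Finset.mem_inter] at hb hc
    exact hxy (Ln_sub hbc hb.1 hc.1 hb.2 hc.2 (self_mem_Ln hx))
  have i21 : (L2 ∩ L1).card ≤ 1 := hint a2 a1 ha2 ha2'
  have i31 : (L3 ∩ L1).card ≤ 1 := hint a3 a1 ha3 ha3'.1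
  have i32 : (L3 ∩ L2).card ≤ 1 := hint a3 a2 ha3 ha3'.2
  have u1 := Finset.card_union_add_card_inter L2 L1
  have u2 := Finset.card_union_add_card_inter L3 (L2 ∪ L1)
  have u3 : (L3 ∩ (L2 ∪ L1)).card ≤ (L3 ∩ L2).card + (L3 ∩ L1).card := by
    rw [Finset.inter_union_distrib_left]
    exact Finset.card_union_le _ _
  have hsub : ∀ x y : Vec p, Ln A x y ⊆ A := by
    intro x y z hz
    exact (mem_Ln.mp hz).1
  have u4 : (L3 ∪ (L2 ∪ L1)).card ≤ A.card := by
    apply Finset.card_le_card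
    exact Finset.union_subset (hsub _ _) (Finset.union_subset (hsub _ _) (hsub _ _))
  omega

end KS41.Dir
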