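import Mathlib
import Pool.Agent.KS6_41.Dir.DirMain1
import Pool.Agent.KS6_41.Dir.DirMain2
import Pool.Agent.KS6_41.Dir.DirMain3
import Pool.Agent.KS6_41.Dir.DirRado

set_option autoImplicit false

open Polynomial Finset

namespace KS41.Dir

variable {p : ℕ} [Fact p.Prime]

lemma functional_dot (f : Vec p →ₗ[ZMod p] ZMod p) : ∃ φ : Vec p, ∀ x, f x = φ ⬝ᵥ x := by
  refine ⟨fun i => f (fun j => if i = j then 1 else 0), ?_⟩
  intro x
  rw [LinearMap.pi_apply_eq_sum_univ f x, dotProduct]
  apply Finset.sum_congr rfl
  intro i _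
  rw [smul_eq_mul, mul_comm]

lemma exists_ones {ι : Type*} (v : ι → Vec p) (hv : LinearIndependent (ZMod p) v) :
    ∃ φ : Vec p, ∀ i, φ ⬝ᵥ v i = 1 := by
  classical
  obtain ⟨g, hg⟩ := LinearMap.exists_leftInverse_of_injective (Finsupp.linearCombination (ZMod p) v)
    (LinearMap.ker_eq_bot.mpr hv)
  obtain ⟨φ, hφ⟩ := functional_dot ((Finsupp.linearCombination (ZMod p) (fun _ : ι => (1 : ZMod p))) ∘ₗ g)
  refine ⟨φ, ?_⟩
  intro i
  rw [← hφ, LinearMap.comp_apply]
  have h1 : v i = Finsupp.linearCombination (ZMod p) v (Finsupp.single i 1) := by simp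
  rw [h1]
  have h2 := LinearMap.congr_fun hg (Finsupp.single i 1)
  rw [LinearMap.comp_apply, LinearMap.id_apply] at h2
  rw [h2]
  simp

theorem main {A D : Finset (Vec p)} (hD : Dirs A D) (hA : A.card = p) (hnp : NonPlanar A)
    (hDp : D.card ≤ p) (hD0 : ∀ d ∈ D, d ≠ 0) : False := by
  classical
  rcases (Fact.out : p.Prime).eq_two_or_odd with hp2 | hodd
  · have hA2 : A.card = 2 := by omega
    obtain ⟨a, b, hab, hAab⟩ := Finset.card_eq_two.mp hA2
    obtain ⟨φ, hφ, hφ1, _⟩ := exists_orth2 (a - b) (a - b)
    rw [dotProduct_sub] at hφ1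
    apply hnp φ hφ
    refine ⟨φ ⬝ᵥ b, ?_⟩
    intro x hx
    rw [hAab, Finset.mem_insert, Finset.mem_singleton] at hx
    rcases hx with rfl | rfl
    · exact sub_eq_zero.mp hφ1
    · rfl
  · have hp2 := (Fact.out : p.Prime).two_le
    obtain ⟨h, hp⟩ : ∃ h, p = 2 * h + 1 := ⟨p / 2, by omega⟩
    have hh : 1 ≤ h := by omega
    obtain ⟨K, hKh, hK3, hM⟩ := low_moments hD hA hnp hDp hD0 h hh hp
    obtain ⟨a0, ha0, hline⟩ := exists_a0 hD hA hnp hDp h hh hp K hK3
    have hSc : (A.erase a0).card + 1 = A.card := Finset.card_erase_add_one ha0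
    obtain ⟨c, hc1, hc2⟩ := cover (F := ZMod p) (fun a : Vec p => a - a0) K (A.erase a0) (by
      intro J hJ
      set W := Submodule.span (ZMod p) ((fun a : Vec p => a - a0) '' (J : Set (Vec p))) with hW
      have hmemW : ∀ a ∈ J, a - a0 ∈ W := by
        intro a ha
        apply Submodule.subset_span
        exact ⟨a, by exact_mod_cast ha, rfl⟩
      have hWle : Module.finrank (ZMod p) W ≤ 3 := by
        have := Submodule.finrank_le W
        simpa using this
      have hJA : ∀ a ∈ J, a ∈ A ∧ a ≠ a0 := by
        intro a ha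
        have := hJ ha
        rw [Finset.mem_erase] at this
        exact ⟨this.2, this.1⟩
      have ha0J : a0 ∉ J := fun h0 => (hJA a0 h0).2 rfl
      rcases (by omega : Module.finrank (ZMod p) W = 0 ∨ Module.finrank (ZMod p) W = 1 ∨
        Module.finrank (ZMod p) W = 2 ∨ Module.finrank (ZMod p) W = 3) with hr | hr | hr | hr
      · rw [hr, mul_zero, Nat.le_zero, Finset.card_eq_zero, Finset.eq_empty_iff_forall_notMem]
        intro a ha
        have h1 : W = ⊥ := Submodule.finrank_eq_zero.mp hr
        have h2 := hmemW a ha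
        rw [h1, Submodule.mem_bot] at h2
        exact (hJA a ha).2 (sub_eq_zero.mp h2)
      · rw [hr, mul_one]
        obtain ⟨v, hv0, hv⟩ := finrank_eq_one_iff'.mp hr
        have hsub : insert a0 J ⊆ Ln A a0 (v : Vec p) := by
          intro a ha
          rw [Finset.mem_insert] at ha
          rcases ha with rfl | ha
          · exact self_mem_Ln ha0
          · rw [mem_Ln]
            refine ⟨(hJA a ha).1, ?_⟩
            obtain ⟨t, ht⟩ := hv ⟨a - a0, hmemW a ha⟩
            refine ⟨t, ?_⟩
            have h3 := congrArg Subtype.val ht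
            simp only [Submodule.coe_smul] at h3
            rw [h3]; abel
        have h4 := Finset.card_le_card hsub
        rw [Finset.card_insert_of_notMem ha0J] at h4
        have h5 := hline (v : Vec p) (by
          intro h6; apply hv0; exact Subtype.ext h6)
        omega
      · rw [hr]
        have hlt : W < ⊤ := by
          rw [lt_top_iff_ne_top]
          intro htop
          have h7 : Module.finrank (ZMod p) W = 3 := by
            rw [htop, finrank_top]; simp
          omega
        obtain ⟨f, hf0, hf⟩ := Submodule.exists_le_ker_of_lt_top W hlt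
        obtain ⟨φ, hφ⟩ := functional_dot f
        have hφ0 : φ ≠ 0 := by
          intro h0
          apply hf0
          ext x
          simp [hφ, h0]
        have hpl := plane_bound A hA K (by omega) hM hnp φ hφ0 (φ ⬝ᵥ a0)
        obtain ⟨F2, hF2, hF2c⟩ : ∃ F2 : Finset (Vec p), (∀ a, a ∈ F2 ↔ a ∈ A ∧ φ ⬝ᵥ a ≠ φ ⬝ᵥ a0) ∧
            K + 1 ≤ F2.card := ⟨_, fun a => Finset.mem_filter, hpl⟩
        have hdis : Disjoint (insert a0 J) F2 := by
          rw [Finset.disjoint_left]
          intro a ha haF
          rw [hF2] at haF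
          rw [Finset.mem_insert] at ha
          rcases ha with rfl | ha
          · exact haF.2 rfl
          · have h8 : f (a - a0) = 0 := hf (hmemW a ha)
            rw [hφ, dotProduct_sub] at h8
            exact haF.2 (sub_eq_zero.mp h8)
        have hsub : insert a0 J ∪ F2 ⊆ A := by
          intro a ha
          rw [Finset.mem_union, Finset.mem_insert] at ha
          rcases ha with (rfl | ha) | ha
          · exact ha0
          · exact (hJA a ha).1
          · exact ((hF2 a).mp ha).1
        have h4 := Finset.card_le_card hsub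
        rw [Finset.card_union_of_disjoint hdis, Finset.card_insert_of_notMem ha0J] at h4
        omega
      · rw [hr]
        have := Finset.card_le_card hJ
        omega)
    have hex : ∀ κ : Fin K, ∃ φ : Vec p, ∀ e : ((A.erase a0).filter (fun e => κ ∈ c e)),
        φ ⬝ᵥ ((e : Vec p) - a0) = 1 := fun κ => exists_ones _ (hc2 κ)
    choose φ hφ using hex
    have hm := moments A hA K (by omega) hM (fun κ : Fin K => - φ κ) (fun κ => 1 + φ κ ⬝ᵥ a0)
      Finset.univ (by simp)
    rw [Finset.sum_eq_single a0] at hm
    · rw [Finset.prod_eq_one] at hm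
      · exact one_ne_zero hm
      · intro κ _
        rw [neg_dotProduct]; ring
    · intro a ha haa
      have haS : a ∈ A.erase a0 := Finset.mem_erase.mpr ⟨haa, ha⟩
      obtain ⟨κ, hκ⟩ := Finset.card_pos.mp (by rw [hc1 a haS]; omega : 0 < (c a).card)
      apply Finset.prod_eq_zero (Finset.mem_univ κ)
      have h1 := hφ κ ⟨a, by rw [Finset.mem_filter]; exact ⟨haS, hκ⟩⟩
      rw [dotProduct_sub] at h1
      simp only at h1
      rw [neg_dotProduct]
      linear_combination -h1
    · intro h0; exact absurd ha0 h0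

end KS41.Dir
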