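import Pool.Agent.KS6_41.Dir.Core3

/-!
Coverings by planes that avoid a point, and lines and planes meeting a `p`-set with few directions.
-/

set_option autoImplicit false

open Polynomial Finset

namespace KS41.Dir

variable {p : ℕ} [Fact p.Prime]

/-- the directions from a point off a line to the points of the line -/
lemma fam {A D : Finset (Vec p)} (hD : Dirs A D) {a v x : Vec p} (hx : x ∈ A)
    (hxL : x ∉ Ln A a v) :
    ∃ E ⊆ D, E.card = (Ln A a v).card ∧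
      ∀ e ∈ E, ∃ b ∈ Ln A a v, ∃ c : ZMod p, c ≠ 0 ∧ e = c • (x - b) := by
  classical
  have hex : ∀ b ∈ Ln A a v, ∃ d ∈ D, ∃ c : ZMod p, c ≠ 0 ∧ d = c • (x - b) := by
    intro b hb
    apply hD.cov x hx b (mem_Ln.mp hb).1
    rintro rfl
    exact hxL hb
  choose! d hd c hc hdc using hex
  refine ⟨(Ln A a v).image d, ?_, ?_, ?_⟩
  · intro y hy
    obtain ⟨b, hb, rfl⟩ := Finset.mem_image.mp hy
    exact hd b hb
  · apply Finset.card_image_of_injOn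
    intro b hb b' hb' hbb
    have hbb : d b = d b' := hbb
    rw [hdc b hb, hdc b' hb'] at hbb
    by_cases hcc : c b = c b'
    · rw [hcc] at hbb
      have h1 := smul_right_injective (Vec p) (hc b' hb') hbb
      have h2 : x - b = x - b' := h1
      exact sub_right_injective h2
    · exfalso
      apply hxL
      obtain ⟨_, s, hs⟩ := mem_Ln.mp hb
      obtain ⟨_, s', hs'⟩ := mem_Ln.mp hb'
      rw [mem_Ln]
      have hne : c b - c b' ≠ 0 := sub_ne_zero.mpr hcc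
      refine ⟨hx, (c b * s - c b' * s') / (c b - c b'), ?_⟩
      funext l
      have e1 := congrFun hbb l
      have e2 := congrFun hs l
      have e3 := congrFun hs' l
      simp only [Pi.add_apply, Pi.smul_apply, Pi.sub_apply, smul_eq_mul] at *
      field_simp
      linear_combination e1 + c b * e2 - c b' * e3
  · intro e he
    obtain ⟨b, hb, rfl⟩ := Finset.mem_image.mp he
    exact ⟨b, hb, c b, hc b hb, hdc b hb⟩

/-- the directions from a point off a line to the points of the line, as an injective map -/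
lemma fam_map {A D : Finset (Vec p)} (hD : Dirs A D) {a v x : Vec p} (hx : x ∈ A)
    (hxL : x ∉ Ln A a v) :
    ∃ d : Vec p → Vec p, (∀ b ∈ Ln A a v, d b ∈ D ∧ ∃ c : ZMod p, c ≠ 0 ∧ d b = c • (x - b)) ∧
      ∀ b ∈ Ln A a v, ∀ b' ∈ Ln A a v, d b = d b' → b = b' := by
  classical
  have hex : ∀ b ∈ Ln A a v, ∃ d ∈ D, ∃ c : ZMod p, c ≠ 0 ∧ d = c • (x - b) := by
    intro b hb
    apply hD.cov x hx b (mem_Ln.mp hb).1
    rintro rfl
    exact hxL hb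
  choose! d hd c hc hdc using hex
  refine ⟨d, fun b hb => ⟨hd b hb, c b, hc b hb, hdc b hb⟩, ?_⟩
  intro b hb b' hb' hbb
  rw [hdc b hb, hdc b' hb'] at hbb
  by_cases hcc : c b = c b'
  · rw [hcc] at hbb
    have h1 := smul_right_injective (Vec p) (hc b' hb') hbb
    have h2 : x - b = x - b' := h1
    exact sub_right_injective h2
  · exfalso
    apply hxL
    obtain ⟨_, s, hs⟩ := mem_Ln.mp hb
    obtain ⟨_, s', hs'⟩ := mem_Ln.mp hb'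
    rw [mem_Ln]
    have hne : c b - c b' ≠ 0 := sub_ne_zero.mpr hcc
    refine ⟨hx, (c b * s - c b' * s') / (c b - c b'), ?_⟩
    funext l
    have e1 := congrFun hbb l
    have e2 := congrFun hs l
    have e3 := congrFun hs' l
    simp only [Pi.add_apply, Pi.smul_apply, Pi.sub_apply, smul_eq_mul] at *
    field_simp
    linear_combination e1 + c b * e2 - c b' * e3

lemma dot_Ln {A : Finset (Vec p)} {a v b φ : Vec p} (hφ : φ ⬝ᵥ v = 0) (hb : b ∈ Ln A a v) :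
    φ ⬝ᵥ b = φ ⬝ᵥ a := by
  obtain ⟨_, t, rfl⟩ := mem_Ln.mp hb
  rw [dotProduct_add, dotProduct_smul, hφ, smul_zero, add_zero]


/-- four planes through a rich line give many directions -/
lemma four_planes {A D : Finset (Vec p)} (hD : Dirs A D) {a v x1 x2 x3 x4 φ ψ χ : Vec p}
    (h2 : 2 ≤ (Ln A a v).card) (hx1 : x1 ∈ A) (hx2 : x2 ∈ A) (hx3 : x3 ∈ A) (hx4 : x4 ∈ A)
    (h1L : x1 ∉ Ln A a v) (hφv : φ ⬝ᵥ v = 0) (hφ1 : φ ⬝ᵥ x1 = φ ⬝ᵥ a) (hφ2 : φ ⬝ᵥ x2 ≠ φ ⬝ᵥ a)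
    (hφ3 : φ ⬝ᵥ x3 ≠ φ ⬝ᵥ a) (hφ4 : φ ⬝ᵥ x4 ≠ φ ⬝ᵥ a) (hψv : ψ ⬝ᵥ v = 0) (hψ2 : ψ ⬝ᵥ x2 = ψ ⬝ᵥ a)
    (hψ3 : ψ ⬝ᵥ x3 ≠ ψ ⬝ᵥ a) (hψ4 : ψ ⬝ᵥ x4 ≠ ψ ⬝ᵥ a) (hχv : χ ⬝ᵥ v = 0) (hχ3 : χ ⬝ᵥ x3 = χ ⬝ᵥ a)
    (hχ4 : χ ⬝ᵥ x4 ≠ χ ⬝ᵥ a) : 1 + 4 * (Ln A a v).card ≤ D.card := by
  classical
  have h2L : x2 ∉ Ln A a v := fun h => hφ2 (dot_Ln hφv h)
  have h3L : x3 ∉ Ln A a v := fun h => hφ3 (dot_Ln hφv h)
  have h4L : x4 ∉ Ln A a v := fun h => hφ4 (dot_Ln hφv h)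
  obtain ⟨E1, hE1, c1, k1⟩ := fam hD hx1 h1L
  obtain ⟨E2, hE2, c2, k2⟩ := fam hD hx2 h2L
  obtain ⟨E3, hE3, c3, k3⟩ := fam hD hx3 h3L
  obtain ⟨E4, hE4, c4, k4⟩ := fam hD hx4 h4L
  obtain ⟨b, hb, b', hb', hbb⟩ := Finset.one_lt_card.mp (by omega : 1 < (Ln A a v).card)
  obtain ⟨d0, hd0, c, hc, hdc⟩ := hD.cov b (mem_Ln.mp hb).1 b' (mem_Ln.mp hb').1 hbb
  have hd0v : ∃ k : ZMod p, d0 = k • v := by
    obtain ⟨_, s, hs⟩ := mem_Ln.mp hb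
    obtain ⟨_, s', hs'⟩ := mem_Ln.mp hb'
    refine ⟨c * (s - s'), ?_⟩
    rw [hdc, hs, hs']
    funext l
    simp only [Pi.add_apply, Pi.smul_apply, Pi.sub_apply, smul_eq_mul]
    ring
  obtain ⟨k, hk⟩ := hd0v
  -- values of the functionals
  have val : ∀ (E : Finset (Vec p)) (x θ : Vec p), θ ⬝ᵥ v = 0 →
      (∀ e ∈ E, ∃ b ∈ Ln A a v, ∃ c : ZMod p, c ≠ 0 ∧ e = c • (x - b)) →
      ∀ e ∈ E, ∃ c : ZMod p, c ≠ 0 ∧ θ ⬝ᵥ e = c * (θ ⬝ᵥ x - θ ⬝ᵥ a) := by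
    intro E x θ hθ hE e he
    obtain ⟨b, hb, c, hc, rfl⟩ := hE e he
    exact ⟨c, hc, by rw [dotProduct_smul, dotProduct_sub, dot_Ln hθ hb, smul_eq_mul]⟩
  have zero : ∀ (E : Finset (Vec p)) (x θ : Vec p), θ ⬝ᵥ v = 0 → θ ⬝ᵥ x = θ ⬝ᵥ a →
      (∀ e ∈ E, ∃ b ∈ Ln A a v, ∃ c : ZMod p, c ≠ 0 ∧ e = c • (x - b)) →
      ∀ e ∈ E, θ ⬝ᵥ e = 0 := by
    intro E x θ hθ hx hE e he
    obtain ⟨c, _, h⟩ := val E x θ hθ hE e he
    rw [h, hx, sub_self, mul_zero]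
  have nonzero : ∀ (E : Finset (Vec p)) (x θ : Vec p), θ ⬝ᵥ v = 0 → θ ⬝ᵥ x ≠ θ ⬝ᵥ a →
      (∀ e ∈ E, ∃ b ∈ Ln A a v, ∃ c : ZMod p, c ≠ 0 ∧ e = c • (x - b)) →
      ∀ e ∈ E, θ ⬝ᵥ e ≠ 0 := by
    intro E x θ hθ hx hE e he
    obtain ⟨c, hc, h⟩ := val E x θ hθ hE e he
    rw [h]
    exact mul_ne_zero hc (sub_ne_zero.mpr hx)
  have hφd : φ ⬝ᵥ d0 = 0 := by rw [hk, dotProduct_smul, hφv, smul_zero]
  have n1 : d0 ∉ E1 := by
    intro h
    obtain ⟨b, hb, c, hc, he⟩ := k1 d0 h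
    apply h1L
    obtain ⟨_, s, hs⟩ := mem_Ln.mp hb
    rw [mem_Ln]
    refine ⟨hx1, s + k / c, ?_⟩
    rw [hk] at he
    funext l
    have e1 := congrFun he l
    have e2 := congrFun hs l
    simp only [Pi.add_apply, Pi.smul_apply, Pi.sub_apply, smul_eq_mul] at *
    field_simp
    linear_combination c * e2 - e1
  have n2 : d0 ∉ E2 := fun h => nonzero E2 x2 φ hφv hφ2 k2 _ h hφd
  have n3 : d0 ∉ E3 := fun h => nonzero E3 x3 φ hφv hφ3 k3 _ h hφd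
  have n4 : d0 ∉ E4 := fun h => nonzero E4 x4 φ hφv hφ4 k4 _ h hφd
  have z1 := zero E1 x1 φ hφv hφ1 k1
  have z2 := zero E2 x2 ψ hψv hψ2 k2
  have z3 := zero E3 x3 χ hχv hχ3 k3
  have d12 : Disjoint E1 E2 :=
    Finset.disjoint_left.mpr fun e h h' => nonzero E2 x2 φ hφv hφ2 k2 e h' (z1 e h)
  have d13 : Disjoint E1 E3 :=
    Finset.disjoint_left.mpr fun e h h' => nonzero E3 x3 φ hφv hφ3 k3 e h' (z1 e h)
  have d14 : Disjoint E1 E4 :=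
    Finset.disjoint_left.mpr fun e h h' => nonzero E4 x4 φ hφv hφ4 k4 e h' (z1 e h)
  have d23 : Disjoint E2 E3 :=
    Finset.disjoint_left.mpr fun e h h' => nonzero E3 x3 ψ hψv hψ3 k3 e h' (z2 e h)
  have d24 : Disjoint E2 E4 :=
    Finset.disjoint_left.mpr fun e h h' => nonzero E4 x4 ψ hψv hψ4 k4 e h' (z2 e h)
  have d34 : Disjoint E3 E4 :=
    Finset.disjoint_left.mpr fun e h h' => nonzero E4 x4 χ hχv hχ4 k4 e h' (z3 e h)
  have hc1 : (E1 ∪ (E2 ∪ (E3 ∪ E4))).card = 4 * (Ln A a v).card := by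
    rw [Finset.card_union_of_disjoint (Finset.disjoint_union_right.mpr
        ⟨d12, Finset.disjoint_union_right.mpr ⟨d13, d14⟩⟩),
      Finset.card_union_of_disjoint (Finset.disjoint_union_right.mpr ⟨d23, d24⟩),
      Finset.card_union_of_disjoint d34, c1, c2, c3, c4]
    ring
  have hn : d0 ∉ E1 ∪ (E2 ∪ (E3 ∪ E4)) := by
    simp only [Finset.mem_union, not_or]
    exact ⟨n1, n2, n3, n4⟩
  have hsub : insert d0 (E1 ∪ (E2 ∪ (E3 ∪ E4))) ⊆ D := by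
    intro x hx
    simp only [Finset.mem_insert, Finset.mem_union] at hx
    rcases hx with rfl | hx | hx | hx | hx
    · exact hd0
    · exact hE1 hx
    · exact hE2 hx
    · exact hE3 hx
    · exact hE4 hx
  have := Finset.card_le_card hsub
  rw [Finset.card_insert_of_notMem hn, hc1] at this
  omega

/-- covering by planes avoiding a point -/
lemma cov_planes (a0 : Vec p) (S : Finset (Vec p)) (k : ℕ) (ha0 : a0 ∉ S)
    (h1 : ∀ v : Vec p, v ≠ 0 → ∀ J ⊆ S, (∀ x ∈ J, ∃ t : ZMod p, x = a0 + t • v) → J.card ≤ k)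
    (h2 : ∀ φ : Vec p, φ ≠ 0 → ∀ J ⊆ S, (∀ x ∈ J, φ ⬝ᵥ x = φ ⬝ᵥ a0) → J.card ≤ 2 * k)
    (h3 : S.card ≤ 3 * k) :
    ∃ φ : Fin k → Vec p, ∀ x ∈ S, ∃ κ, φ κ ⬝ᵥ (x - a0) = 1 := by
  classical
  obtain ⟨c, hc1, hc2⟩ := cover (F := ZMod p) (fun a : Vec p => a - a0) k S (by
    intro J hJ
    set W := Submodule.span (ZMod p) ((fun a : Vec p => a - a0) '' (J : Set (Vec p))) with hW
    have hmemW : ∀ a ∈ J, a - a0 ∈ W := by
      intro a ha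
      apply Submodule.subset_span
      exact ⟨a, by exact_mod_cast ha, rfl⟩
    have hWle : Module.finrank (ZMod p) W ≤ 3 := by
      have := Submodule.finrank_le W
      simpa using this
    have ha0J : a0 ∉ J := fun h0 => ha0 (hJ h0)
    rcases (by omega : Module.finrank (ZMod p) W = 0 ∨ Module.finrank (ZMod p) W = 1 ∨
      Module.finrank (ZMod p) W = 2 ∨ Module.finrank (ZMod p) W = 3) with hr | hr | hr | hr
    · rw [hr, mul_zero, Nat.le_zero, Finset.card_eq_zero, Finset.eq_empty_iff_forall_notMem]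
      intro a ha
      have h1 : W = ⊥ := Submodule.finrank_eq_zero.mp hr
      have h2 := hmemW a ha
      rw [h1, Submodule.mem_bot] at h2
      rw [sub_eq_zero] at h2
      rw [h2] at ha
      exact ha0J ha
    · rw [hr, mul_one]
      obtain ⟨v, hv0, hv⟩ := finrank_eq_one_iff'.mp hr
      apply h1 (v : Vec p) (by intro h6; apply hv0; exact Subtype.ext h6) J hJ
      intro x hx
      obtain ⟨t, ht⟩ := hv ⟨x - a0, hmemW x hx⟩
      refine ⟨t, ?_⟩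
      have h3 := congrArg Subtype.val ht
      simp only [Submodule.coe_smul] at h3
      rw [h3]; abel
    · rw [hr]
      have hlt : W < ⊤ := by
        rw [lt_top_iff_ne_top]
        intro htop
        have h7 : Module.finrank (ZMod p) W = 3 := by
          rw [htop, finrank_top]; simp
        omega
      obtain ⟨f, hf0, hf⟩ := Submodule.exists_le_ker_of_lt_top W hlt
      obtain ⟨φ, hφ⟩ := functional_dot f
      have hφ0 : φ ≠ 0 := by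
        intro h0
        apply hf0
        ext x
        simp [hφ, h0]
      have := h2 φ hφ0 J hJ (by
        intro x hx
        have h8 : f (x - a0) = 0 := hf (hmemW x hx)
        rw [hφ, dotProduct_sub] at h8
        exact sub_eq_zero.mp h8)
      omega
    · rw [hr]
      have := Finset.card_le_card hJ
      omega)
  have hex : ∀ κ : Fin k, ∃ φ : Vec p, ∀ e : (S.filter (fun e => κ ∈ c e)),
      φ ⬝ᵥ ((e : Vec p) - a0) = 1 := fun κ => exists_ones _ (hc2 κ)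
  choose φ hφ using hex
  refine ⟨φ, ?_⟩
  intro x hx
  obtain ⟨κ, hκ⟩ := Finset.card_pos.mp (by rw [hc1 x hx]; omega : 0 < (c x).card)
  exact ⟨κ, hφ κ ⟨x, by rw [Finset.mem_filter]; exact ⟨hx, hκ⟩⟩⟩


/-- `S` is covered by at most `k` planes that avoid `a0` -/
def Cv (a0 : Vec p) (k : ℕ) (S : Finset (Vec p)) : Prop :=
  ∃ P : Finset (Vec p × ZMod p), P.card ≤ k ∧ (∀ q ∈ P, q.1 ⬝ᵥ a0 ≠ q.2) ∧
    ∀ x ∈ S, ∃ q ∈ P, q.1 ⬝ᵥ x = q.2

lemma Cv.mono {a0 : Vec p} {k k' : ℕ} {S S' : Finset (Vec p)} (h : Cv a0 k S) (hk : k ≤ k')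
    (hS : S' ⊆ S) : Cv a0 k' S' := by
  obtain ⟨P, h1, h2, h3⟩ := h
  exact ⟨P, h1.trans hk, h2, fun x hx => h3 x (hS hx)⟩

lemma Cv.union [DecidableEq (Vec p)] {a0 : Vec p} {k k' : ℕ} {S S' : Finset (Vec p)}
    (h : Cv a0 k S) (h' : Cv a0 k' S') : Cv a0 (k + k') (S ∪ S') := by
  classical
  obtain ⟨P, h1, h2, h3⟩ := h
  obtain ⟨P', h1', h2', h3'⟩ := h'
  refine ⟨P ∪ P', (Finset.card_union_le _ _).trans (by omega), ?_, ?_⟩
  · intro q hq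
    rcases Finset.mem_union.mp hq with hq | hq
    · exact h2 q hq
    · exact h2' q hq
  · intro x hx
    rcases Finset.mem_union.mp hx with hx | hx
    · obtain ⟨q, hq, hqx⟩ := h3 x hx
      exact ⟨q, Finset.mem_union_left _ hq, hqx⟩
    · obtain ⟨q, hq, hqx⟩ := h3' x hx
      exact ⟨q, Finset.mem_union_right _ hq, hqx⟩

lemma Cv.plane {a0 : Vec p} {S : Finset (Vec p)} (φ : Vec p) (c : ZMod p) (h0 : φ ⬝ᵥ a0 ≠ c)
    (h : ∀ x ∈ S, φ ⬝ᵥ x = c) : Cv a0 1 S := by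
  classical
  refine ⟨{(φ, c)}, by simp, ?_, ?_⟩
  · intro q hq
    rw [Finset.mem_singleton] at hq
    rw [hq]; exact h0
  · intro x hx
    exact ⟨(φ, c), Finset.mem_singleton_self _, h x hx⟩

lemma Cv.points {a0 : Vec p} {S : Finset (Vec p)} (h0 : a0 ∉ S) : Cv a0 S.card S := by
  classical
  have hex : ∀ x ∈ S, ∃ i, x i ≠ a0 i := by
    intro x hx
    by_contra hne
    push Not at hne
    exact h0 (by rw [← funext hne]; exact hx)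
  choose! i hi using hex
  refine ⟨S.image (fun x => (Pi.single (i x) 1, x (i x))), Finset.card_image_le, ?_, ?_⟩
  · intro q hq
    obtain ⟨x, hx, rfl⟩ := Finset.mem_image.mp hq
    show Pi.single (i x) 1 ⬝ᵥ a0 ≠ x (i x)
    rw [single_dotProduct, one_mul]
    exact (hi x hx).symm
  · intro x hx
    refine ⟨(Pi.single (i x) 1, x (i x)), Finset.mem_image_of_mem _ hx, ?_⟩
    show Pi.single (i x) 1 ⬝ᵥ x = x (i x)
    rw [single_dotProduct, one_mul]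

lemma Cv.rado (a0 : Vec p) (S : Finset (Vec p)) (k : ℕ) (ha0 : a0 ∉ S)
    (h1 : ∀ v : Vec p, v ≠ 0 → ∀ J ⊆ S, (∀ x ∈ J, ∃ t : ZMod p, x = a0 + t • v) → J.card ≤ k)
    (h2 : ∀ φ : Vec p, φ ≠ 0 → ∀ J ⊆ S, (∀ x ∈ J, φ ⬝ᵥ x = φ ⬝ᵥ a0) → J.card ≤ 2 * k)
    (h3 : S.card ≤ 3 * k) : Cv a0 k S := by
  classical
  obtain ⟨φ, hφ⟩ := cov_planes a0 S k ha0 h1 h2 h3
  refine ⟨Finset.univ.image (fun κ => (φ κ, φ κ ⬝ᵥ a0 + 1)),
    Finset.card_image_le.trans (by simp), ?_, ?_⟩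
  · intro q hq
    obtain ⟨κ, _, rfl⟩ := Finset.mem_image.mp hq
    show φ κ ⬝ᵥ a0 ≠ φ κ ⬝ᵥ a0 + 1
    intro h
    exact one_ne_zero (left_eq_add.mp h)
  · intro x hx
    obtain ⟨κ, hκ⟩ := hφ x hx
    refine ⟨(φ κ, φ κ ⬝ᵥ a0 + 1), Finset.mem_image_of_mem _ (Finset.mem_univ κ), ?_⟩
    show φ κ ⬝ᵥ x = φ κ ⬝ᵥ a0 + 1
    rw [dotProduct_sub] at hκ
    linear_combination hκ

/-- the vanishing of the moments forbids coverings of `A \ {a0}` -/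
lemma Cv.false {A : Finset (Vec p)} (hA : A.card = p) (K : ℕ) (hKp : K < p)
    (hM : ∀ k, 1 ≤ k → k ≤ K → ∀ u, M A k u = 0) {a0 : Vec p} (ha0 : a0 ∈ A)
    (h : Cv a0 K (A.erase a0)) : False := by
  classical
  obtain ⟨P, h1, h2, h3⟩ := h
  have hm := moments A hA K hKp hM (fun q : Vec p × ZMod p => q.1) (fun q => - q.2) P h1
  rw [Finset.sum_eq_single a0] at hm
  · rw [Finset.prod_eq_zero_iff] at hm
    obtain ⟨q, hq, hq2⟩ := hm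
    exact h2 q hq (by linear_combination hq2)
  · intro a ha haa
    obtain ⟨q, hq, hq2⟩ := h3 a (Finset.mem_erase.mpr ⟨haa, ha⟩)
    exact Finset.prod_eq_zero hq (by rw [hq2]; ring)
  · intro h0; exact absurd ha0 h0

/-- at least `K` points are off two planes which do not cover `A` -/
lemma two_off {A : Finset (Vec p)} (hA : A.card = p) (K : ℕ) (hKp : K < p)
    (hM : ∀ k, 1 ≤ k → k ≤ K → ∀ u, M A k u = 0) {a0 : Vec p} (ha0 : a0 ∈ A)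
    {φ ψ : Vec p} {c c' : ZMod p} (h1 : φ ⬝ᵥ a0 ≠ c) (h2 : ψ ⬝ᵥ a0 ≠ c') :
    K ≤ (A.filter (fun x => φ ⬝ᵥ x ≠ c ∧ ψ ⬝ᵥ x ≠ c')).card := by
  classical
  by_contra hcon
  push Not at hcon
  set F := A.filter (fun x => φ ⬝ᵥ x ≠ c ∧ ψ ⬝ᵥ x ≠ c') with hF
  have ha0F : a0 ∈ F := Finset.mem_filter.mpr ⟨ha0, h1, h2⟩
  have hc : (F.erase a0).card + 1 = F.card := Finset.card_erase_add_one ha0F
  have k1 : Cv a0 1 (A.filter (fun x => φ ⬝ᵥ x = c)) :=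
    Cv.plane φ c h1 (fun x hx => (Finset.mem_filter.mp hx).2)
  have k2 : Cv a0 1 (A.filter (fun x => ψ ⬝ᵥ x = c')) :=
    Cv.plane ψ c' h2 (fun x hx => (Finset.mem_filter.mp hx).2)
  have k3 : Cv a0 (F.erase a0).card (F.erase a0) := Cv.points (Finset.notMem_erase _ _)
  apply Cv.false hA K hKp hM ha0
  apply ((k1.union k2).union k3).mono (by omega)
  intro x hx
  rw [Finset.mem_erase] at hx
  by_cases hx1 : φ ⬝ᵥ x = c
  · exact Finset.mem_union_left _ (Finset.mem_union_left _ (Finset.mem_filter.mpr ⟨hx.2, hx1⟩))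
  · by_cases hx2 : ψ ⬝ᵥ x = c'
    · exact Finset.mem_union_left _ (Finset.mem_union_right _ (Finset.mem_filter.mpr ⟨hx.2, hx2⟩))
    · exact Finset.mem_union_right _ (Finset.mem_erase.mpr
        ⟨hx.1, Finset.mem_filter.mpr ⟨hx.2, hx1, hx2⟩⟩)

/-- a functional killing three independent vectors vanishes -/
lemma eq_zero_of_kill {v w2 w3 θ2 θ3 χ : Vec p} (hv : v ≠ 0) (h2v : θ2 ⬝ᵥ v = 0)
    (h22 : θ2 ⬝ᵥ w2 ≠ 0) (h3v : θ3 ⬝ᵥ v = 0) (h32 : θ3 ⬝ᵥ w2 = 0) (h33 : θ3 ⬝ᵥ w3 ≠ 0)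
    (k1 : χ ⬝ᵥ v = 0) (k2 : χ ⬝ᵥ w2 = 0) (k3 : χ ⬝ᵥ w3 = 0) : χ = 0 := by
  have hli : LinearIndependent (ZMod p) ![v, w2, w3] := by
    rw [Fintype.linearIndependent_iff]
    intro g hg
    rw [Fin.sum_univ_three] at hg
    simp only [Matrix.cons_val_zero, Matrix.cons_val_one, Matrix.cons_val] at hg
    have e3 : θ3 ⬝ᵥ (g 0 • v + g 1 • w2 + g 2 • w3) = 0 := by rw [hg, dotProduct_zero]
    rw [dotProduct_add, dotProduct_add, dotProduct_smul, dotProduct_smul, dotProduct_smul, h3v, h32,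
      smul_zero, smul_zero, zero_add, zero_add, smul_eq_mul] at e3
    have g2 : g 2 = 0 := (mul_eq_zero.mp e3).resolve_right h33
    rw [g2, zero_smul, add_zero] at hg
    have e2 : θ2 ⬝ᵥ (g 0 • v + g 1 • w2) = 0 := by rw [hg, dotProduct_zero]
    rw [dotProduct_add, dotProduct_smul, dotProduct_smul, h2v, smul_zero, zero_add, smul_eq_mul] at e2
    have g1 : g 1 = 0 := (mul_eq_zero.mp e2).resolve_right h22
    rw [g1, zero_smul, add_zero] at hg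
    have g0 : g 0 = 0 := (smul_eq_zero.mp hg).resolve_right hv
    intro i
    fin_cases i
    · exact g0
    · exact g1
    · exact g2
  have hspan : Submodule.span (ZMod p) (Set.range ![v, w2, w3]) = ⊤ := by
    apply LinearIndependent.span_eq_top_of_card_eq_finrank hli
    simp
  have hall : ∀ x : Vec p, χ ⬝ᵥ x = 0 := by
    intro x
    have hx : x ∈ Submodule.span (ZMod p) (Set.range ![v, w2, w3]) := by rw [hspan]; trivial
    induction hx using Submodule.span_induction with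
    | mem x h =>
      obtain ⟨i, rfl⟩ := h
      fin_cases i
      · exact k1
      · exact k2
      · exact k3
    | zero => exact dotProduct_zero _
    | add x y _ _ h1 h2 => rw [dotProduct_add, h1, h2, add_zero]
    | smul c x _ h1 => rw [dotProduct_smul, h1, smul_zero]
  funext i
  have := hall (Pi.single i 1)
  rw [dotProduct_single, mul_one] at this
  exact this

/-- a rich line lies in two planes that cover `A` -/
lemma rich_line {A D : Finset (Vec p)} (hD : Dirs A D) (hA : A.card = p) (hnp : NonPlanar A)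
    (K : ℕ) (hDK : D.card ≤ 4 * K + 4) (hK1 : 1 ≤ K) (hKp : K < p) (hpK : p ≤ 4 * K)
    (hM : ∀ k, 1 ≤ k → k ≤ K → ∀ u, M A k u = 0) {a v : Vec p} (hL : K + 1 ≤ (Ln A a v).card) :
    ∃ φ ψ : Vec p, φ ≠ 0 ∧ ψ ≠ 0 ∧ φ ⬝ᵥ v = 0 ∧ ψ ⬝ᵥ v = 0 ∧
      ∀ x ∈ A, φ ⬝ᵥ x = φ ⬝ᵥ a ∨ ψ ⬝ᵥ x = ψ ⬝ᵥ a := by
  classical
  obtain ⟨φ0, hφ0, hφ0v, _⟩ := exists_orth2 v v
  obtain ⟨x1, hx1, hx1'⟩ : ∃ x ∈ A, φ0 ⬝ᵥ x ≠ φ0 ⬝ᵥ a := by
    by_contra hne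
    push Not at hne
    exact hnp φ0 hφ0 ⟨φ0 ⬝ᵥ a, hne⟩
  obtain ⟨φ, hφ, hφv, hφa⟩ := exists_orth2 v (x1 - a)
  obtain ⟨x2, hx2, hx2'⟩ : ∃ x ∈ A, φ ⬝ᵥ x ≠ φ ⬝ᵥ a := by
    by_contra hne
    push Not at hne
    exact hnp φ hφ ⟨φ ⬝ᵥ a, hne⟩
  obtain ⟨ψ, hψ, hψv, hψa⟩ := exists_orth2 v (x2 - a)
  rw [dotProduct_sub, sub_eq_zero] at hφa hψa
  have h1L : x1 ∉ Ln A a v := fun h => hx1' (dot_Ln hφ0v h)
  refine ⟨φ, ψ, hφ, hψ, hφv, hψv, ?_⟩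
  by_contra h3
  push Not at h3
  obtain ⟨x3, hx3, hx3φ, hx3ψ⟩ := h3
  obtain ⟨χ, hχ, hχv, hχa⟩ := exists_orth2 v (x3 - a)
  rw [dotProduct_sub, sub_eq_zero] at hχa
  by_cases h4 : ∃ x4 ∈ A, φ ⬝ᵥ x4 ≠ φ ⬝ᵥ a ∧ ψ ⬝ᵥ x4 ≠ ψ ⬝ᵥ a ∧ χ ⬝ᵥ x4 ≠ χ ⬝ᵥ a
  · obtain ⟨x4, hx4, q1, q2, q3⟩ := h4
    have := four_planes hD (by omega) hx1 hx2 hx3 hx4 h1L hφv hφa hx2' hx3φ q1 hψv hψa hx3ψ q2
      hχv hχa q3
    omega
  · push Not at h4
    have hv0 : v ≠ 0 := by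
      rintro rfl
      obtain ⟨b, hb, b', hb', hbb⟩ := Finset.one_lt_card.mp (by omega : 1 < (Ln A a 0).card)
      obtain ⟨_, s, hs⟩ := mem_Ln.mp hb
      obtain ⟨_, s', hs'⟩ := mem_Ln.mp hb'
      apply hbb
      rw [hs, hs', smul_zero, smul_zero]
    have sub : ∀ θ x : Vec p, θ ⬝ᵥ x ≠ θ ⬝ᵥ a → θ ⬝ᵥ (x - a) ≠ 0 := by
      intro θ x h
      rw [dotProduct_sub]; exact sub_ne_zero.mpr h
    have sub0 : ∀ θ x : Vec p, θ ⬝ᵥ x = θ ⬝ᵥ a → θ ⬝ᵥ (x - a) = 0 := by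
      intro θ x h
      rw [dotProduct_sub, h, sub_self]
    have n1 : ψ ⬝ᵥ x1 ≠ ψ ⬝ᵥ a := fun h => hψ (eq_zero_of_kill (w2 := x1 - a) (w3 := x2 - a) hv0 hφ0v
      (sub _ _ hx1') hφv (sub0 _ _ hφa) (sub _ _ hx2') hψv (sub0 _ _ h) (sub0 _ _ hψa))
    have n2 : χ ⬝ᵥ x1 ≠ χ ⬝ᵥ a := fun h => hχ (eq_zero_of_kill (w2 := x1 - a) (w3 := x3 - a) hv0 hφ0v
      (sub _ _ hx1') hφv (sub0 _ _ hφa) (sub _ _ hx3φ) hχv (sub0 _ _ h) (sub0 _ _ hχa))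
    have n3 : χ ⬝ᵥ x2 ≠ χ ⬝ᵥ a := fun h => hχ (eq_zero_of_kill (w2 := x2 - a) (w3 := x3 - a) hv0 hφv
      (sub _ _ hx2') hψv (sub0 _ _ hψa) (sub _ _ hx3ψ) hχv (sub0 _ _ h) (sub0 _ _ hχa))
    have b1 := two_off hA K hKp hM hx1 n1 n2
    have b2 := two_off hA K hKp hM hx2 hx2' n3
    have b3 := two_off hA K hKp hM hx3 hx3φ hx3ψ
    set F1 := A.filter (fun x => ψ ⬝ᵥ x ≠ ψ ⬝ᵥ a ∧ χ ⬝ᵥ x ≠ χ ⬝ᵥ a) with hF1
    set F2 := A.filter (fun x => φ ⬝ᵥ x ≠ φ ⬝ᵥ a ∧ χ ⬝ᵥ x ≠ χ ⬝ᵥ a) with hF2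
    set F3 := A.filter (fun x => φ ⬝ᵥ x ≠ φ ⬝ᵥ a ∧ ψ ⬝ᵥ x ≠ ψ ⬝ᵥ a) with hF3
    have m1 : ∀ {x}, x ∈ F1 ↔ x ∈ A ∧ ψ ⬝ᵥ x ≠ ψ ⬝ᵥ a ∧ χ ⬝ᵥ x ≠ χ ⬝ᵥ a := by
      intro x; rw [hF1, Finset.mem_filter]
    have m2 : ∀ {x}, x ∈ F2 ↔ x ∈ A ∧ φ ⬝ᵥ x ≠ φ ⬝ᵥ a ∧ χ ⬝ᵥ x ≠ χ ⬝ᵥ a := by
      intro x; rw [hF2, Finset.mem_filter]
    have m3 : ∀ {x}, x ∈ F3 ↔ x ∈ A ∧ φ ⬝ᵥ x ≠ φ ⬝ᵥ a ∧ ψ ⬝ᵥ x ≠ ψ ⬝ᵥ a := by
      intro x; rw [hF3, Finset.mem_filter]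
    have d12 : Disjoint F1 F2 := by
      rw [Finset.disjoint_left]
      intro x h h'
      exact (m1.mp h).2.2 (h4 x (m1.mp h).1 (m2.mp h').2.1 (m1.mp h).2.1)
    have d13 : Disjoint F1 F3 := by
      rw [Finset.disjoint_left]
      intro x h h'
      exact (m1.mp h).2.2 (h4 x (m1.mp h).1 (m3.mp h').2.1 (m1.mp h).2.1)
    have d23 : Disjoint F2 F3 := by
      rw [Finset.disjoint_left]
      intro x h h'
      exact (m2.mp h).2.2 (h4 x (m2.mp h).1 (m3.mp h').2.1 (m3.mp h').2.2)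
    have l1 : Disjoint F1 (Ln A a v) := by
      rw [Finset.disjoint_left]
      intro x h h'
      exact (m1.mp h).2.1 (dot_Ln hψv h')
    have l2 : Disjoint F2 (Ln A a v) := by
      rw [Finset.disjoint_left]
      intro x h h'
      exact (m2.mp h).2.1 (dot_Ln hφv h')
    have l3 : Disjoint F3 (Ln A a v) := by
      rw [Finset.disjoint_left]
      intro x h h'
      exact (m3.mp h).2.1 (dot_Ln hφv h')
    have hsub : F1 ∪ (F2 ∪ (F3 ∪ Ln A a v)) ⊆ A := by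
      intro x hx
      simp only [Finset.mem_union] at hx
      rcases hx with hx | hx | hx | hx
      · exact (m1.mp hx).1
      · exact (m2.mp hx).1
      · exact (m3.mp hx).1
      · exact (mem_Ln.mp hx).1
    have h5 := Finset.card_le_card hsub
    rw [Finset.card_union_of_disjoint (Finset.disjoint_union_right.mpr
        ⟨d12, Finset.disjoint_union_right.mpr ⟨d13, l1⟩⟩),
      Finset.card_union_of_disjoint (Finset.disjoint_union_right.mpr ⟨d23, l2⟩),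
      Finset.card_union_of_disjoint l3, hA] at h5
    omega

end KS41.Dir
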