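import Mathlib

/-!
A planar direction lemma: a set of at least `2 t` points with at most `t` bad slopes is injectively
or constantly projected along every slope (after Rédei and Szőnyi).
-/

set_option autoImplicit false

open Polynomial Finset

namespace KS41.Dir

variable {p : ℕ} [Fact p.Prime]

/-- total degree at most `N` -/
def TD (N : ℕ) (P : (ZMod p)[X][X]) : Prop := ∀ i, P.coeff i = 0 ∨ (P.coeff i).natDegree + i ≤ N

lemma TD.sub {N : ℕ} {P Q : (ZMod p)[X][X]} (hP : TD N P) (hQ : TD N Q) : TD N (P - Q) := by
  intro i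
  rw [coeff_sub]
  by_cases h0 : P.coeff i - Q.coeff i = 0
  · exact Or.inl h0
  · right
    rcases hP i with h1 | h1
    · rcases hQ i with h2 | h2
      · exact absurd (by rw [h1, h2, sub_zero]) h0
      · rw [h1, zero_sub, natDegree_neg]; exact h2
    · rcases hQ i with h2 | h2
      · rw [h2, sub_zero]; exact h1
      · have := natDegree_sub_le (P.coeff i) (Q.coeff i)
        omega

lemma TD.mul {N M : ℕ} {P Q : (ZMod p)[X][X]} (hP : TD N P) (hQ : TD M Q) : TD (N + M) (P * Q) := by
  intro i
  rw [coeff_mul]
  by_cases hi : i ≤ N + M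
  · right
    have : (∑ x ∈ Finset.HasAntidiagonal.antidiagonal i, P.coeff x.1 * Q.coeff x.2).natDegree ≤ N + M - i := by
      apply natDegree_sum_le_of_forall_le
      intro x hx
      rw [Finset.HasAntidiagonal.mem_antidiagonal] at hx
      rcases hP x.1 with h1 | h1
      · rw [h1, zero_mul, natDegree_zero]; omega
      · rcases hQ x.2 with h2 | h2
        · rw [h2, mul_zero, natDegree_zero]; omega
        · refine natDegree_mul_le.trans ?_
          omega
    omega
  · left
    apply Finset.sum_eq_zero
    intro x hx
    rw [Finset.HasAntidiagonal.mem_antidiagonal] at hx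
    rcases hP x.1 with h1 | h1
    · rw [h1, zero_mul]
    · rcases hQ x.2 with h2 | h2
      · rw [h2, mul_zero]
      · omega

lemma TD.mono {N M : ℕ} {P : (ZMod p)[X][X]} (hP : TD N P) (h : N ≤ M) : TD M P := by
  intro i
  rcases hP i with h1 | h1
  · exact Or.inl h1
  · right; omega

lemma TD_C_mul_X_pow {N n : ℕ} {a : (ZMod p)[X]} (h : a.natDegree + n ≤ N) :
    TD N (C a * X ^ n : (ZMod p)[X][X]) := by
  intro i
  rw [coeff_C_mul_X_pow]
  split_ifs with hi
  · right; rw [hi]; exact h
  · exact Or.inl rfl

lemma TD_X_pow (n : ℕ) : TD n ((X : (ZMod p)[X][X]) ^ n) := by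
  have := TD_C_mul_X_pow (p := p) (N := n) (n := n) (a := 1) (by simp)
  simpa using this

lemma TD_linear (a b : ZMod p) : TD 1 (X - C (C a + C b * X) : (ZMod p)[X][X]) := by
  intro i
  rcases i with _ | _ | i
  · right
    simp only [coeff_sub, coeff_X_zero, coeff_C_zero, zero_sub, natDegree_neg, add_zero]
    refine (natDegree_add_le _ _).trans (max_le (by simp) ?_)
    exact (natDegree_C_mul_le _ _).trans natDegree_X_le
  · right
    simp [coeff_sub, coeff_X_one, coeff_C]
  · left
    rw [coeff_sub, coeff_X, coeff_C]
    simp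

lemma TD_prod {ι : Type*} (U : Finset ι) (x y : ι → ZMod p) :
    TD U.card (∏ u ∈ U, (X - C (C (y u) + C (x u) * X) : (ZMod p)[X][X])) := by
  classical
  induction U using Finset.induction_on with
  | empty =>
    rw [Finset.prod_empty, Finset.card_empty]
    have := TD_X_pow (p := p) 0
    simpa using this
  | insert a s ha ih =>
    rw [Finset.prod_insert ha, Finset.card_insert_of_notMem ha, Nat.add_comm]
    exact (TD_linear _ _).mul ih

/-- division with control of the total degree -/
lemma div_TD {N k : ℕ} (R : (ZMod p)[X][X]) (hR : R.Monic) (hRd : R.natDegree = k) (hRT : TD k R) :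
    ∀ (n : ℕ) (P : (ZMod p)[X][X]), (∀ i, k + n ≤ i → P.coeff i = 0) → TD N P →
      ∃ Q S : (ZMod p)[X][X], P = R * Q + S ∧ TD N S ∧ ∀ i, k ≤ i → S.coeff i = 0 := by
  intro n
  induction n with
  | zero =>
    intro P hP hT
    exact ⟨0, P, by ring, hT, fun i hi => hP i (by omega)⟩
  | succ n ih =>
    intro P hP hT
    set a := P.coeff (k + n) with ha
    have hterm : TD N (R * (C a * X ^ n)) := by
      rcases hT (k + n) with h0 | h0
      · rw [ha, h0, C_0, zero_mul, mul_zero]
        intro i; left; rw [coeff_zero]
      · rw [← ha] at h0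
        have h1 : TD (N - k) (C a * X ^ n : (ZMod p)[X][X]) := TD_C_mul_X_pow (by omega)
        exact (hRT.mul h1).mono (by omega)
    obtain ⟨Q, S, h1, h2, h3⟩ := ih (P - R * (C a * X ^ n)) (by
      intro i hi
      rw [coeff_sub]
      by_cases hik : i = k + n
      · have e1 : (R * (C a * X ^ n)).coeff (k + n) = a := by
          rw [coeff_mul_add_eq_of_natDegree_le hRd.le (natDegree_C_mul_X_pow_le a n)]
          have : R.coeff k = 1 := by rw [← hRd]; exact hR
          rw [this, one_mul, coeff_C_mul_X_pow, if_pos rfl]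
        rw [hik, e1, ← ha, sub_self]
      · rw [hP i (by omega), zero_sub, neg_eq_zero]
        apply coeff_eq_zero_of_natDegree_lt
        refine lt_of_le_of_lt natDegree_mul_le ?_
        have := natDegree_C_mul_X_pow_le a n
        omega) (hT.sub hterm)
    refine ⟨Q + C a * X ^ n, S, ?_, h2, h3⟩
    linear_combination h1

theorem planar_lemma {ι : Type*} [DecidableEq ι] (U : Finset ι) (x y : ι → ZMod p)
    (T : Finset (ZMod p)) (t : ℕ) (ht : 1 ≤ t) (hT : T.card ≤ t) (hk : 2 * t ≤ U.card)
    (htp : t < p) (hgood : ∀ m, m ∉ T → Set.InjOn (fun u => y u + m * x u) U) (m0 : ZMod p) :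
    Set.InjOn (fun u => y u + m0 * x u) U ∨
      ∀ u ∈ U, ∀ u' ∈ U, y u + m0 * x u = y u' + m0 * x u' := by
  classical
  set k := U.card with hkdef
  set R : (ZMod p)[X][X] := ∏ u ∈ U, (X - C (C (y u) + C (x u) * X)) with hR
  have hRmon : R.Monic := monic_prod_of_monic _ _ (fun u _ => monic_X_sub_C _)
  have hRd : R.natDegree = k := by
    rw [hR, natDegree_prod_of_monic _ _ (fun u _ => monic_X_sub_C _),
      Finset.sum_congr rfl (fun u _ => natDegree_X_sub_C _), Finset.sum_const, smul_eq_mul, mul_one]
  obtain ⟨Q, S, hQS, hST, hSk⟩ := div_TD R hRmon hRd (TD_prod U x y) (p + 1) (X ^ p) (by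
    intro i hi
    rw [coeff_X_pow, if_neg (by omega)]) (TD_X_pow p)
  -- specialisation
  have hRm : ∀ m : ZMod p, R.map (evalRingHom m) = ∏ u ∈ U, (X - C (y u + m * x u)) := by
    intro m
    rw [hR, Polynomial.map_prod]
    apply Finset.prod_congr rfl
    intro u _
    rw [Polynomial.map_sub, map_X, map_C]
    congr 2
    simp only [coe_evalRingHom, eval_add, eval_C, eval_mul, eval_X]
    ring
  have hspec : ∀ m : ZMod p, (X : (ZMod p)[X]) ^ p =
      (∏ u ∈ U, (X - C (y u + m * x u))) * Q.map (evalRingHom m) + S.map (evalRingHom m) := by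
    intro m
    rw [← hRm, ← Polynomial.map_mul, ← Polynomial.map_add, ← hQS, Polynomial.map_pow, map_X]
  have hRmd : ∀ m : ZMod p, (∏ u ∈ U, (X - C (y u + m * x u)) : (ZMod p)[X]).natDegree = k := by
    intro m
    rw [natDegree_prod_of_monic _ _ (fun u _ => monic_X_sub_C _),
      Finset.sum_congr rfl (fun u _ => natDegree_X_sub_C _), Finset.sum_const, smul_eq_mul, mul_one]
  have hk2 : 2 ≤ k := by omega
  -- good slopes
  have hgoodS : ∀ m, m ∉ T → S.map (evalRingHom m) = X := by
    intro m hm
    have hdvd : (∏ u ∈ U, (X - C (y u + m * x u)) : (ZMod p)[X]) ∣ X ^ p - X := by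
      apply Finset.prod_dvd_of_coprime
      · intro a ha b hb hab
        have hne : y a + m * x a ≠ y b + m * x b := fun h => hab (hgood m hm ha hb h)
        exact pairwise_coprime_X_sub_C Function.injective_id hne
      · intro u _
        rw [dvd_iff_isRoot, IsRoot, eval_sub, eval_pow, eval_X, ZMod.pow_card, sub_self]
    have hdvd2 : (∏ u ∈ U, (X - C (y u + m * x u)) : (ZMod p)[X]) ∣
        S.map (evalRingHom m) - X := by
      have e : S.map (evalRingHom m) - X = (X ^ p - X) -
          (∏ u ∈ U, (X - C (y u + m * x u))) * Q.map (evalRingHom m) := by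
        rw [hspec m]; ring
      rw [e]
      exact dvd_sub hdvd (Dvd.intro _ rfl)
    by_contra hne
    have h1 := natDegree_le_of_dvd hdvd2 (sub_ne_zero.mpr hne)
    rw [hRmd] at h1
    have h2 : (S.map (evalRingHom m) - X).natDegree < k := by
      rw [Nat.lt_iff_le_pred (by omega)]
      rw [natDegree_le_iff_coeff_eq_zero]
      intro i hi
      rw [coeff_sub, coeff_map, hSk i (by omega), map_zero, coeff_X, if_neg (by omega), sub_zero]
    omega
  -- the remainder has small degree
  have hSt : ∀ i, t < i → S.coeff i = 0 := by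
    intro i hi
    by_contra hne
    have h1 := (hST i).resolve_left hne
    have h2 : (Finset.univ \ T).card ≤ (S.coeff i).natDegree := by
      apply card_le_degree_of_subset_roots
      intro m hm
      rw [Finset.mem_val, Finset.mem_sdiff] at hm
      rw [mem_roots hne, IsRoot]
      have h3 := congrArg (fun P => P.coeff i) (hgoodS m hm.2)
      simp only [coeff_map, coe_evalRingHom, coeff_X] at h3
      rw [h3, if_neg (by omega)]
    rw [Finset.card_sdiff_of_subset (Finset.subset_univ _), Finset.card_univ, ZMod.card] at h2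
    omega
  -- the slope `m0`
  set s := S.map (evalRingHom m0) with hs
  have hsd : s.natDegree ≤ t := by
    rw [natDegree_le_iff_coeff_eq_zero]
    intro i hi
    rw [hs, coeff_map, hSt i hi, map_zero]
  set c : ι → ZMod p := fun u => y u + m0 * x u with hc
  set R0 : (ZMod p)[X] := ∏ u ∈ U, (X - C (c u)) with hR0
  have hR0d : R0.natDegree = k := hRmd m0
  have hdvd0 : R0 ∣ X ^ p - s := by
    refine ⟨Q.map (evalRingHom m0), ?_⟩
    rw [hspec m0]
    ring
  have hroot : ∀ u ∈ U, s.eval (c u) = c u := by
    intro u hu
    have h1 : (X - C (c u)) ∣ X ^ p - s := (Finset.dvd_prod_of_mem _ hu).trans hdvd0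
    rw [dvd_iff_isRoot, IsRoot, eval_sub, eval_pow, eval_X, ZMod.pow_card] at h1
    exact (sub_eq_zero.mp h1).symm
  have hder : derivative ((X : (ZMod p)[X]) ^ p - s) = - derivative s := by
    rw [derivative_sub, derivative_X_pow]
    simp
  have hfib : R0 = ∏ z ∈ U.image c, (X - C z) ^ (U.filter (fun u => c u = z)).card := by
    rw [hR0, ← Finset.prod_fiberwise_of_maps_to (g := c) (t := U.image c)
      (fun u hu => Finset.mem_image_of_mem _ hu)]
    apply Finset.prod_congr rfl
    intro z _
    rw [← Finset.prod_const]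
    apply Finset.prod_congr rfl
    intro u hu
    rw [(Finset.mem_filter.mp hu).2]
  have hmain : R0 ∣ (X - s) * derivative s := by
    rw [hfib]
    apply Finset.prod_dvd_of_coprime
    · intro a _ b _ hab
      apply IsCoprime.pow
      exact pairwise_coprime_X_sub_C Function.injective_id hab
    · intro z hz
      obtain ⟨u, hu, rfl⟩ := Finset.mem_image.mp hz
      set μ := (U.filter (fun u' => c u' = c u)).card with hμ
      have hμ1 : 1 ≤ μ := Finset.card_pos.mpr ⟨u, Finset.mem_filter.mpr ⟨hu, rfl⟩⟩
      have h1 : (X - C (c u)) ^ μ ∣ X ^ p - s := by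
        refine dvd_trans ?_ hdvd0
        rw [hfib]
        exact Finset.dvd_prod_of_mem (fun z => (X - C z) ^ (U.filter (fun u => c u = z)).card)
          (Finset.mem_image_of_mem _ hu)
      have h2 : (X - C (c u)) ^ (μ - 1) ∣ derivative s := by
        obtain ⟨W, hW⟩ := h1
        have h3 := congrArg derivative hW
        rw [hder, derivative_mul] at h3
        rw [← dvd_neg, h3]
        apply dvd_add
        · apply Dvd.dvd.mul_right
          rw [derivative_pow]
          apply Dvd.dvd.mul_right
          exact Dvd.intro_left _ rfl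
        · exact (pow_dvd_pow _ (by omega)).mul_right _
      have h4 : (X - C (c u)) ∣ X - s := by
        rw [dvd_iff_isRoot, IsRoot, eval_sub, eval_X, hroot u hu, sub_self]
      have h5 : (X - C (c u) : (ZMod p)[X]) ^ μ = (X - C (c u)) * (X - C (c u)) ^ (μ - 1) := by
        rw [← pow_succ']; congr 1; omega
      rw [h5]
      exact mul_dvd_mul h4 h2
  have hzero : (X - s) * derivative s = 0 := by
    by_contra hne
    have h1 := natDegree_le_of_dvd hmain hne
    rw [hR0d] at h1
    have h2 : ((X - s) * derivative s).natDegree ≤ t + (t - 1) := by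
      refine natDegree_mul_le.trans (Nat.add_le_add ?_ ?_)
      · refine (natDegree_sub_le _ _).trans (max_le ?_ hsd)
        rw [natDegree_X]; exact ht
      · have := natDegree_derivative_le s
        omega
    omega
  rcases mul_eq_zero.mp hzero with h1 | h1
  · left
    intro u hu u' hu' huu
    by_contra hne
    have hpair : (X - C (c u)) * (X - C (c u')) ∣ R0 := by
      rw [hR0, ← Finset.prod_pair (f := fun u => X - C (c u)) hne]
      apply Finset.prod_dvd_prod_of_subset
      intro w hw
      rw [Finset.mem_insert, Finset.mem_singleton] at hw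
      rcases hw with rfl | rfl
      · exact hu
      · exact hu'
    have huu' : c u = c u' := huu
    rw [← huu'] at hpair
    obtain ⟨W, hW⟩ := hpair.trans hdvd0
    have h3 := congrArg derivative hW
    rw [hder, ← sub_eq_zero.mp h1, derivative_X] at h3
    have h4 := congrArg (eval (c u)) h3
    simp at h4
  · right
    have hsC : s = C (s.coeff 0) := by
      ext i
      rcases Nat.eq_zero_or_pos i with h0 | h0
      · rw [h0, coeff_C_zero]
      · rw [coeff_C, if_neg (by omega)]
        by_cases hip : i ≤ t
        · have h2 : (derivative s).coeff (i - 1) = 0 := by rw [h1, coeff_zero]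
          rw [coeff_derivative] at h2
          have h3 : i - 1 + 1 = i := by omega
          rw [h3] at h2
          rcases mul_eq_zero.mp h2 with h4 | h4
          · exact h4
          · exfalso
            have h5 : ((i : ℕ) : ZMod p) = 0 := by
              have : ((i - 1 : ℕ) : ZMod p) + 1 = ((i : ℕ) : ZMod p) := by
                rw [← Nat.cast_succ]; congr 1
              rw [← this]; exact h4
            rw [ZMod.natCast_eq_zero_iff] at h5
            exact absurd (Nat.le_of_dvd (by omega) h5) (by omega)
        · exact coeff_eq_zero_of_natDegree_lt (by omega)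
    have hall : ∀ u ∈ U, c u = s.coeff 0 := by
      intro u hu
      rw [← hroot u hu, hsC, eval_C, coeff_C_zero]
    intro u hu u' hu'
    have e1 := hall u hu
    have e2 := hall u' hu'
    exact e1.trans e2.symm

end KS41.Dir
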