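import Pool.Agent.KS6_41.Dir.Low3
import Pool.Agent.KS6_41.Dir.Szonyi

/-!
No functional kills `p + 1` directions when there are at most `p + 1 + t` directions, `3 t < p`, and the
low moments vanish in this range.
-/

set_option autoImplicit false

open Polynomial Finset

namespace KS41.Dir

variable {p : ℕ} [Fact p.Prime]

/-- no functional kills `p + 1` directions -/
lemma kill_le4 {A D : Finset (Vec p)} (hD : Dirs A D) (hA : A.card = p) (hnp : NonPlanar A)
    (t : ℕ) (ht1 : 1 ≤ t) (hDp : D.card ≤ p + 1 + t) (htp : 3 * t < p) {u : Vec p} (hu : u ≠ 0) :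
    (kill D u).card ≤ p := by
  classical
  have hp2 := (Fact.out : p.Prime).two_le
  by_contra hcon
  push Not at hcon
  set T := D.filter (fun d => ¬ u ⬝ᵥ d = 0) with hT
  have hTc : T.card ≤ t := by
    have h1 : (kill D u).card + T.card = D.card :=
      Finset.card_filter_add_card_filter_not (s := D) (fun d => u ⬝ᵥ d = 0)
    omega
  have hTm : ∀ d ∈ T, u ⬝ᵥ d ≠ 0 := fun d hd => (Finset.mem_filter.mp hd).2
  -- directions between different levels
  have hdir : ∀ x ∈ A, ∀ y ∈ A, u ⬝ᵥ y ≠ u ⬝ᵥ x → ∃ d ∈ T, ∃ c : ZMod p, c ≠ 0 ∧ d = c • (x - y) := by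
    intro x hx y hy hxy
    have hne : x ≠ y := fun h => hxy (by rw [h])
    obtain ⟨d, hd, c, hc, hdc⟩ := hD.cov x hx y hy hne
    refine ⟨d, ?_, c, hc, hdc⟩
    rw [hT, Finset.mem_filter]
    refine ⟨hd, ?_⟩
    rw [hdc, dotProduct_smul, dotProduct_sub, smul_eq_mul]
    exact mul_ne_zero hc (sub_ne_zero.mpr hxy.symm)
  -- the levels are small
  have hlev : ∀ a ∈ A, (A.filter (fun y => u ⬝ᵥ y = u ⬝ᵥ a)).card ≤ t := by
    intro a ha
    obtain ⟨b, hb, hba⟩ : ∃ b ∈ A, u ⬝ᵥ b ≠ u ⬝ᵥ a := by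
      by_contra hne
      push Not at hne
      exact hnp u hu ⟨u ⬝ᵥ a, hne⟩
    have hex : ∀ y ∈ A.filter (fun y => u ⬝ᵥ y = u ⬝ᵥ a), ∃ d ∈ T, ∃ c : ZMod p,
        c ≠ 0 ∧ d = c • (b - y) := by
      intro y hy
      rw [Finset.mem_filter] at hy
      exact hdir b hb y hy.1 (by rw [hy.2]; exact hba.symm)
    choose! d hd c hc hdc using hex
    refine le_trans ?_ hTc
    apply Finset.card_le_card_of_injOn d (fun y hy => hd y hy)
    intro y hy y' hy' hyy
    have hy2 : y ∈ A.filter (fun y => u ⬝ᵥ y = u ⬝ᵥ a) := hy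
    have hy2' : y' ∈ A.filter (fun y => u ⬝ᵥ y = u ⬝ᵥ a) := hy'
    have hyy' : c y • (b - y) = c y' • (b - y') := by rw [← hdc y hy2, ← hdc y' hy2']; exact hyy
    have h1 := congrArg (fun z => u ⬝ᵥ z) hyy'
    simp only [dotProduct_smul, dotProduct_sub, smul_eq_mul] at h1
    rw [(Finset.mem_filter.mp hy2).2, (Finset.mem_filter.mp hy2').2] at h1
    have h2 : c y = c y' := mul_right_cancel₀ (sub_ne_zero.mpr hba) h1
    rw [h2] at hyy'
    have h3 := smul_right_injective (Vec p) (hc y' hy2') hyy'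
    have h4 : b - y = b - y' := h3
    exact sub_right_injective h4
  -- coordinates
  obtain ⟨i, hi⟩ : ∃ i, u i ≠ 0 := by
    by_contra hcon
    push Not at hcon
    exact hu (funext hcon)
  set m1 : Vec p := Pi.single (i + 1) 1 with hm1
  set m2 : Vec p := Pi.single (i + 2) 1 with hm2
  have hm1d : ∀ d : Vec p, m1 ⬝ᵥ d = d (i + 1) := by
    intro d; rw [hm1, single_dotProduct, one_mul]
  have hm2d : ∀ d : Vec p, m2 ⬝ᵥ d = d (i + 2) := by
    intro d; rw [hm2, single_dotProduct, one_mul]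
  have hzero : ∀ d : Vec p, u ⬝ᵥ d = 0 → m1 ⬝ᵥ d = 0 → m2 ⬝ᵥ d = 0 → d = 0 := by
    intro d h0 h1 h2
    rw [hm1d] at h1
    rw [hm2d] at h2
    have h3 : u ⬝ᵥ d = u i * d i + u (i + 1) * d (i + 1) + u (i + 2) * d (i + 2) := by
      rw [dotProduct, Fin.sum_univ_three]
      fin_cases i <;> simp <;> ring
    rw [h1, h2, mul_zero, mul_zero, add_zero, add_zero, h0] at h3
    have h4 : d i = 0 := by
      rcases mul_eq_zero.mp h3.symm with h5 | h5
      · exact absurd h5 hi
      · exact h5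
    funext l
    fin_cases i <;> fin_cases l <;> simp_all
  -- few collisions for some member of the pencil
  set L := A.offDiag.filter (fun q => u ⬝ᵥ q.1 = u ⬝ᵥ q.2) with hL
  have hLc : L.card + p ≤ p * t := by
    have h1 : L.card + A.card ≤ ∑ a ∈ A, t := by
      have h2 : L.card = ∑ a ∈ A, ((A.filter (fun y => u ⬝ᵥ y = u ⬝ᵥ a)).erase a).card := by
        rw [Finset.card_eq_sum_card_fiberwise (f := Prod.fst) (t := A)]
        · apply Finset.sum_congr rfl
          intro a ha
          refine Finset.card_bij' (fun q _ => q.2) (fun y _ => (a, y)) ?_ ?_ ?_ ?_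
          · intro q hq
            rw [Finset.mem_filter, hL, Finset.mem_filter, Finset.mem_offDiag] at hq
            obtain ⟨⟨⟨h1, h2, h3⟩, h4⟩, h5⟩ := hq
            rw [Finset.mem_erase, Finset.mem_filter]
            subst h5
            exact ⟨h3.symm, h2, h4.symm⟩
          · intro y hy
            rw [Finset.mem_erase, Finset.mem_filter] at hy
            rw [Finset.mem_filter, hL, Finset.mem_filter, Finset.mem_offDiag]
            exact ⟨⟨⟨ha, hy.2.1, hy.1.symm⟩, hy.2.2.symm⟩, rfl⟩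
          · intro q hq
            rw [Finset.mem_filter] at hq
            obtain ⟨_, h5⟩ := hq
            subst h5
            rfl
          · intro y _
            rfl
        · intro q hq
          have hq' : q ∈ L := hq
          rw [hL, Finset.mem_filter, Finset.mem_offDiag] at hq'
          exact hq'.1.1
      rw [h2, Finset.card_eq_sum_ones A, ← Finset.sum_add_distrib]
      apply Finset.sum_le_sum
      intro a ha
      have h3 : a ∈ A.filter (fun y => u ⬝ᵥ y = u ⬝ᵥ a) := Finset.mem_filter.mpr ⟨ha, rfl⟩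
      have h4 := Finset.card_erase_add_one h3
      have h5 := hlev a ha
      exact (le_of_eq h4).trans h5
    rw [Finset.sum_const, smul_eq_mul, hA] at h1
    exact h1
  set C : Option (ZMod p) → Finset (Vec p × Vec p) :=
    fun x => L.filter (fun q => mem m1 m2 x ⬝ᵥ (q.1 - q.2) = 0) with hC
  have hsum : ∑ x : Option (ZMod p), (C x).card ≤ L.card := by
    rw [← Finset.card_biUnion]
    · apply Finset.card_le_card
      intro q hq
      rw [Finset.mem_biUnion] at hq
      obtain ⟨x, _, hx⟩ := hq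
      exact (Finset.mem_filter.mp hx).1
    · intro x _ y _ hxy
      rw [Function.onFun, Finset.disjoint_left]
      intro q hq1 hq2
      apply hxy
      rw [hC, Finset.mem_filter] at hq1 hq2
      apply kill_unique (u1 := m1) (u2 := m2) (d := q.1 - q.2) _ hq1.2 hq2.2
      rintro ⟨e1, e2⟩
      have hqL := hq1.1
      rw [hL, Finset.mem_filter, Finset.mem_offDiag] at hqL
      have := hzero (q.1 - q.2) (by rw [dotProduct_sub, hqL.2, sub_self]) e1 e2
      exact hqL.1.2.2 (sub_eq_zero.mp this)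
  obtain ⟨x, hx⟩ : ∃ x, (C x).card + 1 ≤ t := by
    by_contra hne
    push Not at hne
    have h1 : (Finset.univ : Finset (Option (ZMod p))).card • t ≤ ∑ x : Option (ZMod p), (C x).card := by
      apply Finset.card_nsmul_le_sum
      intro x _
      have := hne x
      omega
    rw [Finset.card_univ, Fintype.card_option, ZMod.card, smul_eq_mul] at h1
    have h2 : (p + 1) * t = p * t + t := by ring
    omega
  set v : Vec p := mem m1 m2 x with hv
  have hvi : v i = 0 := by
    rw [hv]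
    rcases x with _ | x
    · show m1 i = 0
      rw [hm1]
      fin_cases i <;> simp
    · show (x • m1 + m2) i = 0
      rw [hm1, hm2]
      fin_cases i <;> simp
  have hv0 : v ≠ 0 := by
    intro h0
    rcases x with _ | x
    · have : m1 (i + 1) = 0 := by
        have h1 : m1 = 0 := h0
        rw [h1]; rfl
      rw [hm1, Pi.single_eq_same] at this
      exact one_ne_zero this
    · have h1 : (x • m1 + m2) (i + 2) = 0 := by
        have h1 : x • m1 + m2 = 0 := h0
        rw [h1]; rfl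
      rw [hm1, hm2] at h1
      fin_cases i <;> simp at h1
  set B := A.filter (fun a => ∀ b ∈ A, b ≠ a → ¬ (u ⬝ᵥ a = u ⬝ᵥ b ∧ v ⬝ᵥ a = v ⬝ᵥ b)) with hB
  have hBm : ∀ a, a ∈ B ↔ a ∈ A ∧ ∀ b ∈ A, b ≠ a → ¬ (u ⬝ᵥ a = u ⬝ᵥ b ∧ v ⬝ᵥ a = v ⬝ᵥ b) := by
    intro a; rw [hB, Finset.mem_filter]
  have hBc : p + 1 ≤ B.card + t := by
    have h1 : (A \ B).card ≤ (C x).card := by
      refine le_trans (Finset.card_le_card ?_) (Finset.card_image_le (s := C x) (f := Prod.fst))
      intro a ha
      rw [Finset.mem_sdiff, hBm] at ha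
      obtain ⟨ha, hb⟩ := ha
      push Not at hb
      obtain ⟨b, hbA, hba, e1, e2⟩ := hb ha
      rw [Finset.mem_image]
      refine ⟨(a, b), ?_, rfl⟩
      rw [hC, Finset.mem_filter, hL, Finset.mem_filter, Finset.mem_offDiag]
      refine ⟨⟨⟨ha, hbA, hba.symm⟩, e1⟩, ?_⟩
      show v ⬝ᵥ (a - b) = 0
      rw [dotProduct_sub, e2, sub_self]
    have h2 : (A \ B).card + B.card = A.card :=
      Finset.card_sdiff_add_card_eq_card (Finset.filter_subset _ _)
    omega
  -- the bad slopes
  set S := T.image (fun d => -(v ⬝ᵥ d) / (u ⬝ᵥ d)) with hS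
  have hSc : S.card ≤ t := Finset.card_image_le.trans hTc
  have hgood : ∀ m, m ∉ S → Set.InjOn (fun a => v ⬝ᵥ a + m * (u ⬝ᵥ a)) B := by
    intro m hm a ha a' ha' haa
    have haa' : v ⬝ᵥ a + m * (u ⬝ᵥ a) = v ⬝ᵥ a' + m * (u ⬝ᵥ a') := haa
    by_contra hne
    have hBa := (hBm a).mp ha
    have hBa' := (hBm a').mp ha'
    by_cases hlv : u ⬝ᵥ a = u ⬝ᵥ a'
    · rw [hlv] at haa'
      exact hBa.2 a' hBa'.1 (fun h => hne h.symm) ⟨hlv, add_right_cancel haa'⟩
    · obtain ⟨d, hd, c, hc, hdc⟩ := hdir a hBa.1 a' hBa'.1 (fun h => hlv h.symm)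
      apply hm
      rw [hS, Finset.mem_image]
      refine ⟨d, hd, ?_⟩
      rw [div_eq_iff (hTm d hd), hdc, dotProduct_smul, dotProduct_smul, dotProduct_sub,
        dotProduct_sub, smul_eq_mul, smul_eq_mul]
      linear_combination (-c) * haa'
  -- two points of `B` in different levels
  obtain ⟨b, hb⟩ := Finset.card_pos.mp (by omega : 0 < B.card)
  obtain ⟨b', hb', hbb⟩ : ∃ b' ∈ B, u ⬝ᵥ b' ≠ u ⬝ᵥ b := by
    by_contra hne
    push Not at hne
    have h1 : B.card ≤ (A.filter (fun y => u ⬝ᵥ y = u ⬝ᵥ b)).card := by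
      apply Finset.card_le_card
      intro y hy
      rw [Finset.mem_filter]
      exact ⟨((hBm y).mp hy).1, hne y hy⟩
    have h2 := hlev b ((hBm b).mp hb).1
    have h1' : B.card ≤ t := h1.trans h2
    omega
  set m0 : ZMod p := -(v ⬝ᵥ b' - v ⬝ᵥ b) / (u ⬝ᵥ b' - u ⬝ᵥ b) with hm0
  have hm0' : v ⬝ᵥ b' + m0 * (u ⬝ᵥ b') = v ⬝ᵥ b + m0 * (u ⬝ᵥ b) := by
    have hsub := sub_ne_zero.mpr hbb
    have : m0 * (u ⬝ᵥ b' - u ⬝ᵥ b) = -(v ⬝ᵥ b' - v ⬝ᵥ b) := by
      rw [hm0, div_mul_cancel₀ _ hsub]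
    linear_combination this
  rcases planar_lemma B (fun a => u ⬝ᵥ a) (fun a => v ⬝ᵥ a) S t ht1 hSc (by omega) (by omega)
    hgood m0 with hinj | hconst
  · have : b' = b := hinj hb' hb hm0'
    rw [this] at hbb
    exact hbb rfl
  · set ω : Vec p := v + m0 • u with hω
    have hωd : ∀ a, ω ⬝ᵥ a = v ⬝ᵥ a + m0 * (u ⬝ᵥ a) := by
      intro a; rw [hω, add_dotProduct, smul_dotProduct, smul_eq_mul]
    have hω0 : ω ≠ 0 := by
      intro h0
      have h1 : ω i = 0 := by rw [h0]; rfl
      rw [hω, Pi.add_apply, hvi, zero_add, Pi.smul_apply, smul_eq_mul] at h1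
      have h2 : m0 = 0 := (mul_eq_zero.mp h1).resolve_right hi
      rw [hω, h2, zero_smul, add_zero] at h0
      exact hv0 h0
    have hωB : ∀ y ∈ B, ω ⬝ᵥ y = ω ⬝ᵥ b := by
      intro y hy
      rw [hωd, hωd]
      exact hconst y hy b hb
    obtain ⟨a, ha, hab⟩ : ∃ a ∈ A, ω ⬝ᵥ a ≠ ω ⬝ᵥ b := by
      by_contra hne
      push Not at hne
      exact hnp ω hω0 ⟨ω ⬝ᵥ b, hne⟩
    have h1 : (B.filter (fun y => u ⬝ᵥ y ≠ u ⬝ᵥ a)).card ≤ t := by
      have hex : ∀ y ∈ B.filter (fun y => u ⬝ᵥ y ≠ u ⬝ᵥ a), ∃ d ∈ T, ∃ c : ZMod p,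
          c ≠ 0 ∧ d = c • (a - y) := by
        intro y hy
        rw [Finset.mem_filter] at hy
        exact hdir a ha y ((hBm y).mp hy.1).1 hy.2
      choose! d hd c hc hdc using hex
      refine le_trans ?_ hTc
      apply Finset.card_le_card_of_injOn d (fun y hy => hd y hy)
      intro y hy y' hy' hyy
      have hy2 : y ∈ B.filter (fun y => u ⬝ᵥ y ≠ u ⬝ᵥ a) := hy
      have hy2' : y' ∈ B.filter (fun y => u ⬝ᵥ y ≠ u ⬝ᵥ a) := hy'
      have hyy' : c y • (a - y) = c y' • (a - y') := by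
        rw [← hdc y hy2, ← hdc y' hy2']; exact hyy
      have h1 := congrArg (fun z => ω ⬝ᵥ z) hyy'
      simp only [dotProduct_smul, dotProduct_sub, smul_eq_mul] at h1
      rw [hωB y (Finset.mem_filter.mp hy2).1, hωB y' (Finset.mem_filter.mp hy2').1] at h1
      have h2 : c y = c y' := mul_right_cancel₀ (sub_ne_zero.mpr hab) h1
      rw [h2] at hyy'
      have h3 := smul_right_injective (Vec p) (hc y' hy2') hyy'
      have h4 : a - y = a - y' := h3
      exact sub_right_injective h4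
    have h2 : (B.filter (fun y => u ⬝ᵥ y = u ⬝ᵥ a)).card ≤ t := by
      refine le_trans (Finset.card_le_card ?_) (hlev a ha)
      intro y hy
      rw [Finset.mem_filter] at hy ⊢
      exact ⟨((hBm y).mp hy.1).1, hy.2⟩
    have h3 : (B.filter (fun y => u ⬝ᵥ y = u ⬝ᵥ a)).card +
        (B.filter (fun y => u ⬝ᵥ y ≠ u ⬝ᵥ a)).card = B.card :=
      Finset.card_filter_add_card_filter_not (s := B) (fun y => u ⬝ᵥ y = u ⬝ᵥ a)
    omega

theorem low_moments4 {A D : Finset (Vec p)} (hD : Dirs A D) (hA : A.card = p) (hnp : NonPlanar A)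
    (t : ℕ) (ht1 : 1 ≤ t) (hDp : D.card ≤ p + 1 + t) (htp : 3 * t < p) (hD0 : ∀ d ∈ D, d ≠ 0) (h : ℕ)
    (hh2 : 2 ≤ h) (hp : p = 2 * h + 1) :
    ∃ K, K < h ∧ p ≤ 3 * K + 2 * t + 2 ∧ ∀ k, 1 ≤ k → k ≤ K → ∀ u, M A k u = 0 := by
  classical
  have hh : 1 ≤ h := by omega
  have hex : ∃ k, 1 ≤ k ∧ ∃ u, M A k u ≠ 0 := by
    obtain ⟨d, hd⟩ := D_nonempty hD hA
    obtain ⟨u, hu, hud⟩ := exists_nonzero_orth d
    obtain ⟨k, hk1, _, hk3⟩ := gap_functional hD hA hnp h hh hp hu hd hud
    exact ⟨k, hk1, u, hk3⟩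
  set j := Nat.find hex with hj
  obtain ⟨hj1, u0, hu0⟩ := Nat.find_spec hex
  rw [← hj] at hj1 hu0
  have hjmin : ∀ k, 1 ≤ k → k < j → ∀ u, M A k u = 0 := by
    intro k hk1 hk2 u
    by_contra hne
    exact Nat.find_min hex hk2 ⟨hk1, u, hne⟩
  have hjh : j ≤ h := by
    obtain ⟨d, hd⟩ := D_nonempty hD hA
    obtain ⟨u, hu, hud⟩ := exists_nonzero_orth d
    obtain ⟨k, hk1, hk2, hk3⟩ := gap_functional hD hA hnp h hh hp hu hd hud
    exact (Nat.find_min' hex ⟨hk1, u, hk3⟩).trans hk2
  by_cases hdone : p ≤ 3 * (j - 1) + 2 * t + 2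
  · refine ⟨j - 1, by omega, hdone, ?_⟩
    intro k hk1 hk2 u
    exact hjmin k hk1 (by omega) u
  exfalso
  have hu0ne : u0 ≠ 0 := by
    intro h0
    apply hu0
    rw [h0, M]
    apply Finset.sum_eq_zero
    intro a _
    rw [zero_dotProduct, zero_pow (by omega)]
  obtain ⟨u', hfree⟩ := exists_free2 hD0 hu0ne (kill_le4 hD hA hnp t ht1 hDp htp hu0ne)
  -- nonzero members
  set Z := Finset.univ.filter (fun x : Option (ZMod p) => M A j (mem u0 u' x) = 0) with hZ
  have hZc : Z.card ≤ j := pencil_zero A u0 u' j hj1 none hu0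
  set Y := Finset.univ.filter (fun x : Option (ZMod p) => ¬ M A j (mem u0 u' x) = 0) with hY
  have hYc : Z.card + Y.card = p + 1 := by
    have h4 := Finset.card_filter_add_card_filter_not (s := (Finset.univ : Finset (Option (ZMod p))))
      (fun x => M A j (mem u0 u' x) = 0)
    rw [Finset.card_univ, Fintype.card_option, ZMod.card] at h4
    exact h4
  have hkne : ∀ x ∈ Y, (kill D (mem u0 u' x)).Nonempty := by
    intro x hx
    by_contra hne
    rw [hY, Finset.mem_filter] at hx
    exact hx.2 (M_of_inj hA (injOn_of_kill hD (Finset.not_nonempty_iff_eq_empty.mp hne)) (by omega))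
  obtain ⟨x, hxY, hxc⟩ : ∃ x ∈ Y, (kill D (mem u0 u' x)).card = 1 := by
    by_contra hcon
    push Not at hcon
    have h1 : ∀ x ∈ Y, 2 ≤ (kill D (mem u0 u' x)).card := by
      intro x hx
      have h2 := hcon x hx
      have h3 := Finset.card_pos.mpr (hkne x hx)
      omega
    have h2 : Y.card • 2 ≤ ∑ x ∈ Y, (kill D (mem u0 u' x)).card := Finset.card_nsmul_le_sum _ _ _ h1
    have h3 : ∑ x ∈ Y, (kill D (mem u0 u' x)).card ≤ ∑ x : Option (ZMod p), (kill D (mem u0 u' x)).card :=
      Finset.sum_le_sum_of_subset (Finset.subset_univ _)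
    have h4 := sum_kill hfree
    rw [smul_eq_mul] at h2
    omega
  obtain ⟨d0, hd0⟩ := Finset.card_eq_one.mp hxc
  set u1 := mem u0 u' x with hu1
  have hd0D : d0 ∈ D := by
    have : d0 ∈ kill D u1 := by rw [hd0]; exact Finset.mem_singleton_self _
    exact (mem_kill.mp this).1
  have hd0u1 : u1 ⬝ᵥ d0 = 0 := by
    have : d0 ∈ kill D u1 := by rw [hd0]; exact Finset.mem_singleton_self _
    exact (mem_kill.mp this).2
  have hM1 : M A j u1 ≠ 0 := by
    rw [hY, Finset.mem_filter] at hxY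
    exact hxY.2
  obtain ⟨u2, hu2d, hu2⟩ := exists_u2 u1 d0 (hD0 d0 hd0D)
  obtain ⟨i, hi⟩ : ∃ i, d0 i ≠ 0 := by
    by_contra hcon
    push Not at hcon
    exact hD0 d0 hd0D (funext hcon)
  set u3 : Vec p := Pi.single i 1 with hu3
  have hu3d : ∀ d : Vec p, u3 ⬝ᵥ d = d i := by
    intro d; rw [hu3, single_dotProduct, one_mul]
  have herase : (D.erase d0).card + 1 = D.card := Finset.card_erase_add_one hd0D
  have hcomb : ∀ (u v w : ZMod p) (d : Vec p), (u • u1 + v • u2 + w • u3) ⬝ᵥ d =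
      u * (u1 ⬝ᵥ d) + v * (u2 ⬝ᵥ d) + w * (u3 ⬝ᵥ d) := by
    intro u v w d
    simp [add_dotProduct, smul_dotProduct]
  have hcore := core3 (p := p) (D.erase d0) A (fun d => u1 ⬝ᵥ d) (fun d => u2 ⬝ᵥ d) (fun d => u3 ⬝ᵥ d)
    (fun a => u1 ⬝ᵥ a) (fun a => u2 ⬝ᵥ a) (fun a => u3 ⬝ᵥ a) j (by omega) hj1 (by omega)
    (by
      intro d hd h0
      rw [Finset.mem_erase] at hd
      have : d ∈ kill D u1 := mem_kill.mpr ⟨hd.2, h0⟩
      rw [hd0, Finset.mem_singleton] at this
      exact hd.1 this)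
    (by
      intro u v w hw
      by_cases hprod : ∏ d ∈ D.erase d0, (u * (u1 ⬝ᵥ d) + v * (u2 ⬝ᵥ d) + w * (u3 ⬝ᵥ d)) = 0
      · rw [hprod, zero_mul]
      · have hk : kill D (u • u1 + v • u2 + w • u3) = ∅ := by
          rw [Finset.eq_empty_iff_forall_notMem]
          intro d hd
          rw [mem_kill, hcomb] at hd
          by_cases hdd : d = d0
          · rw [hdd, hd0u1, hu2d, hu3d, mul_zero, mul_zero, zero_add, zero_add] at hd
            rcases mul_eq_zero.mp hd.2 with h3 | h3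
            · exact hw h3
            · exact hi h3
          · exact hprod (Finset.prod_eq_zero (Finset.mem_erase.mpr ⟨hdd, hd.1⟩) hd.2)
        have hM := M_of_inj hA (injOn_of_kill hD hk) (k := j) (by omega)
        rw [M] at hM
        have : ∑ a ∈ A, (u * (u1 ⬝ᵥ a) + v * (u2 ⬝ᵥ a) + w * (u3 ⬝ᵥ a)) ^ j = 0 := by
          rw [← hM]
          apply Finset.sum_congr rfl
          intro a _
          rw [hcomb]
        rw [this, mul_zero])
    hM1
  rcases hcore with hc | ⟨x0, hx0⟩
  · omega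
  · set us : Vec p := x0 • u1 + u2 with hus
    have husne : us ≠ 0 := hu2 x0
    have husd : ∀ d, us ⬝ᵥ d = x0 * (u1 ⬝ᵥ d) + u2 ⬝ᵥ d := by
      intro d; rw [hus, add_dotProduct, smul_dotProduct, smul_eq_mul]
    have hkc : p - j + 1 ≤ (kill D us).card := by
      have hsub : insert d0 ((D.erase d0).filter (fun d => x0 * (u1 ⬝ᵥ d) + u2 ⬝ᵥ d = 0)) ⊆ kill D us := by
        intro d hd
        rw [Finset.mem_insert] at hd
        rw [mem_kill, husd]
        rcases hd with rfl | hd
        · refine ⟨hd0D, ?_⟩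
          rw [hd0u1, hu2d, mul_zero, add_zero]
        · rw [Finset.mem_filter] at hd
          exact ⟨Finset.mem_of_mem_erase hd.1, hd.2⟩
      have h1 := Finset.card_le_card hsub
      rw [Finset.card_insert_of_notMem] at h1
      · have hx0' : p - j ≤ ((D.erase d0).filter (fun d => x0 * (u1 ⬝ᵥ d) + u2 ⬝ᵥ d = 0)).card := by
          convert hx0
        omega
      · intro h2
        rw [Finset.mem_filter] at h2
        exact Finset.notMem_erase _ _ h2.1
    obtain ⟨u'', hfree2⟩ := exists_free2 hD0 husne (kill_le4 hD hA hnp t ht1 hDp htp husne)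
    have h1 := pencil_noninj hD hA hnp h hh hp hfree2
    have h2 := sum_kill hfree2
    rw [Fintype.sum_option] at h2
    have h3 : (Finset.univ.filter (fun x : Option (ZMod p) => (kill D (mem us u'' x)).Nonempty)).card
        ≤ 1 + (Finset.univ.filter (fun x : ZMod p => (kill D (mem us u'' (some x))).Nonempty)).card := by
      have hsub : Finset.univ.filter (fun x : Option (ZMod p) => (kill D (mem us u'' x)).Nonempty) ⊆
          insert none ((Finset.univ.filter
            (fun x : ZMod p => (kill D (mem us u'' (some x))).Nonempty)).image some) := by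
        intro y hy
        rw [Finset.mem_filter] at hy
        rcases y with _ | y
        · exact Finset.mem_insert_self _ _
        · apply Finset.mem_insert_of_mem
          apply Finset.mem_image_of_mem
          rw [Finset.mem_filter]
          exact ⟨Finset.mem_univ _, hy.2⟩
      have h4 := Finset.card_le_card hsub
      have h5 := Finset.card_insert_le none ((Finset.univ.filter
            (fun x : ZMod p => (kill D (mem us u'' (some x))).Nonempty)).image some)
      have h6 := Finset.card_image_le (s := (Finset.univ.filter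
            (fun x : ZMod p => (kill D (mem us u'' (some x))).Nonempty))) (f := (some : ZMod p → Option (ZMod p)))
      omega
    have h4 : (Finset.univ.filter (fun x : ZMod p => (kill D (mem us u'' (some x))).Nonempty)).card ≤
        ∑ x : ZMod p, (kill D (mem us u'' (some x))).card := by
      rw [Finset.card_filter]
      apply Finset.sum_le_sum
      intro y _
      split_ifs with hy
      · exact Finset.card_pos.mpr hy
      · exact Nat.zero_le _
    have h5 : (kill D (mem us u'' none)).card = (kill D us).card := rfl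
    rw [h5] at h2
    omega

end KS41.Dir
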