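import Pool.Agent.KS6_41.Dir.Geo3

/-!
Vanishing of the low moments when there are at most `p + 1 + t` directions, `t ^ 2 + t < p`
(adapted from earlier files, where there are at most `p + 1` directions).
-/

set_option autoImplicit false

open Polynomial Finset

namespace KS41.Dir

variable {p : ℕ} [Fact p.Prime]

/-- no functional kills `p + 1` directions -/
lemma kill_le3 {A D : Finset (Vec p)} (hD : Dirs A D) (hA : A.card = p) (hnp : NonPlanar A)
    (t : ℕ) (hDp : D.card ≤ p + 1 + t) (htp : t * t + t < p) {u : Vec p} (hu : u ≠ 0) :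
    (kill D u).card ≤ p := by
  classical
  have hp2 := (Fact.out : p.Prime).two_le
  by_contra hcon
  push Not at hcon
  set T := D.filter (fun d => ¬ u ⬝ᵥ d = 0) with hT
  have hTc : T.card ≤ t := by
    have h1 : (kill D u).card + T.card = D.card :=
      Finset.card_filter_add_card_filter_not (s := D) (fun d => u ⬝ᵥ d = 0)
    omega
  -- directions between different levels
  have hdir : ∀ x ∈ A, ∀ y ∈ A, u ⬝ᵥ y ≠ u ⬝ᵥ x → ∃ d ∈ T, ∃ c : ZMod p, c ≠ 0 ∧ d = c • (x - y) := by
    intro x hx y hy hxy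
    have hne : x ≠ y := fun h => hxy (by rw [h])
    obtain ⟨d, hd, c, hc, hdc⟩ := hD.cov x hx y hy hne
    refine ⟨d, ?_, c, hc, hdc⟩
    rw [hT, Finset.mem_filter]
    refine ⟨hd, ?_⟩
    rw [hdc, dotProduct_smul, dotProduct_sub, smul_eq_mul]
    exact mul_ne_zero hc (sub_ne_zero.mpr hxy.symm)
  obtain ⟨a, ha⟩ := Finset.card_pos.mp (by omega : 0 < A.card)
  obtain ⟨b, hb, hba⟩ : ∃ b ∈ A, u ⬝ᵥ b ≠ u ⬝ᵥ a := by
    by_contra hne
    push Not at hne
    exact hnp u hu ⟨u ⬝ᵥ a, hne⟩
  -- the level of `a` is small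
  have hlev : (A.filter (fun y => u ⬝ᵥ y = u ⬝ᵥ a)).card ≤ t := by
    have hex : ∀ y ∈ A.filter (fun y => u ⬝ᵥ y = u ⬝ᵥ a), ∃ d ∈ T, ∃ c : ZMod p,
        c ≠ 0 ∧ d = c • (b - y) := by
      intro y hy
      rw [Finset.mem_filter] at hy
      exact hdir b hb y hy.1 (by rw [hy.2]; exact hba.symm)
    choose! d hd c hc hdc using hex
    refine le_trans ?_ hTc
    apply Finset.card_le_card_of_injOn d (fun y hy => hd y hy)
    intro y hy y' hy' hyy
    have hy2 : y ∈ A.filter (fun y => u ⬝ᵥ y = u ⬝ᵥ a) := hy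
    have hy2' : y' ∈ A.filter (fun y => u ⬝ᵥ y = u ⬝ᵥ a) := hy'
    have hyy' : c y • (b - y) = c y' • (b - y') := by rw [← hdc y hy2, ← hdc y' hy2']; exact hyy
    have h1 := congrArg (fun z => u ⬝ᵥ z) hyy'
    simp only [dotProduct_smul, dotProduct_sub, smul_eq_mul] at h1
    rw [(Finset.mem_filter.mp hy2).2, (Finset.mem_filter.mp hy2').2] at h1
    have h2 : c y = c y' := mul_right_cancel₀ (sub_ne_zero.mpr hba) h1
    rw [h2] at hyy'
    have h3 := smul_right_injective (Vec p) (hc y' hy2') hyy'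
    have h4 : b - y = b - y' := h3
    exact sub_right_injective h4
  -- a long line
  set B := A.filter (fun y => ¬ u ⬝ᵥ y = u ⬝ᵥ a) with hB
  have hBc : p - t ≤ B.card := by
    have h1 : (A.filter (fun y => u ⬝ᵥ y = u ⬝ᵥ a)).card + B.card = A.card :=
      Finset.card_filter_add_card_filter_not (s := A) (fun y => u ⬝ᵥ y = u ⬝ᵥ a)
    omega
  have hex : ∀ y ∈ B, ∃ d ∈ T, ∃ c : ZMod p, c ≠ 0 ∧ d = c • (a - y) := by
    intro y hy
    rw [hB, Finset.mem_filter] at hy
    exact hdir a ha y hy.1 hy.2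
  choose! d hd c hc hdc using hex
  have hcount : T.card * t < B.card := by
    have : T.card * t ≤ t * t := Nat.mul_le_mul_right _ hTc
    omega
  obtain ⟨v, hv, hfib⟩ := Finset.exists_lt_card_fiber_of_mul_lt_card_of_maps_to hd hcount
  have hv' := Finset.mem_filter.mp hv
  have hLsub : insert a (B.filter (fun y => d y = v)) ⊆ Ln A a v := by
    intro y hy
    rcases Finset.mem_insert.mp hy with rfl | hy
    · exact self_mem_Ln ha
    · rw [Finset.mem_filter] at hy
      have h1 := hdc y hy.1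
      have h2 := hc y hy.1
      rw [hy.2] at h1
      rw [mem_Ln]
      refine ⟨(Finset.mem_filter.mp hy.1).1, -(c y)⁻¹, ?_⟩
      rw [h1, smul_smul, neg_mul, inv_mul_cancel₀ h2]
      simp
  have hLc : t + 2 ≤ (Ln A a v).card := by
    have h1 := Finset.card_le_card hLsub
    rw [Finset.card_insert_of_notMem] at h1
    · omega
    · intro h
      exact (Finset.mem_filter.mp (Finset.mem_filter.mp h).1).2 rfl
  -- a point off this line
  obtain ⟨φ, hφ, hφv, _⟩ := exists_orth2 v v
  obtain ⟨x, hx, hxa⟩ : ∃ x ∈ A, φ ⬝ᵥ x ≠ φ ⬝ᵥ a := by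
    by_contra hne
    push Not at hne
    exact hnp φ hφ ⟨φ ⬝ᵥ a, hne⟩
  have hxL : x ∉ Ln A a v := fun h => hxa (dot_Ln hφv h)
  obtain ⟨e, he, heinj⟩ := fam_map hD hx hxL
  have h1 : ((Ln A a v).filter (fun y => ¬ u ⬝ᵥ y = u ⬝ᵥ x)).card ≤ T.card := by
    apply Finset.card_le_card_of_injOn e
    · intro y hy
      have hy2 := Finset.mem_filter.mp (show y ∈ (Ln A a v).filter (fun y => ¬ u ⬝ᵥ y = u ⬝ᵥ x) from hy)
      obtain ⟨h1, k, hk, h2⟩ := he y hy2.1
      show e y ∈ (T : Set (Vec p))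
      rw [Finset.mem_coe, hT, Finset.mem_filter]
      refine ⟨h1, ?_⟩
      rw [h2, dotProduct_smul, dotProduct_sub, smul_eq_mul]
      exact mul_ne_zero hk (sub_ne_zero.mpr (fun h => hy2.2 h.symm))
    · intro y hy y' hy' hyy
      exact heinj y (Finset.mem_filter.mp (show y ∈ (Ln A a v).filter _ from hy)).1 y'
        (Finset.mem_filter.mp (show y' ∈ (Ln A a v).filter _ from hy')).1 hyy
  have h2 : ((Ln A a v).filter (fun y => u ⬝ᵥ y = u ⬝ᵥ x)).card ≤ 1 := by
    rw [Finset.card_le_one]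
    intro y hy y' hy'
    rw [Finset.mem_filter] at hy hy'
    obtain ⟨_, s, hs⟩ := mem_Ln.mp hy.1
    obtain ⟨_, s', hs'⟩ := mem_Ln.mp hy'.1
    have h3 : u ⬝ᵥ y = u ⬝ᵥ y' := by rw [hy.2, hy'.2]
    rw [hs, hs', dotProduct_add, dotProduct_add, dotProduct_smul, dotProduct_smul] at h3
    have h4 : s * (u ⬝ᵥ v) = s' * (u ⬝ᵥ v) := add_left_cancel h3
    have h5 := mul_right_cancel₀ hv'.2 h4
    rw [hs, hs', h5]
  have h3 : ((Ln A a v).filter (fun y => u ⬝ᵥ y = u ⬝ᵥ x)).card +
      ((Ln A a v).filter (fun y => ¬ u ⬝ᵥ y = u ⬝ᵥ x)).card = (Ln A a v).card :=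
    Finset.card_filter_add_card_filter_not (s := Ln A a v) (fun y => u ⬝ᵥ y = u ⬝ᵥ x)
  omega

lemma exists_free2 {D : Finset (Vec p)} (hD0 : ∀ d ∈ D, d ≠ 0)
    {u0 : Vec p} (hu0 : u0 ≠ 0) (hDp : (kill D u0).card ≤ p) : ∃ u', Free D u0 u' := by
  classical
  obtain ⟨i, hi⟩ : ∃ i, u0 i ≠ 0 := by
    by_contra hcon
    push Not at hcon
    exact hu0 (funext hcon)
  set m1 : Vec p := Pi.single (i + 1) 1 with hm1
  set m2 : Vec p := Pi.single (i + 2) 1 with hm2
  have hm1d : ∀ d : Vec p, m1 ⬝ᵥ d = d (i + 1) := by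
    intro d; rw [hm1, single_dotProduct, one_mul]
  have hm2d : ∀ d : Vec p, m2 ⬝ᵥ d = d (i + 2) := by
    intro d; rw [hm2, single_dotProduct, one_mul]
  have hzero : ∀ d : Vec p, u0 ⬝ᵥ d = 0 → m1 ⬝ᵥ d = 0 → m2 ⬝ᵥ d = 0 → d = 0 := by
    intro d h0 h1 h2
    rw [hm1d] at h1
    rw [hm2d] at h2
    have h3 : u0 ⬝ᵥ d = u0 i * d i + u0 (i + 1) * d (i + 1) + u0 (i + 2) * d (i + 2) := by
      rw [dotProduct, Fin.sum_univ_three]
      fin_cases i <;> simp <;> ring
    rw [h1, h2, mul_zero, mul_zero, add_zero, add_zero, h0] at h3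
    have h4 : d i = 0 := by
      rcases mul_eq_zero.mp h3.symm with h5 | h5
      · exact absurd h5 hi
      · exact h5
    funext l
    fin_cases i <;> fin_cases l <;> simp_all
  -- pigeonhole
  obtain ⟨x, hx⟩ : ∃ x : Option (ZMod p), ∀ d ∈ kill D u0, mem m1 m2 x ⬝ᵥ d ≠ 0 := by
    by_contra hcon
    push Not at hcon
    choose f hf1 hf2 using hcon
    have hinj : Function.Injective f := by
      intro x y hxy
      have hd := mem_kill.mp (hf1 x)
      apply kill_unique (u1 := m1) (u2 := m2) (d := f x)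
      · rintro ⟨h1, h2⟩
        exact hD0 _ hd.1 (hzero _ hd.2 h1 h2)
      · exact hf2 x
      · rw [hxy]; exact hf2 y
    have h1 : (Finset.univ.image f).card ≤ (kill D u0).card := by
      apply Finset.card_le_card
      intro v hv
      obtain ⟨x, _, rfl⟩ := Finset.mem_image.mp hv
      exact hf1 x
    rw [Finset.card_image_of_injective _ hinj, Finset.card_univ, Fintype.card_option, ZMod.card] at h1
    omega
  refine ⟨mem m1 m2 x, ?_, ?_⟩
  · intro y
    have hcomp : (mem m1 m2 x) i = 0 := by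
      rcases x with _ | x
      · show m1 i = 0
        rw [hm1]
        fin_cases i <;> simp
      · show (x • m1 + m2) i = 0
        rw [hm1, hm2]
        fin_cases i <;> simp
    have hmne : mem m1 m2 x ≠ 0 := by
      intro h0
      rcases x with _ | x
      · have : m1 (i + 1) = 0 := by
          have h1 : m1 = 0 := h0
          rw [h1]; rfl
        rw [hm1, Pi.single_eq_same] at this
        exact one_ne_zero this
      · have h1 : (x • m1 + m2) (i + 2) = 0 := by
          have h1 : x • m1 + m2 = 0 := h0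
          rw [h1]; rfl
        rw [hm1, hm2] at h1
        fin_cases i <;> simp at h1
    rcases y with _ | y
    · exact hu0
    · intro h0
      have h1 : (y • u0 + mem m1 m2 x) i = 0 := by
        have h1 : y • u0 + mem m1 m2 x = 0 := h0
        rw [h1]; rfl
      rw [Pi.add_apply, hcomp, add_zero, Pi.smul_apply, smul_eq_mul] at h1
      have hy : y = 0 := by
        rcases mul_eq_zero.mp h1 with h2 | h2
        · exact h2
        · exact absurd h2 hi
      apply hmne
      have h2 : y • u0 + mem m1 m2 x = 0 := h0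
      rw [hy, zero_smul, zero_add] at h2
      exact h2
  · rintro d hd ⟨h1, h2⟩
    exact hx d (mem_kill.mpr ⟨hd, h1⟩) h2

theorem low_moments3 {A D : Finset (Vec p)} (hD : Dirs A D) (hA : A.card = p) (hnp : NonPlanar A)
    (t : ℕ) (hDp : D.card ≤ p + 1 + t) (htp : t * t + t < p) (hD0 : ∀ d ∈ D, d ≠ 0) (h : ℕ)
    (hh2 : 2 ≤ h) (hp : p = 2 * h + 1) :
    ∃ K, K < h ∧ p ≤ 3 * K + 2 * t + 2 ∧ ∀ k, 1 ≤ k → k ≤ K → ∀ u, M A k u = 0 := by
  classical
  have hh : 1 ≤ h := by omega
  have hex : ∃ k, 1 ≤ k ∧ ∃ u, M A k u ≠ 0 := by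
    obtain ⟨d, hd⟩ := D_nonempty hD hA
    obtain ⟨u, hu, hud⟩ := exists_nonzero_orth d
    obtain ⟨k, hk1, _, hk3⟩ := gap_functional hD hA hnp h hh hp hu hd hud
    exact ⟨k, hk1, u, hk3⟩
  set j := Nat.find hex with hj
  obtain ⟨hj1, u0, hu0⟩ := Nat.find_spec hex
  rw [← hj] at hj1 hu0
  have hjmin : ∀ k, 1 ≤ k → k < j → ∀ u, M A k u = 0 := by
    intro k hk1 hk2 u
    by_contra hne
    exact Nat.find_min hex hk2 ⟨hk1, u, hne⟩
  have hjh : j ≤ h := by
    obtain ⟨d, hd⟩ := D_nonempty hD hA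
    obtain ⟨u, hu, hud⟩ := exists_nonzero_orth d
    obtain ⟨k, hk1, hk2, hk3⟩ := gap_functional hD hA hnp h hh hp hu hd hud
    exact (Nat.find_min' hex ⟨hk1, u, hk3⟩).trans hk2
  by_cases hdone : p ≤ 3 * (j - 1) + 2 * t + 2
  · refine ⟨j - 1, by omega, hdone, ?_⟩
    intro k hk1 hk2 u
    exact hjmin k hk1 (by omega) u
  exfalso
  have hu0ne : u0 ≠ 0 := by
    intro h0
    apply hu0
    rw [h0, M]
    apply Finset.sum_eq_zero
    intro a _
    rw [zero_dotProduct, zero_pow (by omega)]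
  obtain ⟨u', hfree⟩ := exists_free2 hD0 hu0ne (kill_le3 hD hA hnp t hDp htp hu0ne)
  -- nonzero members
  set Z := Finset.univ.filter (fun x : Option (ZMod p) => M A j (mem u0 u' x) = 0) with hZ
  have hZc : Z.card ≤ j := pencil_zero A u0 u' j hj1 none hu0
  set Y := Finset.univ.filter (fun x : Option (ZMod p) => ¬ M A j (mem u0 u' x) = 0) with hY
  have hYc : Z.card + Y.card = p + 1 := by
    have h4 := Finset.card_filter_add_card_filter_not (s := (Finset.univ : Finset (Option (ZMod p))))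
      (fun x => M A j (mem u0 u' x) = 0)
    rw [Finset.card_univ, Fintype.card_option, ZMod.card] at h4
    exact h4
  have hkne : ∀ x ∈ Y, (kill D (mem u0 u' x)).Nonempty := by
    intro x hx
    by_contra hne
    rw [hY, Finset.mem_filter] at hx
    exact hx.2 (M_of_inj hA (injOn_of_kill hD (Finset.not_nonempty_iff_eq_empty.mp hne)) (by omega))
  obtain ⟨x, hxY, hxc⟩ : ∃ x ∈ Y, (kill D (mem u0 u' x)).card = 1 := by
    by_contra hcon
    push Not at hcon
    have h1 : ∀ x ∈ Y, 2 ≤ (kill D (mem u0 u' x)).card := by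
      intro x hx
      have h2 := hcon x hx
      have h3 := Finset.card_pos.mpr (hkne x hx)
      omega
    have h2 : Y.card • 2 ≤ ∑ x ∈ Y, (kill D (mem u0 u' x)).card := Finset.card_nsmul_le_sum _ _ _ h1
    have h3 : ∑ x ∈ Y, (kill D (mem u0 u' x)).card ≤ ∑ x : Option (ZMod p), (kill D (mem u0 u' x)).card :=
      Finset.sum_le_sum_of_subset (Finset.subset_univ _)
    have h4 := sum_kill hfree
    rw [smul_eq_mul] at h2
    omega
  obtain ⟨d0, hd0⟩ := Finset.card_eq_one.mp hxc
  set u1 := mem u0 u' x with hu1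
  have hd0D : d0 ∈ D := by
    have : d0 ∈ kill D u1 := by rw [hd0]; exact Finset.mem_singleton_self _
    exact (mem_kill.mp this).1
  have hd0u1 : u1 ⬝ᵥ d0 = 0 := by
    have : d0 ∈ kill D u1 := by rw [hd0]; exact Finset.mem_singleton_self _
    exact (mem_kill.mp this).2
  have hM1 : M A j u1 ≠ 0 := by
    rw [hY, Finset.mem_filter] at hxY
    exact hxY.2
  obtain ⟨u2, hu2d, hu2⟩ := exists_u2 u1 d0 (hD0 d0 hd0D)
  obtain ⟨i, hi⟩ : ∃ i, d0 i ≠ 0 := by
    by_contra hcon
    push Not at hcon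
    exact hD0 d0 hd0D (funext hcon)
  set u3 : Vec p := Pi.single i 1 with hu3
  have hu3d : ∀ d : Vec p, u3 ⬝ᵥ d = d i := by
    intro d; rw [hu3, single_dotProduct, one_mul]
  have herase : (D.erase d0).card + 1 = D.card := Finset.card_erase_add_one hd0D
  have hcomb : ∀ (u v w : ZMod p) (d : Vec p), (u • u1 + v • u2 + w • u3) ⬝ᵥ d =
      u * (u1 ⬝ᵥ d) + v * (u2 ⬝ᵥ d) + w * (u3 ⬝ᵥ d) := by
    intro u v w d
    simp [add_dotProduct, smul_dotProduct]
  have hcore := core3 (p := p) (D.erase d0) A (fun d => u1 ⬝ᵥ d) (fun d => u2 ⬝ᵥ d) (fun d => u3 ⬝ᵥ d)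
    (fun a => u1 ⬝ᵥ a) (fun a => u2 ⬝ᵥ a) (fun a => u3 ⬝ᵥ a) j (by omega) hj1 (by omega)
    (by
      intro d hd h0
      rw [Finset.mem_erase] at hd
      have : d ∈ kill D u1 := mem_kill.mpr ⟨hd.2, h0⟩
      rw [hd0, Finset.mem_singleton] at this
      exact hd.1 this)
    (by
      intro u v w hw
      by_cases hprod : ∏ d ∈ D.erase d0, (u * (u1 ⬝ᵥ d) + v * (u2 ⬝ᵥ d) + w * (u3 ⬝ᵥ d)) = 0
      · rw [hprod, zero_mul]
      · have hk : kill D (u • u1 + v • u2 + w • u3) = ∅ := by
          rw [Finset.eq_empty_iff_forall_notMem]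
          intro d hd
          rw [mem_kill, hcomb] at hd
          by_cases hdd : d = d0
          · rw [hdd, hd0u1, hu2d, hu3d, mul_zero, mul_zero, zero_add, zero_add] at hd
            rcases mul_eq_zero.mp hd.2 with h3 | h3
            · exact hw h3
            · exact hi h3
          · exact hprod (Finset.prod_eq_zero (Finset.mem_erase.mpr ⟨hdd, hd.1⟩) hd.2)
        have hM := M_of_inj hA (injOn_of_kill hD hk) (k := j) (by omega)
        rw [M] at hM
        have : ∑ a ∈ A, (u * (u1 ⬝ᵥ a) + v * (u2 ⬝ᵥ a) + w * (u3 ⬝ᵥ a)) ^ j = 0 := by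
          rw [← hM]
          apply Finset.sum_congr rfl
          intro a _
          rw [hcomb]
        rw [this, mul_zero])
    hM1
  rcases hcore with hc | ⟨x0, hx0⟩
  · omega
  · set us : Vec p := x0 • u1 + u2 with hus
    have husne : us ≠ 0 := hu2 x0
    have husd : ∀ d, us ⬝ᵥ d = x0 * (u1 ⬝ᵥ d) + u2 ⬝ᵥ d := by
      intro d; rw [hus, add_dotProduct, smul_dotProduct, smul_eq_mul]
    have hkc : p - j + 1 ≤ (kill D us).card := by
      have hsub : insert d0 ((D.erase d0).filter (fun d => x0 * (u1 ⬝ᵥ d) + u2 ⬝ᵥ d = 0)) ⊆ kill D us := by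
        intro d hd
        rw [Finset.mem_insert] at hd
        rw [mem_kill, husd]
        rcases hd with rfl | hd
        · refine ⟨hd0D, ?_⟩
          rw [hd0u1, hu2d, mul_zero, add_zero]
        · rw [Finset.mem_filter] at hd
          exact ⟨Finset.mem_of_mem_erase hd.1, hd.2⟩
      have h1 := Finset.card_le_card hsub
      rw [Finset.card_insert_of_notMem] at h1
      · have hx0' : p - j ≤ ((D.erase d0).filter (fun d => x0 * (u1 ⬝ᵥ d) + u2 ⬝ᵥ d = 0)).card := by
          convert hx0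
        omega
      · intro h2
        rw [Finset.mem_filter] at h2
        exact Finset.notMem_erase _ _ h2.1
    obtain ⟨u'', hfree2⟩ := exists_free2 hD0 husne (kill_le3 hD hA hnp t hDp htp husne)
    have h1 := pencil_noninj hD hA hnp h hh hp hfree2
    have h2 := sum_kill hfree2
    rw [Fintype.sum_option] at h2
    have h3 : (Finset.univ.filter (fun x : Option (ZMod p) => (kill D (mem us u'' x)).Nonempty)).card
        ≤ 1 + (Finset.univ.filter (fun x : ZMod p => (kill D (mem us u'' (some x))).Nonempty)).card := by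
      have hsub : Finset.univ.filter (fun x : Option (ZMod p) => (kill D (mem us u'' x)).Nonempty) ⊆
          insert none ((Finset.univ.filter
            (fun x : ZMod p => (kill D (mem us u'' (some x))).Nonempty)).image some) := by
        intro y hy
        rw [Finset.mem_filter] at hy
        rcases y with _ | y
        · exact Finset.mem_insert_self _ _
        · apply Finset.mem_insert_of_mem
          apply Finset.mem_image_of_mem
          rw [Finset.mem_filter]
          exact ⟨Finset.mem_univ _, hy.2⟩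
      have h4 := Finset.card_le_card hsub
      have h5 := Finset.card_insert_le none ((Finset.univ.filter
            (fun x : ZMod p => (kill D (mem us u'' (some x))).Nonempty)).image some)
      have h6 := Finset.card_image_le (s := (Finset.univ.filter
            (fun x : ZMod p => (kill D (mem us u'' (some x))).Nonempty))) (f := (some : ZMod p → Option (ZMod p)))
      omega
    have h4 : (Finset.univ.filter (fun x : ZMod p => (kill D (mem us u'' (some x))).Nonempty)).card ≤
        ∑ x : ZMod p, (kill D (mem us u'' (some x))).card := by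
      rw [Finset.card_filter]
      apply Finset.sum_le_sum
      intro y _
      split_ifs with hy
      · exact Finset.card_pos.mpr hy
      · exact Nat.zero_le _
    have h5 : (kill D (mem us u'' none)).card = (kill D us).card := rfl
    rw [h5] at h2
    omega

end KS41.Dir
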