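import Pool.Agent.KS6_41.Dir.Low3

/-!
Nonplanar `p`-sets: coverings, rich lines and rich planes.
-/

set_option autoImplicit false

open Polynomial Finset

namespace KS41.Dir

variable {p : ℕ} [Fact p.Prime]

lemma four_coplanar {A D : Finset (Vec p)} (hD : Dirs A D) (hA : A.card = p) (hp5 : 5 ≤ p)
    (hDp : D.card ≤ p + 2) :
    ∃ φ : Vec p, φ ≠ 0 ∧ ∃ c : ZMod p, 4 ≤ (A.filter (fun a => φ ⬝ᵥ a = c)).card := by
  classical
  have hex : ∀ q ∈ A.offDiag, ∃ d ∈ D, ∃ c : ZMod p, c ≠ 0 ∧ d = c • (q.1 - q.2) := by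
    intro q hq
    rw [Finset.mem_offDiag] at hq
    exact hD.cov q.1 hq.1 q.2 hq.2.1 hq.2.2
  choose! d hd c hc hdc using hex
  have hcard : D.card * 2 < A.offDiag.card := by
    rw [Finset.offDiag_card, hA]
    have h1 : D.card * 2 ≤ (p + 2) * 2 := Nat.mul_le_mul_right _ hDp
    have h2 : 5 * p ≤ p * p := Nat.mul_le_mul_right _ hp5
    omega
  obtain ⟨y, hy, hfib⟩ := Finset.exists_lt_card_fiber_of_mul_lt_card_of_maps_to hd hcard
  set F := A.offDiag.filter (fun q => d q = y) with hF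
  obtain ⟨⟨a, b⟩, hab⟩ := Finset.card_pos.mp (by omega : 0 < F.card)
  obtain ⟨⟨x, z⟩, hxz⟩ : ∃ q, q ∈ F \ {(a, b), (b, a)} := by
    apply Finset.card_pos.mp
    have h1 := Finset.le_card_sdiff ({(a, b), (b, a)} : Finset (Vec p × Vec p)) F
    have h2 : ({(a, b), (b, a)} : Finset (Vec p × Vec p)).card ≤ 2 := Finset.card_le_two
    omega
  rw [Finset.mem_sdiff] at hxz
  obtain ⟨hxz, hnot⟩ := hxz
  rw [Finset.mem_insert, Finset.mem_singleton, not_or, Prod.mk.injEq, Prod.mk.injEq] at hnot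
  obtain ⟨hnot1, hnot2⟩ := hnot
  rw [hF, Finset.mem_filter] at hab hxz
  have e1 := hdc _ hab.1
  have e2 := hdc _ hxz.1
  have c2 := hc _ hxz.1
  rw [hab.2] at e1
  rw [hxz.2] at e2
  simp only at e1 e2
  have hab1 := Finset.mem_offDiag.mp hab.1
  have hxz1 := Finset.mem_offDiag.mp hxz.1
  simp only at hab1 hxz1
  obtain ⟨haA, hbA, hne⟩ := hab1
  obtain ⟨hxA, hzA, hne'⟩ := hxz1
  -- a functional killing `a - b` kills `x - z`
  have hpar : ∀ φ : Vec p, φ ⬝ᵥ (a - b) = 0 → φ ⬝ᵥ b = φ ⬝ᵥ a ∧ φ ⬝ᵥ z = φ ⬝ᵥ x := by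
    intro φ hφ
    constructor
    · rw [dotProduct_sub, sub_eq_zero] at hφ; exact hφ.symm
    · have h1 : φ ⬝ᵥ (c (a, b) • (a - b)) = φ ⬝ᵥ (c (x, z) • (x - z)) := by rw [← e1, ← e2]
      rw [dotProduct_smul, dotProduct_smul, hφ, smul_zero, smul_eq_mul] at h1
      rcases mul_eq_zero.mp h1.symm with h2 | h2
      · exact absurd h2 c2
      · rw [dotProduct_sub, sub_eq_zero] at h2; exact h2.symm
  by_cases hall : x ≠ a ∧ x ≠ b ∧ z ≠ a ∧ z ≠ b
  · obtain ⟨n1, n2, n3, n4⟩ := hall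
    obtain ⟨φ, hφ, hφ1, hφ2⟩ := exists_orth2 (a - b) (a - x)
    obtain ⟨k1, k2⟩ := hpar φ hφ1
    rw [dotProduct_sub, sub_eq_zero] at hφ2
    refine ⟨φ, hφ, φ ⬝ᵥ a, ?_⟩
    have hsub : ({a, b, x, z} : Finset (Vec p)) ⊆ A.filter (fun y => φ ⬝ᵥ y = φ ⬝ᵥ a) := by
      intro y hy
      simp only [Finset.mem_insert, Finset.mem_singleton] at hy
      rw [Finset.mem_filter]
      rcases hy with rfl | rfl | rfl | rfl
      · exact ⟨haA, rfl⟩
      · exact ⟨hbA, k1⟩
      · exact ⟨hxA, hφ2.symm⟩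
      · exact ⟨hzA, k2.trans hφ2.symm⟩
    have h4 : ({a, b, x, z} : Finset (Vec p)).card = 4 := by
      rw [Finset.card_insert_of_notMem, Finset.card_insert_of_notMem, Finset.card_insert_of_notMem,
        Finset.card_singleton]
      · simpa using hne'
      · simp only [Finset.mem_insert, Finset.mem_singleton, not_or]
        exact ⟨n2.symm, n4.symm⟩
      · simp only [Finset.mem_insert, Finset.mem_singleton, not_or]
        exact ⟨hne, n1.symm, n3.symm⟩
    rw [← h4]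
    exact Finset.card_le_card hsub
  · -- three collinear points
    obtain ⟨w, hwA, hwa, hwb, hw⟩ : ∃ w ∈ A, w ≠ a ∧ w ≠ b ∧
        ∀ φ : Vec p, φ ⬝ᵥ (a - b) = 0 → φ ⬝ᵥ w = φ ⬝ᵥ a := by
      by_cases h1 : x = a
      · refine ⟨z, hzA, ?_, ?_, ?_⟩
        · intro h; exact hne' (by rw [h1, h])
        · intro h; exact hnot1 ⟨h1, h⟩
        · intro φ hφ; rw [(hpar φ hφ).2, h1]
      · by_cases h2 : x = b
        · refine ⟨z, hzA, ?_, ?_, ?_⟩
          · intro h; exact hnot2 ⟨h2, h⟩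
          · intro h; exact hne' (by rw [h2, h])
          · intro φ hφ; rw [(hpar φ hφ).2, h2]; exact (hpar φ hφ).1
        · refine ⟨x, hxA, h1, h2, ?_⟩
          intro φ hφ
          by_cases h3 : z = a
          · rw [← (hpar φ hφ).2, h3]
          · by_cases h4 : z = b
            · rw [← (hpar φ hφ).2, h4]; exact (hpar φ hφ).1
            · exact absurd ⟨h1, h2, h3, h4⟩ hall
    have h3 : ({a, b, w} : Finset (Vec p)).card = 3 := by
      rw [Finset.card_insert_of_notMem, Finset.card_insert_of_notMem, Finset.card_singleton]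
      · simpa using hwb.symm
      · simp only [Finset.mem_insert, Finset.mem_singleton, not_or]
        exact ⟨hne, hwa.symm⟩
    obtain ⟨u, hu⟩ : ∃ u, u ∈ A \ {a, b, w} := by
      apply Finset.card_pos.mp
      have h1 := Finset.le_card_sdiff ({a, b, w} : Finset (Vec p)) A
      omega
    rw [Finset.mem_sdiff] at hu
    obtain ⟨φ, hφ, hφ1, hφ2⟩ := exists_orth2 (a - b) (a - u)
    rw [dotProduct_sub, sub_eq_zero] at hφ2
    refine ⟨φ, hφ, φ ⬝ᵥ a, ?_⟩
    have hsub : insert u ({a, b, w} : Finset (Vec p)) ⊆ A.filter (fun y => φ ⬝ᵥ y = φ ⬝ᵥ a) := by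
      intro y hy
      simp only [Finset.mem_insert, Finset.mem_singleton] at hy
      rw [Finset.mem_filter]
      rcases hy with rfl | rfl | rfl | rfl
      · exact ⟨hu.1, hφ2.symm⟩
      · exact ⟨haA, rfl⟩
      · exact ⟨hbA, (hpar φ hφ1).1⟩
      · exact ⟨hwA, hw φ hφ1⟩
    have h4 := Finset.card_le_card hsub
    rw [Finset.card_insert_of_notMem hu.2, h3] at h4
    exact h4


/-- two planes covering `A` and a common line -/
lemma two_planes_card {A : Finset (Vec p)} (hA : A.card = p) {a v φ ψ : Vec p}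
    (hφv : φ ⬝ᵥ v = 0) (hψv : ψ ⬝ᵥ v = 0)
    (hcov : ∀ x ∈ A, φ ⬝ᵥ x = φ ⬝ᵥ a ∨ ψ ⬝ᵥ x = ψ ⬝ᵥ a) :
    (A.filter (fun x => φ ⬝ᵥ x ≠ φ ⬝ᵥ a)).card + (A.filter (fun x => ψ ⬝ᵥ x ≠ ψ ⬝ᵥ a)).card +
      (Ln A a v).card ≤ p := by
  set F1 := A.filter (fun x => φ ⬝ᵥ x ≠ φ ⬝ᵥ a) with hF1
  set F2 := A.filter (fun x => ψ ⬝ᵥ x ≠ ψ ⬝ᵥ a) with hF2
  have d12 : Disjoint F1 F2 := by
    rw [Finset.disjoint_left]
    intro x h1 h2
    rw [hF1, Finset.mem_filter] at h1
    rw [hF2, Finset.mem_filter] at h2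
    rcases hcov x h1.1 with h | h
    · exact h1.2 h
    · exact h2.2 h
  have d1 : Disjoint F1 (Ln A a v) := by
    rw [Finset.disjoint_left]
    intro x h1 h2
    rw [hF1, Finset.mem_filter] at h1
    exact h1.2 (dot_Ln hφv h2)
  have d2 : Disjoint F2 (Ln A a v) := by
    rw [Finset.disjoint_left]
    intro x h1 h2
    rw [hF2, Finset.mem_filter] at h1
    exact h1.2 (dot_Ln hψv h2)
  have hsub : F1 ∪ (F2 ∪ Ln A a v) ⊆ A := by
    intro x hx
    simp only [Finset.mem_union] at hx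
    rcases hx with hx | hx | hx
    · exact (Finset.mem_filter.mp hx).1
    · exact (Finset.mem_filter.mp hx).1
    · exact (mem_Ln.mp hx).1
  have h4 := Finset.card_le_card hsub
  rw [Finset.card_union_of_disjoint (Finset.disjoint_union_right.mpr ⟨d12, d1⟩),
    Finset.card_union_of_disjoint d2, hA] at h4
  omega

/-- at least `2 K` points are off any plane if there are no rich lines -/
lemma off_plane3 {A : Finset (Vec p)} (hA : A.card = p) (hnp : NonPlanar A)
    (K : ℕ) (hK1 : 1 ≤ K) (hKp : K < p)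
    (hM : ∀ k, 1 ≤ k → k ≤ K → ∀ u, M A k u = 0) (hline : ∀ a v, (Ln A a v).card ≤ K)
    (ψ : Vec p) (hψ : ψ ≠ 0) (c : ZMod p) :
    2 * K ≤ (A.filter (fun a => ψ ⬝ᵥ a ≠ c)).card := by
  by_contra hcon
  push Not at hcon
  have hb := plane_bound A hA K hKp hM hnp ψ hψ c
  obtain ⟨a0, ha0⟩ := Finset.card_pos.mp (by omega : 0 < (A.filter (fun a => ψ ⬝ᵥ a ≠ c)).card)
  have ha0' := Finset.mem_filter.mp ha0
  have hSc : ((A.filter (fun a => ψ ⬝ᵥ a ≠ c)).erase a0).card + 1 =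
      (A.filter (fun a => ψ ⬝ᵥ a ≠ c)).card := Finset.card_erase_add_one ha0
  have k1 : Cv a0 (K - 1) ((A.filter (fun a => ψ ⬝ᵥ a ≠ c)).erase a0) := by
    apply Cv.rado a0 _ (K - 1) (Finset.notMem_erase _ _)
    · intro v hv J hJ hJv
      have hsub : insert a0 J ⊆ Ln A a0 v := by
        intro x hx
        rcases Finset.mem_insert.mp hx with rfl | hx
        · exact self_mem_Ln ha0'.1
        · rw [mem_Ln]
          exact ⟨(Finset.mem_filter.mp (Finset.mem_of_mem_erase (hJ hx))).1, hJv x hx⟩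
      have h4 := Finset.card_le_card hsub
      rw [Finset.card_insert_of_notMem (fun h => Finset.notMem_erase _ _ (hJ h))] at h4
      have := hline a0 v
      omega
    · intro φ _ J hJ _
      have := Finset.card_le_card hJ
      omega
    · omega
  have k2 : Cv a0 1 (A.filter (fun a => ψ ⬝ᵥ a = c)) :=
    Cv.plane ψ c ha0'.2 (fun x hx => (Finset.mem_filter.mp hx).2)
  apply Cv.false hA K hKp hM ha0'.1
  apply (k1.union k2).mono (by omega)
  intro x hx
  rw [Finset.mem_erase] at hx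
  by_cases hxc : ψ ⬝ᵥ x = c
  · exact Finset.mem_union_right _ (Finset.mem_filter.mpr ⟨hx.2, hxc⟩)
  · exact Finset.mem_union_left _ (Finset.mem_erase.mpr ⟨hx.1, Finset.mem_filter.mpr ⟨hx.2, hxc⟩⟩)

/-- a plane section has at most `p - 2 K` points if there are no rich lines -/
lemma section_le {A : Finset (Vec p)} (hA : A.card = p) (hnp : NonPlanar A)
    (K : ℕ) (hK1 : 1 ≤ K) (hKp : K < p)
    (hM : ∀ k, 1 ≤ k → k ≤ K → ∀ u, M A k u = 0) (hline : ∀ a v, (Ln A a v).card ≤ K)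
    (φ : Vec p) (hφ : φ ≠ 0) (c : ZMod p) (F : Finset (Vec p)) (hFA : F ⊆ A)
    (hF : ∀ x ∈ F, φ ⬝ᵥ x = c) : F.card + 2 * K ≤ p := by
  set G := A.filter (fun a => φ ⬝ᵥ a ≠ c) with hG
  have h1 : 2 * K ≤ G.card := off_plane3 hA hnp K hK1 hKp hM hline φ hφ c
  have h2 : F ∪ G ⊆ A :=
    Finset.union_subset hFA (Finset.filter_subset _ _)
  have h3 : Disjoint F G := by
    rw [Finset.disjoint_left]
    intro x hx hx'
    exact (Finset.mem_filter.mp hx').2 (hF x hx)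
  have h4 := Finset.card_le_card h2
  rw [Finset.card_union_of_disjoint h3, hA] at h4
  omega

/-- the conditions for the covering theorem, without rich lines -/
lemma Cv.rado' {A : Finset (Vec p)} (hA : A.card = p) (hnp : NonPlanar A)
    (K : ℕ) (hK1 : 1 ≤ K) (hKp : K < p)
    (hM : ∀ k, 1 ≤ k → k ≤ K → ∀ u, M A k u = 0) (hline : ∀ a v, (Ln A a v).card ≤ K)
    (k : ℕ) (hk1 : K ≤ k + 1) (hk2 : p ≤ 2 * k + 2 * K + 1) {a0 : Vec p} (ha0 : a0 ∈ A)
    (S : Finset (Vec p)) (hSA : S ⊆ A) (h0 : a0 ∉ S) (hS : S.card ≤ 3 * k) : Cv a0 k S := by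
  apply Cv.rado a0 S k h0
  · intro v hv J hJ hJv
    have hsub : insert a0 J ⊆ Ln A a0 v := by
      intro x hx
      rcases Finset.mem_insert.mp hx with rfl | hx
      · exact self_mem_Ln ha0
      · rw [mem_Ln]
        exact ⟨hSA (hJ hx), hJv x hx⟩
    have h4 := Finset.card_le_card hsub
    rw [Finset.card_insert_of_notMem (fun h => h0 (hJ h))] at h4
    have := hline a0 v
    omega
  · intro φ hφ J hJ hJφ
    have := section_le hA hnp K hK1 hKp hM hline φ hφ (φ ⬝ᵥ a0) (insert a0 J)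
      (Finset.insert_subset ha0 (hJ.trans hSA)) (by
        intro x hx
        rcases Finset.mem_insert.mp hx with rfl | hx
        · rfl
        · exact hJφ x hx)
    rw [Finset.card_insert_of_notMem (fun h => h0 (hJ h))] at this
    omega
  · exact hS

/-- without rich lines there is no rich plane -/
lemma rich_plane_false {A : Finset (Vec p)} (hA : A.card = p) (hnp : NonPlanar A)
    (K : ℕ) (hK1 : 1 ≤ K) (hKp : K < p)
    (hM : ∀ k, 1 ≤ k → k ≤ K → ∀ u, M A k u = 0) (hline : ∀ a v, (Ln A a v).card ≤ K)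
    (hpK : p + 1 ≤ 4 * K) (ψ : Vec p) (hψ : ψ ≠ 0) (c : ZMod p)
    (hc : p + 2 ≤ 3 * K + (A.filter (fun a => ψ ⬝ᵥ a = c)).card) : False := by
  have h1 : (A.filter (fun a => ψ ⬝ᵥ a = c)).card + (A.filter (fun a => ψ ⬝ᵥ a ≠ c)).card = A.card :=
    Finset.card_filter_add_card_filter_not (s := A) (fun a => ψ ⬝ᵥ a = c)
  have h2 := off_plane3 hA hnp K hK1 hKp hM hline ψ hψ c
  obtain ⟨a0, ha0⟩ := Finset.card_pos.mp (by omega : 0 < (A.filter (fun a => ψ ⬝ᵥ a ≠ c)).card)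
  have ha0' := Finset.mem_filter.mp ha0
  have hSc : ((A.filter (fun a => ψ ⬝ᵥ a ≠ c)).erase a0).card + 1 =
      (A.filter (fun a => ψ ⬝ᵥ a ≠ c)).card := Finset.card_erase_add_one ha0
  have k1 : Cv a0 (K - 1) ((A.filter (fun a => ψ ⬝ᵥ a ≠ c)).erase a0) :=
    Cv.rado' hA hnp K hK1 hKp hM hline (K - 1) (by omega) (by omega) ha0'.1 _
      ((Finset.erase_subset _ _).trans (Finset.filter_subset _ _)) (Finset.notMem_erase _ _)
      (by omega)
  have k2 : Cv a0 1 (A.filter (fun a => ψ ⬝ᵥ a = c)) :=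
    Cv.plane ψ c ha0'.2 (fun x hx => (Finset.mem_filter.mp hx).2)
  apply Cv.false hA K hKp hM ha0'.1
  apply (k1.union k2).mono (by omega)
  intro x hx
  rw [Finset.mem_erase] at hx
  by_cases hxc : ψ ⬝ᵥ x = c
  · exact Finset.mem_union_right _ (Finset.mem_filter.mpr ⟨hx.2, hxc⟩)
  · exact Finset.mem_union_left _ (Finset.mem_erase.mpr ⟨hx.1, Finset.mem_filter.mpr ⟨hx.2, hxc⟩⟩)

/-- the basic case: at most `p + 2` directions and `p ≤ 3 K + 2` -/
theorem basic_false {A D : Finset (Vec p)} (hD : Dirs A D) (hA : A.card = p) (hnp : NonPlanar A)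
    (hDp : D.card ≤ p + 2) (hp5 : 5 ≤ p) (K : ℕ) (hKp : K < p) (hpK : p ≤ 3 * K + 2)
    (hM : ∀ k, 1 ≤ k → k ≤ K → ∀ u, M A k u = 0) : False := by
  have hpr := (Fact.out : p.Prime)
  obtain ⟨ψ, hψ, c, h4⟩ := four_coplanar hD hA hp5 hDp
  have h1 : (A.filter (fun a => ψ ⬝ᵥ a = c)).card + (A.filter (fun a => ψ ⬝ᵥ a ≠ c)).card = A.card :=
    Finset.card_filter_add_card_filter_not (s := A) (fun a => ψ ⬝ᵥ a = c)
  by_cases hK1 : K = 1
  · have h2 := plane_bound A hA K hKp hM hnp ψ hψ c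
    omega
  · have hK2 : 2 ≤ K := by omega
    have hline : ∀ a v, (Ln A a v).card ≤ K := by
      intro a v
      by_contra hcon
      push Not at hcon
      obtain ⟨φ, χ, hφ, hχ, hφv, hχv, hcov⟩ := rich_line hD hA hnp K (by omega) (by omega) hKp
        (by omega) hM hcon
      have h3 := two_planes_card hA hφv hχv hcov
      have h5 := plane_bound A hA K hKp hM hnp φ hφ (φ ⬝ᵥ a)
      have h6 := plane_bound A hA K hKp hM hnp χ hχ (χ ⬝ᵥ a)
      omega
    have hp8 : p ≠ 8 := by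
      rintro rfl
      revert hpr; decide
    exact rich_plane_false hA hnp K (by omega) hKp hM hline (by omega) ψ hψ c (by omega)

end KS41.Dir
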