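import Mathlib

/-!
Two subsets of the multiplicative group of `F_p` of size about `(p - 1) / 3` with few quotients lie in
cosets of the subgroup of index three.
-/

set_option autoImplicit false

open Finset

namespace KS41.Dir

variable {p : ℕ} [Fact p.Prime]

/-- the quotients -/
def quo (S T : Finset (ZMod p)) : Finset (ZMod p) := (S ×ˢ T).image (fun q => q.1 / q.2)

lemma mem_quo {S T : Finset (ZMod p)} {r : ZMod p} : r ∈ quo S T ↔ ∃ s ∈ S, ∃ y ∈ T, r = s / y := by
  rw [quo, Finset.mem_image]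
  constructor
  · rintro ⟨⟨s, y⟩, hq, h⟩
    rw [Finset.mem_product] at hq
    exact ⟨s, hq.1, y, hq.2, h.symm⟩
  · rintro ⟨s, hs, y, hy, h⟩
    exact ⟨(s, y), Finset.mem_product.mpr ⟨hs, hy⟩, h.symm⟩

lemma card_le_quo_left {S T : Finset (ZMod p)} (hT : T.Nonempty) (hT0 : (0 : ZMod p) ∉ T) :
    S.card ≤ (quo S T).card := by
  obtain ⟨y, hy⟩ := hT
  have hy0 : y ≠ 0 := fun h => hT0 (h ▸ hy)
  apply Finset.card_le_card_of_injOn (fun s => s / y)
  · intro s hs
    exact mem_quo.mpr ⟨s, hs, y, hy, rfl⟩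
  · intro s _ s' _ h
    exact (div_left_inj' hy0).mp h

lemma card_le_quo_right {S T : Finset (ZMod p)} (hS : S.Nonempty) (hS0 : (0 : ZMod p) ∉ S) :
    T.card ≤ (quo S T).card := by
  obtain ⟨s, hs⟩ := hS
  have hs0 : s ≠ 0 := fun h => hS0 (h ▸ hs)
  apply Finset.card_le_card_of_injOn (fun y => s / y)
  · intro y hy
    exact mem_quo.mpr ⟨s, hs, y, hy, rfl⟩
  · intro y _ y' _ h
    have h1 : s / y = s / y' := h
    rw [div_eq_mul_inv, div_eq_mul_inv] at h1
    exact inv_injective (mul_left_cancel₀ hs0 h1)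

/-- large intersections of dilates -/
lemma inter_large {T : Finset (ZMod p)} {R : Finset (ZMod p)} {c h : ZMod p}
    (hh : h ≠ 0) (h1 : ∀ y ∈ T, ∃ r ∈ R, y = c * r) (h2 : ∀ y ∈ T, ∃ r ∈ R, h * y = c * r) :
    2 * T.card ≤ R.card + (T ∩ T.image (fun y => h * y)).card := by
  have h3 : (T.image (fun y => h * y)).card = T.card :=
    Finset.card_image_of_injective _ (mul_right_injective₀ hh)
  have h4 : (T ∪ T.image (fun y => h * y)).card ≤ R.card := by
    refine le_trans (Finset.card_le_card ?_) (Finset.card_image_le (s := R) (f := fun r => c * r))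
    intro y hy
    rw [Finset.mem_image]
    rcases Finset.mem_union.mp hy with hy | hy
    · obtain ⟨r, hr, h⟩ := h1 y hy
      exact ⟨r, hr, h.symm⟩
    · obtain ⟨z, hz, rfl⟩ := Finset.mem_image.mp hy
      obtain ⟨r, hr, h⟩ := h2 z hz
      exact ⟨r, hr, h.symm⟩
  have h5 := Finset.card_union_add_card_inter T (T.image (fun y => h * y))
  omega

theorem mult_structure (S T : Finset (ZMod p)) (hS0 : (0 : ZMod p) ∉ S) (hT0 : (0 : ZMod p) ∉ T)
    (e : ℕ) (hR : (quo S T).card ≤ T.card + e) (hS : T.card + e < 2 * S.card) (h2e : 2 * e < T.card)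
    (h1 : 2 * (T.card * T.card) < (p - 1) * (T.card - e)) (h4 : p - 1 < 4 * T.card) :
    p % 3 = 1 ∧ (∀ s ∈ S, ∀ s' ∈ S, (s / s') ^ ((p - 1) / 3) = 1) ∧
      (∀ y ∈ T, ∀ y' ∈ T, (y / y') ^ ((p - 1) / 3) = 1) := by
  classical
  have hSn : ∀ s ∈ S, s ≠ 0 := fun s hs h => hS0 (h ▸ hs)
  have hTn : ∀ y ∈ T, y ≠ 0 := fun y hy h => hT0 (h ▸ hy)
  set N : ZMod p → ℕ := fun h => (T ∩ T.image (fun y => h * y)).card with hN
  -- quotients of `S`
  have ha : ∀ s ∈ S, ∀ s' ∈ S, T.card - e ≤ N (s / s') := by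
    intro s hs s' hs'
    have h1 := inter_large (T := T.image (fun y => y⁻¹)) (R := quo S T) (c := s⁻¹) (h := s' / s)
      (div_ne_zero (hSn _ hs') (hSn _ hs)) (by
        intro z hz
        obtain ⟨y, hy, rfl⟩ := Finset.mem_image.mp hz
        refine ⟨s / y, mem_quo.mpr ⟨s, hs, y, hy, rfl⟩, ?_⟩
        have := hSn _ hs
        have := hTn _ hy
        field_simp) (by
        intro z hz
        obtain ⟨y, hy, rfl⟩ := Finset.mem_image.mp hz
        refine ⟨s' / y, mem_quo.mpr ⟨s', hs', y, hy, rfl⟩, ?_⟩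
        have := hSn _ hs
        have := hTn _ hy
        field_simp)
    rw [Finset.card_image_of_injective _ inv_injective] at h1
    have h2 : (T.image (fun y => y⁻¹) ∩ (T.image (fun y => y⁻¹)).image (fun y => s' / s * y)).card ≤
        N (s / s') := by
      apply Finset.card_le_card_of_injOn (fun y => y⁻¹)
      · intro z hz
        rw [Finset.mem_coe, Finset.mem_inter, Finset.mem_image, Finset.mem_image] at hz
        obtain ⟨⟨y, hy, rfl⟩, ⟨w, hw, hwy⟩⟩ := hz
        obtain ⟨y', hy', rfl⟩ := Finset.mem_image.mp hw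
        rw [Finset.mem_coe, Finset.mem_inter, Finset.mem_image]
        refine ⟨by show (y⁻¹)⁻¹ ∈ T; rw [inv_inv]; exact hy, y', hy', ?_⟩
        show s / s' * y' = (y⁻¹)⁻¹
        rw [← hwy, mul_inv, inv_inv, inv_div]
      · intro z _ z' _ h
        exact inv_injective h
    omega
  -- quotients of `T` are quotients of `S`
  have hb : ∀ y ∈ T, ∀ y' ∈ T, ∃ s ∈ S, ∃ s' ∈ S, y / y' = s / s' := by
    intro y hy y' hy'
    have h1 := inter_large (T := S) (R := quo S T) (c := y) (h := y / y')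
      (div_ne_zero (hTn _ hy) (hTn _ hy')) (by
        intro s hs
        refine ⟨s / y, mem_quo.mpr ⟨s, hs, y, hy, rfl⟩, ?_⟩
        have := hTn _ hy
        field_simp) (by
        intro s hs
        refine ⟨s / y', mem_quo.mpr ⟨s, hs, y', hy', rfl⟩, ?_⟩
        ring)
    obtain ⟨s, hs⟩ := Finset.card_pos.mp
      (by omega : 0 < (S ∩ S.image (fun s => y / y' * s)).card)
    rw [Finset.mem_inter, Finset.mem_image] at hs
    obtain ⟨hs, s', hs', h⟩ := hs
    refine ⟨s, hs, s', hs', ?_⟩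
    rw [← h, mul_div_assoc, div_self (hSn _ hs'), mul_one]
  set H := quo T T with hH
  have hHN : ∀ h ∈ H, T.card - e ≤ N h := by
    intro h hh
    obtain ⟨y, hy, y', hy', rfl⟩ := mem_quo.mp hh
    obtain ⟨s, hs, s', hs', h⟩ := hb y hy y' hy'
    rw [h]
    exact ha s hs s' hs'
  have hH0 : (0 : ZMod p) ∉ H := by
    intro h
    obtain ⟨y, hy, y', hy', h0⟩ := mem_quo.mp h
    exact div_ne_zero (hTn _ hy) (hTn _ hy') h0.symm
  obtain ⟨y0, hy0⟩ : T.Nonempty := Finset.card_pos.mp (by omega)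
  have hH1 : (1 : ZMod p) ∈ H := mem_quo.mpr ⟨y0, hy0, y0, hy0, (div_self (hTn _ hy0)).symm⟩
  have hHinv : ∀ h ∈ H, h⁻¹ ∈ H := by
    intro h hh
    obtain ⟨y, hy, y', hy', rfl⟩ := mem_quo.mp hh
    rw [inv_div]
    exact mem_quo.mpr ⟨y', hy', y, hy, rfl⟩
  have hHmul : ∀ h ∈ H, ∀ h' ∈ H, h * h' ∈ H := by
    intro h hh h' hh'
    have hne : h ≠ 0 := fun e => hH0 (e ▸ hh)
    have hne' : h' ≠ 0 := fun e => hH0 (e ▸ hh')
    have h1 := hHN _ (hHinv h hh)
    have h2 := hHN _ hh'
    have h3 := Finset.card_union_add_card_inter (T ∩ T.image (fun y => h⁻¹ * y))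
      (T ∩ T.image (fun y => h' * y))
    have h4 : ((T ∩ T.image (fun y => h⁻¹ * y)) ∪ (T ∩ T.image (fun y => h' * y))).card ≤ T.card :=
      Finset.card_le_card (Finset.union_subset Finset.inter_subset_left Finset.inter_subset_left)
    have h1' : T.card - e ≤ (T ∩ T.image (fun y => h⁻¹ * y)).card := h1
    have h2' : T.card - e ≤ (T ∩ T.image (fun y => h' * y)).card := h2
    obtain ⟨y, hy⟩ := Finset.card_pos.mp (by omega : 0 < ((T ∩ T.image (fun y => h⁻¹ * y)) ∩
      (T ∩ T.image (fun y => h' * y))).card)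
    simp only [Finset.mem_inter, Finset.mem_image] at hy
    obtain ⟨⟨hy, y2, hy2, e2⟩, ⟨_, y1, hy1, e1⟩⟩ := hy
    refine mem_quo.mpr ⟨y2, hy2, y1, hy1, ?_⟩
    have hy1n := hTn _ hy1
    rw [eq_div_iff hy1n, mul_assoc, e1, ← e2, ← mul_assoc, mul_inv_cancel₀ hne, one_mul]
  -- the size of `H`
  have hHlow : T.card ≤ H.card := card_le_quo_left ⟨y0, hy0⟩ hT0
  have hHup : H.card * (T.card - e) ≤ T.card * T.card := by
    rw [← Finset.card_product]
    have hmap : ∀ q ∈ T ×ˢ T, (q : ZMod p × ZMod p).1 / q.2 ∈ H := by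
      intro q hq
      rw [Finset.mem_product] at hq
      exact mem_quo.mpr ⟨q.1, hq.1, q.2, hq.2, rfl⟩
    rw [Finset.card_eq_sum_card_fiberwise (f := fun q : ZMod p × ZMod p => q.1 / q.2) (t := H)
      (fun q hq => hmap q hq)]
    rw [← smul_eq_mul]
    apply Finset.card_nsmul_le_sum
    intro h hh
    have hne : h ≠ 0 := fun e => hH0 (e ▸ hh)
    refine (hHN h hh).trans ?_
    apply Finset.card_le_card_of_injOn (fun y => (y, y / h))
    · intro y hy
      rw [Finset.mem_coe, Finset.mem_inter, Finset.mem_image] at hy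
      obtain ⟨hy, z, hz, hzy⟩ := hy
      rw [Finset.mem_coe, Finset.mem_filter, Finset.mem_product]
      have hz' : y / h = z := by rw [← hzy, mul_comm, mul_div_assoc, div_self hne, mul_one]
      refine ⟨⟨hy, by show y / h ∈ T; rw [hz']; exact hz⟩, ?_⟩
      show y / (y / h) = h
      rw [div_div_cancel₀ (hTn _ hy)]
    · intro y _ y' _ h
      exact (Prod.mk.inj h).1
  -- the subgroup
  let G : Subgroup (ZMod p)ˣ :=
    { carrier := {u | (u : ZMod p) ∈ H}
      mul_mem' := by
        intro u w hu hw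
        show ((u * w : (ZMod p)ˣ) : ZMod p) ∈ H
        rw [Units.val_mul]
        exact hHmul _ hu _ hw
      one_mem' := by
        show ((1 : (ZMod p)ˣ) : ZMod p) ∈ H
        rw [Units.val_one]; exact hH1
      inv_mem' := by
        intro u hu
        show ((u⁻¹ : (ZMod p)ˣ) : ZMod p) ∈ H
        rw [Units.val_inv_eq_inv_val]
        exact hHinv _ hu }
  have hGcard : Nat.card G = H.card := by
    have h1 : (Finset.univ.filter (fun u : (ZMod p)ˣ => u ∈ G)).card = Nat.card G := by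
      rw [Nat.card_eq_fintype_card, Fintype.card_subtype]
    rw [← h1]
    have h2 : (Finset.univ.filter (fun u : (ZMod p)ˣ => u ∈ G)).image Units.val = H := by
      ext x
      rw [Finset.mem_image]
      constructor
      · rintro ⟨u, hu, rfl⟩
        exact (Finset.mem_filter.mp hu).2
      · intro hx
        have hx0 : x ≠ 0 := fun e => hH0 (e ▸ hx)
        refine ⟨Units.mk0 x hx0, ?_, rfl⟩
        rw [Finset.mem_filter]
        exact ⟨Finset.mem_univ _, hx⟩
    rw [← h2, Finset.card_image_of_injective _ Units.val_injective]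
  have hdvd : H.card ∣ p - 1 := by
    rw [← hGcard, ← ZMod.card_units p, ← Nat.card_eq_fintype_card]
    exact Subgroup.card_subgroup_dvd_card G
  have hsmall : 2 * H.card < p - 1 := by
    by_contra hcon
    push Not at hcon
    have e1 : (p - 1) * (T.card - e) ≤ 2 * (T.card * T.card) := by
      calc (p - 1) * (T.card - e) ≤ (2 * H.card) * (T.card - e) := Nat.mul_le_mul_right _ hcon
        _ = 2 * (H.card * (T.card - e)) := by ring
        _ ≤ _ := Nat.mul_le_mul_left _ hHup
    omega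
  have hbig : p - 1 < 4 * H.card := by omega
  obtain ⟨k, hk⟩ := hdvd
  have hk3 : k = 3 := by
    have hk2 : 2 < k := by
      by_contra hcon
      have : k ≤ 2 := by omega
      have := Nat.mul_le_mul_left H.card this
      omega
    have hk4 : k < 4 := by
      by_contra hcon
      have : 4 ≤ k := by omega
      have := Nat.mul_le_mul_left H.card this
      omega
    omega
  rw [hk3] at hk
  have hm : (p - 1) / 3 = H.card := by omega
  have hpow : ∀ h ∈ H, h ^ ((p - 1) / 3) = 1 := by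
    intro h hh
    have hne : h ≠ 0 := fun e => hH0 (e ▸ hh)
    have hmem : Units.mk0 h hne ∈ G := hh
    have h1 : (⟨Units.mk0 h hne, hmem⟩ : G) ^ Nat.card G = 1 := pow_card_eq_one'
    have h2 := congrArg (fun g : G => ((g : (ZMod p)ˣ) : ZMod p)) h1
    simp only [SubmonoidClass.mk_pow, Units.val_pow_eq_pow_val, Units.val_mk0,
      OneMemClass.coe_one, Units.val_one] at h2
    rw [hm, ← hGcard]
    exact h2
  refine ⟨by omega, ?_, fun y hy y' hy' => hpow _ (mem_quo.mpr ⟨y, hy, y', hy', rfl⟩)⟩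
  intro s hs s' hs'
  apply hpow
  have h1 := ha s hs s' hs'
  obtain ⟨y, hy⟩ := Finset.card_pos.mp
    (by omega : 0 < N (s / s'))
  rw [Finset.mem_inter, Finset.mem_image] at hy
  obtain ⟨hy, y', hy', h⟩ := hy
  refine mem_quo.mpr ⟨y, hy, y', hy', ?_⟩
  rw [← h, mul_div_assoc, div_self (hTn _ hy'), mul_one]

end KS41.Dir
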