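import Pool.Agent.KS6_41.Dir.Main3
import Pool.Agent.KS6_41.Dir.Kill

/-!
Coplanar quadruples: without rich lines there are too many directions.
-/

set_option autoImplicit false

open Polynomial Finset

namespace KS41.Dir

variable {p : ℕ} [Fact p.Prime]

/-- a functional that separates a vector from a line -/
lemma sep_functional {e w : Vec p} (he : e ≠ 0) (hw : ∀ s : ZMod p, w ≠ s • e) :
    ∃ θ : Vec p, θ ⬝ᵥ e = 0 ∧ θ ⬝ᵥ w ≠ 0 := by
  obtain ⟨i, hi⟩ : ∃ i, e i ≠ 0 := by
    by_contra hcon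
    push Not at hcon
    exact he (funext hcon)
  have hne := hw (w i / e i)
  obtain ⟨l, hl⟩ : ∃ l, w l ≠ ((w i / e i) • e) l := by
    by_contra hcon
    push Not at hcon
    exact hne (funext hcon)
  refine ⟨e i • (Pi.single l 1 : Vec p) - e l • (Pi.single i 1 : Vec p), ?_, ?_⟩
  · rw [sub_dotProduct, smul_dotProduct, smul_dotProduct, single_dotProduct, single_dotProduct]
    simp only [smul_eq_mul]; ring
  · rw [sub_dotProduct, smul_dotProduct, smul_dotProduct, single_dotProduct, single_dotProduct]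
    simp only [smul_eq_mul, one_mul]
    intro h
    apply hl
    rw [Pi.smul_apply, smul_eq_mul]
    field_simp
    linear_combination h

/-- a coplanar quadruple in a plane avoiding `a0` -/
lemma quad_exists {A D : Finset (Vec p)} (hD : Dirs A D) {a0 : Vec p} (m : ℕ)
    (hm : ∀ φ : Vec p, φ ≠ 0 → (A.filter (fun x => φ ⬝ᵥ x = φ ⬝ᵥ a0)).card ≤ m)
    (R : Finset (Vec p)) (hRA : R ⊆ A) (h0 : a0 ∉ R) (hmR : m < R.card)
    (hcard : D.card * m + R.card * m < R.card * R.card - R.card) :
    ∃ Q ⊆ R, Q.card = 4 ∧ Cv a0 1 Q := by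
  classical
  by_contra hcon
  push Not at hcon
  have hex : ∀ q ∈ R.offDiag, ∃ d ∈ D, ∃ c : ZMod p, c ≠ 0 ∧ d = c • (q.1 - q.2) := by
    intro q hq
    rw [Finset.mem_offDiag] at hq
    exact hD.cov q.1 (hRA hq.1) q.2 (hRA hq.2.1) hq.2.2
  choose! d hd c hc hdc using hex
  rw [← Finset.offDiag_card] at hcard
  set P : Vec p × Vec p → Prop := fun q => ∃ θ : Vec p, θ ⬝ᵥ (q.1 - q.2) = 0 ∧ θ ⬝ᵥ q.1 ≠ θ ⬝ᵥ a0
    with hP
  have hsplit : (R.offDiag.filter P).card + (R.offDiag.filter (fun q => ¬ P q)).card =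
      R.offDiag.card := Finset.card_filter_add_card_filter_not (s := R.offDiag) P
  -- pairs collinear with `a0`
  have hON : (R.offDiag.filter (fun q => ¬ P q)).card ≤ R.card * m := by
    rw [Finset.card_eq_sum_card_fiberwise (f := Prod.fst) (t := R) (by
      intro q hq
      exact (Finset.mem_offDiag.mp (Finset.mem_filter.mp hq).1).1)]
    rw [← smul_eq_mul]
    apply Finset.sum_le_card_nsmul
    intro x hx
    obtain ⟨φ, hφ, hφx⟩ := exists_nonzero_orth (x - a0)
    rw [dotProduct_sub, sub_eq_zero] at hφx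
    refine le_trans ?_ (hm φ hφ)
    apply Finset.card_le_card_of_injOn Prod.snd
    · intro q hq
      have hq' := hq
      rw [Finset.mem_coe, Finset.mem_filter, Finset.mem_filter, Finset.mem_offDiag] at hq'
      obtain ⟨⟨⟨h1, h2, h3⟩, h4⟩, h5⟩ := hq'
      rw [Finset.mem_coe, Finset.mem_filter]
      refine ⟨hRA h2, ?_⟩
      subst h5
      have hs : ∃ s : ZMod p, q.1 - a0 = s • (q.1 - q.2) := by
        by_contra hne
        push Not at hne
        obtain ⟨θ, e1, e2⟩ := sep_functional (sub_ne_zero.mpr h3) hne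
        apply h4
        refine ⟨θ, e1, ?_⟩
        rw [dotProduct_sub] at e2
        exact sub_ne_zero.mp e2
      obtain ⟨s, hs⟩ := hs
      have hs0 : s ≠ 0 := by
        rintro rfl
        rw [zero_smul, sub_eq_zero] at hs
        exact h0 (hs ▸ h1)
      have e3 : φ ⬝ᵥ (q.1 - a0) = φ ⬝ᵥ (s • (q.1 - q.2)) := by rw [hs]
      rw [dotProduct_sub, hφx, sub_self, dotProduct_smul, smul_eq_mul] at e3
      have e4 := (mul_eq_zero.mp e3.symm).resolve_left hs0
      rw [dotProduct_sub, sub_eq_zero, hφx] at e4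
      exact e4.symm
    · intro q hq q' hq' hqq
      have e1 := (Finset.mem_filter.mp hq).2
      have e2 := (Finset.mem_filter.mp hq').2
      exact Prod.ext (e1.trans e2.symm) hqq
  -- the other pairs
  have hOFF : (R.offDiag.filter P).card ≤ D.card * m := by
    rw [Finset.card_eq_sum_card_fiberwise (f := d) (t := D) (by
      intro q hq
      exact hd q (Finset.mem_filter.mp hq).1)]
    rw [← smul_eq_mul]
    apply Finset.sum_le_card_nsmul
    intro e he
    set F := (R.offDiag.filter P).filter (fun q => d q = e) with hF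
    have he0 : e ≠ 0 := by
      obtain ⟨a, _, b, _, hab, rfl⟩ := hD.rep e he
      exact sub_ne_zero.mpr hab
    have hFm : ∀ q ∈ F, q.1 ∈ R ∧ q.2 ∈ R ∧ q.1 ≠ q.2 ∧
        (∀ θ : Vec p, θ ⬝ᵥ e = 0 → θ ⬝ᵥ q.2 = θ ⬝ᵥ q.1) ∧
        ∃ θ : Vec p, θ ⬝ᵥ e = 0 ∧ θ ⬝ᵥ q.1 ≠ θ ⬝ᵥ a0 := by
      intro q hq
      rw [hF, Finset.mem_filter, Finset.mem_filter] at hq
      have h1 := Finset.mem_offDiag.mp hq.1.1
      have h2 := hdc q hq.1.1
      rw [hq.2] at h2
      refine ⟨h1.1, h1.2.1, h1.2.2, ?_, ?_⟩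
      · intro θ hθ
        rw [h2, dotProduct_smul, dotProduct_sub, smul_eq_mul] at hθ
        exact (sub_eq_zero.mp ((mul_eq_zero.mp hθ).resolve_left (hc q hq.1.1))).symm
      · obtain ⟨θ, e1, e2⟩ := hq.1.2
        refine ⟨θ, ?_, e2⟩
        rw [h2, dotProduct_smul, e1, smul_zero]
    rcases Finset.eq_empty_or_nonempty F with hemp | ⟨q0, hq0⟩
    · rw [hemp, Finset.card_empty]; exact Nat.zero_le _
    obtain ⟨n1, n2, n3, n4, θ, hθe, hθ⟩ := hFm q0 hq0
    obtain ⟨φ0, hφ0, hφ0e, hφ0a⟩ := exists_orth2 e (q0.1 - a0)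
    rw [dotProduct_sub, sub_eq_zero] at hφ0a
    have hall : ∀ q ∈ F, φ0 ⬝ᵥ q.1 = φ0 ⬝ᵥ a0 := by
      intro q hq
      by_contra hne
      obtain ⟨φ, hφ, hφe, hφq⟩ := exists_orth2 e (q.1 - q0.1)
      rw [dotProduct_sub, sub_eq_zero] at hφq
      obtain ⟨m1, m2, m3, m4, _⟩ := hFm q hq
      have hav : φ ⬝ᵥ a0 ≠ φ ⬝ᵥ q0.1 := by
        intro h
        apply hφ
        apply eq_zero_of_kill (v := e) (w2 := q0.1 - a0) (w3 := q.1 - a0) (θ2 := θ) (θ3 := φ0) he0
          hθe (by rw [dotProduct_sub]; exact sub_ne_zero.mpr hθ) hφ0e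
          (by rw [dotProduct_sub, hφ0a, sub_self])
          (by rw [dotProduct_sub]; exact sub_ne_zero.mpr hne) hφe
          (by rw [dotProduct_sub, h, sub_self]) (by rw [dotProduct_sub, hφq, h, sub_self])
      have s1 : q.1 ≠ q0.1 := fun h => hne (by rw [h, hφ0a])
      have s2 : q.1 ≠ q0.2 := fun h => hne (by rw [h, n4 φ0 hφ0e, hφ0a])
      have s3 : q.2 ≠ q0.1 := fun h => hne (by rw [← m4 φ0 hφ0e, h, hφ0a])
      have s4 : q.2 ≠ q0.2 := fun h => hne (by rw [← m4 φ0 hφ0e, h, n4 φ0 hφ0e, hφ0a])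
      apply hcon {q.1, q.2, q0.1, q0.2}
      · intro x hx
        simp only [Finset.mem_insert, Finset.mem_singleton] at hx
        rcases hx with rfl | rfl | rfl | rfl
        · exact m1
        · exact m2
        · exact n1
        · exact n2
      · rw [Finset.card_insert_of_notMem, Finset.card_insert_of_notMem,
          Finset.card_insert_of_notMem, Finset.card_singleton]
        · simpa using n3
        · simp only [Finset.mem_insert, Finset.mem_singleton, not_or]
          exact ⟨s3, s4⟩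
        · simp only [Finset.mem_insert, Finset.mem_singleton, not_or]
          exact ⟨m3, s1, s2⟩
      · apply Cv.plane φ (φ ⬝ᵥ q0.1) hav
        intro x hx
        simp only [Finset.mem_insert, Finset.mem_singleton] at hx
        rcases hx with rfl | rfl | rfl | rfl
        · exact hφq
        · rw [m4 φ hφe, hφq]
        · rfl
        · exact n4 φ hφe
    -- a point off the plane
    obtain ⟨w, hw, hwφ⟩ : ∃ w ∈ R, φ0 ⬝ᵥ w ≠ φ0 ⬝ᵥ a0 := by
      by_contra hne
      push Not at hne
      have h1 : R.card ≤ (A.filter (fun x => φ0 ⬝ᵥ x = φ0 ⬝ᵥ a0)).card := by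
        apply Finset.card_le_card
        intro x hx
        rw [Finset.mem_filter]
        exact ⟨hRA hx, hne x hx⟩
      have h2 := hm φ0 hφ0
      have h3 : R.card ≤ m := h1.trans h2
      omega
    refine le_trans ?_ (hm φ0 hφ0)
    apply Finset.card_le_card_of_injOn Prod.fst
    · intro q hq
      rw [Finset.mem_coe, Finset.mem_filter]
      exact ⟨hRA (hFm q hq).1, hall q hq⟩
    · intro q hq q' hq' hqq
      by_contra hne
      have h2 : q.2 ≠ q'.2 := fun h => hne (Prod.ext hqq h)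
      obtain ⟨m1, m2, m3, m4, θ1, hθ1e, hθ1⟩ := hFm q hq
      obtain ⟨k1, k2, k3, k4, _⟩ := hFm q' hq'
      have hq1 := hall q hq
      obtain ⟨φ, hφ, hφe, hφw⟩ := exists_orth2 e (w - q.1)
      rw [dotProduct_sub, sub_eq_zero] at hφw
      have hav : φ ⬝ᵥ a0 ≠ φ ⬝ᵥ q.1 := by
        intro h
        apply hφ
        apply eq_zero_of_kill (v := e) (w2 := q.1 - a0) (w3 := w - a0) (θ2 := θ1) (θ3 := φ0) he0
          hθ1e (by rw [dotProduct_sub]; exact sub_ne_zero.mpr hθ1) hφ0e
          (by rw [dotProduct_sub, hq1, sub_self])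
          (by rw [dotProduct_sub]; exact sub_ne_zero.mpr hwφ) hφe
          (by rw [dotProduct_sub, h, sub_self]) (by rw [dotProduct_sub, hφw, h, sub_self])
      have s1 : w ≠ q.1 := fun h => hwφ (by rw [h, hq1])
      have s2 : w ≠ q.2 := fun h => hwφ (by rw [h, m4 φ0 hφ0e, hq1])
      have hqq' : q'.1 = q.1 := hqq.symm
      have s3 : w ≠ q'.2 := fun h => hwφ (by rw [h, k4 φ0 hφ0e, hqq', hq1])
      rw [hqq'] at k3
      apply hcon {w, q.1, q.2, q'.2}
      · intro x hx
        simp only [Finset.mem_insert, Finset.mem_singleton] at hx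
        rcases hx with rfl | rfl | rfl | rfl
        · exact hw
        · exact m1
        · exact m2
        · exact k2
      · rw [Finset.card_insert_of_notMem, Finset.card_insert_of_notMem,
          Finset.card_insert_of_notMem, Finset.card_singleton]
        · simpa using h2
        · simp only [Finset.mem_insert, Finset.mem_singleton, not_or]
          exact ⟨m3, k3⟩
        · simp only [Finset.mem_insert, Finset.mem_singleton, not_or]
          exact ⟨s1, s2, s3⟩
      · apply Cv.plane φ (φ ⬝ᵥ q.1) hav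
        intro x hx
        simp only [Finset.mem_insert, Finset.mem_singleton] at hx
        rcases hx with rfl | rfl | rfl | rfl
        · exact hφw
        · rfl
        · exact m4 φ hφe
        · rw [k4 φ hφe, hqq']
  omega

/-- many disjoint coplanar quadruples -/
lemma many_quads {A D : Finset (Vec p)} (hD : Dirs A D) (hA : A.card = p) {a0 : Vec p} (ha0 : a0 ∈ A)
    (m q : ℕ) (hm : ∀ φ : Vec p, φ ≠ 0 → (A.filter (fun x => φ ⬝ᵥ x = φ ⬝ᵥ a0)).card ≤ m)
    (hcard : D.card * m < (p + 3 - 4 * q) * (p + 2 - 4 * q - m)) (hqp : 4 * q ≤ p) :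
    ∀ n, n ≤ q → ∃ U ⊆ A.erase a0, U.card = 4 * n ∧ Cv a0 n U := by
  classical
  intro n
  induction n with
  | zero =>
    intro _
    exact ⟨∅, Finset.empty_subset _, by simp, ∅, by simp, by simp, by simp⟩
  | succ n ih =>
    intro hn
    obtain ⟨U, hU, hUc, hUv⟩ := ih (by omega)
    have herase : (A.erase a0).card + 1 = A.card := Finset.card_erase_add_one ha0
    obtain ⟨R, hR, hRc⟩ : ∃ R : Finset (Vec p), R = (A.erase a0) \ U ∧ R.card = p - 1 - 4 * n := by
      refine ⟨_, rfl, ?_⟩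
      rw [Finset.card_sdiff_of_subset hU]
      omega
    have hpos : 0 < p + 2 - 4 * q - m := by
      by_contra hle
      have h0 : p + 2 - 4 * q - m = 0 := by omega
      rw [h0, mul_zero] at hcard
      omega
    have hbig : D.card * m < R.card * (R.card - 1 - m) := by
      refine hcard.trans_le (Nat.mul_le_mul ?_ ?_)
      · omega
      · omega
    have hcard' : D.card * m + R.card * m < R.card * R.card - R.card := by
      obtain ⟨z, hz⟩ : ∃ z, R.card = z + 1 + m := ⟨R.card - 1 - m, by omega⟩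
      have e1 : R.card - 1 - m = z := by omega
      rw [e1] at hbig
      have e2 : R.card * R.card = R.card * z + R.card * m + R.card := by
        conv_lhs => rw [hz]
        rw [hz]; ring
      omega
    obtain ⟨Q, hQ, hQc, hQv⟩ := quad_exists hD m hm R
      (by rw [hR]; exact Finset.sdiff_subset.trans (Finset.erase_subset _ _))
      (by rw [hR]; intro h; exact Finset.notMem_erase _ _ (Finset.mem_sdiff.mp h).1)
      (by omega) hcard'
    rw [hR] at hQ
    refine ⟨U ∪ Q, Finset.union_subset hU (hQ.trans Finset.sdiff_subset), ?_, hUv.union hQv⟩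
    rw [Finset.card_union_of_disjoint, hUc, hQc]
    · ring
    · rw [Finset.disjoint_left]
      intro x hx hx'
      exact (Finset.mem_sdiff.mp (hQ hx')).2 hx

/-- without rich lines there are more than `p + 1 + t` directions -/
theorem no_rich_false {A D : Finset (Vec p)} (hD : Dirs A D) (hA : A.card = p) (hnp : NonPlanar A)
    (t : ℕ) (ht1 : 1 ≤ t) (htp : 24 * t < p) (hp29 : 29 ≤ p) (hDp : D.card ≤ p + 1 + t) (K : ℕ) (hKp : K < p)
    (hpK : p ≤ 3 * K + 2 * t + 2) (hM : ∀ k, 1 ≤ k → k ≤ K → ∀ u, M A k u = 0)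
    (hline : ∀ a v, (Ln A a v).card ≤ K) : False := by
  have hK1 : 1 ≤ K := by omega
  -- every plane contains at most `2 t + 3` points
  have hpl : ∀ φ : Vec p, φ ≠ 0 → ∀ c, (A.filter (fun x => φ ⬝ᵥ x = c)).card ≤ 2 * t + 3 := by
    intro φ hφ c
    by_contra hcon
    push Not at hcon
    exact rich_plane_false hA hnp K hK1 hKp hM hline (by omega) φ hφ c (by omega)
  obtain ⟨a0, ha0⟩ := Finset.card_pos.mp (by omega : 0 < A.card)
  have herase : (A.erase a0).card + 1 = A.card := Finset.card_erase_add_one ha0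
  obtain ⟨U, hU, hUc, hUv⟩ := many_quads hD hA ha0 (2 * t + 3) (2 * t + 1)
    (fun φ hφ => hpl φ hφ _) (by
      have e1 : D.card * (2 * t + 3) ≤ (p + 1 + t) * (2 * t + 3) :=
        Nat.mul_le_mul_right _ hDp
      refine e1.trans_lt ?_
      obtain ⟨z, hz⟩ : ∃ z, t = z + 1 := ⟨t - 1, by omega⟩
      obtain ⟨w, hw⟩ : ∃ w, p = 24 * z + 25 + w := ⟨p - (24 * z + 25), by omega⟩
      have e2 : p + 3 - 4 * (2 * t + 1) = 16 * z + 16 + w := by omega
      have e3 : p + 2 - 4 * (2 * t + 1) - (2 * t + 3) = 14 * z + 10 + w := by omega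
      have e4 : p + 1 + t = 25 * z + 27 + w := by omega
      have e5 : 2 * t + 3 = 2 * z + 5 := by omega
      rw [e2, e3, e4, e5]
      nlinarith [Nat.zero_le z, Nat.zero_le w, Nat.zero_le (z * z), Nat.zero_le (z * w),
        Nat.zero_le (w * w)]) (by omega) (2 * t + 1) le_rfl
  apply Cv.false hA K hKp hM ha0
  have hrest : Cv a0 (K - (2 * t + 1)) ((A.erase a0) \ U) := by
    have hJ : ∀ J ⊆ (A.erase a0) \ U, ∀ φ : Vec p, φ ≠ 0 → (∀ x ∈ J, φ ⬝ᵥ x = φ ⬝ᵥ a0) →
        J.card ≤ 2 * t + 3 := by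
      intro J hJ φ hφ h
      refine le_trans (Finset.card_le_card ?_) (hpl φ hφ (φ ⬝ᵥ a0))
      intro x hx
      rw [Finset.mem_filter]
      exact ⟨Finset.mem_of_mem_erase (Finset.mem_sdiff.mp (hJ hx)).1, h x hx⟩
    apply Cv.rado
    · intro h
      exact Finset.notMem_erase _ _ (Finset.mem_sdiff.mp h).1
    · intro v hv J hJs hJv
      obtain ⟨φ, hφ, hφv⟩ := exists_nonzero_orth v
      have := hJ J hJs φ hφ (by
        intro x hx
        obtain ⟨s, rfl⟩ := hJv x hx
        rw [dotProduct_add, dotProduct_smul, hφv, smul_zero, add_zero])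
      omega
    · intro φ hφ J hJs hJφ
      have := hJ J hJs φ hφ hJφ
      omega
    · rw [Finset.card_sdiff_of_subset hU]
      omega
  apply (hUv.union hrest).mono (by omega)
  intro x hx
  by_cases hxU : x ∈ U
  · exact Finset.mem_union_left _ hxU
  · exact Finset.mem_union_right _ (Finset.mem_sdiff.mpr ⟨hx, hxU⟩)

end KS41.Dir
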