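import Pool.Agent.KS6_41.Dir.Quad
import Pool.Agent.KS6_41.Dir.Mult

/-!
Rich lines: the set lies on three concurrent lines.
-/

set_option autoImplicit false

open Polynomial Finset

namespace KS41.Dir

variable {p : ℕ} [Fact p.Prime]

/-- a small complement of a plane is collinear -/
lemma off_collinear {A : Finset (Vec p)} (hA : A.card = p) (hnp : NonPlanar A)
    (K : ℕ) (hK1 : 1 ≤ K) (hKp : K < p) (hM : ∀ k, 1 ≤ k → k ≤ K → ∀ u, M A k u = 0) (φ : Vec p)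
    (hφ : φ ≠ 0) (c : ZMod p) (F : Finset (Vec p)) (hF : ∀ x, x ∈ F ↔ x ∈ A ∧ φ ⬝ᵥ x ≠ c)
    (hFc : F.card + 1 ≤ 2 * K) :
    ∃ b ∈ F, ∃ w : Vec p, K + 1 ≤ (Ln A b w).card ∧ ∀ x ∈ F, ∃ s : ZMod p, x = b + s • w := by
  classical
  have hFeq : A.filter (fun x => φ ⬝ᵥ x ≠ c) = F := by
    ext x; rw [Finset.mem_filter, hF]
  have hpb : K + 1 ≤ F.card := by
    rw [← hFeq]; exact plane_bound A hA K hKp hM hnp φ hφ c
  have hex : ∀ a0 ∈ F, ∃ w : Vec p, K + 1 ≤ (Ln F a0 w).card := by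
    intro a0 ha0
    by_contra hcon
    push Not at hcon
    have ha0' := (hF a0).mp ha0
    have hSc : (F.erase a0).card + 1 = F.card := Finset.card_erase_add_one ha0
    have k1 : Cv a0 (K - 1) (F.erase a0) := by
      apply Cv.rado a0 _ (K - 1) (Finset.notMem_erase _ _)
      · intro v hv J hJ hJv
        have hsub : insert a0 J ⊆ Ln F a0 v := by
          intro x hx
          rcases Finset.mem_insert.mp hx with rfl | hx
          · exact self_mem_Ln ha0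
          · rw [mem_Ln]
            exact ⟨Finset.mem_of_mem_erase (hJ hx), hJv x hx⟩
        have h4 := Finset.card_le_card hsub
        rw [Finset.card_insert_of_notMem (fun h => Finset.notMem_erase _ _ (hJ h))] at h4
        have := hcon v
        omega
      · intro φ _ J hJ _
        have := Finset.card_le_card hJ
        omega
      · omega
    have k2 : Cv a0 1 (A.filter (fun a => φ ⬝ᵥ a = c)) :=
      Cv.plane φ c ha0'.2 (fun x hx => (Finset.mem_filter.mp hx).2)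
    apply Cv.false hA K hKp hM ha0'.1
    apply (k1.union k2).mono (by omega)
    intro x hx
    rw [Finset.mem_erase] at hx
    by_cases hxc : φ ⬝ᵥ x = c
    · exact Finset.mem_union_right _ (Finset.mem_filter.mpr ⟨hx.2, hxc⟩)
    · exact Finset.mem_union_left _ (Finset.mem_erase.mpr ⟨hx.1, (hF x).mpr ⟨hx.2, hxc⟩⟩)
  obtain ⟨b, hb⟩ := Finset.card_pos.mp (by omega : 0 < F.card)
  obtain ⟨w, hw⟩ := hex b hb
  refine ⟨b, hb, w, ?_, ?_⟩
  · refine hw.trans (Finset.card_le_card ?_)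
    intro x hx
    rw [mem_Ln] at hx ⊢
    exact ⟨((hF x).mp hx.1).1, hx.2⟩
  · intro x hx
    obtain ⟨w', hw'⟩ := hex x hx
    have h1 := Finset.card_union_add_card_inter (Ln F b w) (Ln F x w')
    have h2 : (Ln F b w ∪ Ln F x w').card ≤ F.card := by
      apply Finset.card_le_card
      apply Finset.union_subset
      · intro y hy; exact (mem_Ln.mp hy).1
      · intro y hy; exact (mem_Ln.mp hy).1
    obtain ⟨y, hy, z, hz, hyz⟩ := Finset.one_lt_card.mp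
      (by omega : 1 < (Ln F b w ∩ Ln F x w').card)
    rw [Finset.mem_inter] at hy hz
    have h3 := Ln_sub hyz hy.2 hz.2 hy.1 hz.1
    exact (mem_Ln.mp (h3 (self_mem_Ln hx))).2

/-- two independent functionals that kill `v` determine its line -/
lemma line_of_two {v φ ψ y y' : Vec p} (hv : v ≠ 0) (h1 : φ ⬝ᵥ v = 0) (h2 : ψ ⬝ᵥ v = 0)
    (h3 : φ ⬝ᵥ y ≠ 0) (h4 : ψ ⬝ᵥ y = 0) (h5 : ψ ⬝ᵥ y' ≠ 0) {z : Vec p} (h6 : φ ⬝ᵥ z = 0)
    (h7 : ψ ⬝ᵥ z = 0) : ∃ s : ZMod p, z = s • v := by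
  obtain ⟨i, hi⟩ : ∃ i, v i ≠ 0 := by
    by_contra hcon
    push Not at hcon
    exact hv (funext hcon)
  refine ⟨z i / v i, ?_⟩
  by_contra hne
  set z' : Vec p := z - (z i / v i) • v with hz'
  have hz'0 : z' ≠ 0 := fun h => hne (sub_eq_zero.mp h)
  obtain ⟨l, hl⟩ : ∃ l, z' l ≠ 0 := by
    by_contra hcon
    push Not at hcon
    exact hz'0 (funext hcon)
  have hz'i : z' i = 0 := by
    rw [hz', Pi.sub_apply, Pi.smul_apply, smul_eq_mul, div_mul_cancel₀ _ hi, sub_self]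
  have hψ : ψ = 0 := by
    apply eq_zero_of_kill (v := v) (w2 := z') (w3 := y)
      (θ2 := v i • (Pi.single l 1 : Vec p) - v l • (Pi.single i 1 : Vec p)) (θ3 := φ) hv
    · rw [sub_dotProduct, smul_dotProduct, smul_dotProduct, single_dotProduct, single_dotProduct]
      simp only [smul_eq_mul]; ring
    · rw [sub_dotProduct, smul_dotProduct, smul_dotProduct, single_dotProduct, single_dotProduct,
        hz'i]
      simp only [smul_eq_mul, mul_zero, one_mul, sub_zero]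
      exact mul_ne_zero hi hl
    · exact h1
    · rw [hz', dotProduct_sub, dotProduct_smul, h1, h6, smul_zero, sub_zero]
    · exact h3
    · exact h2
    · rw [hz', dotProduct_sub, dotProduct_smul, h2, h7, smul_zero, sub_zero]
    · exact h4
  rw [hψ, zero_dotProduct] at h5
  exact h5 rfl

/-- three functionals and a point such that every point of `A` has at most one nonzero coordinate -/
theorem rich_coords {A D : Finset (Vec p)} (hD : Dirs A D) (hA : A.card = p) (hnp : NonPlanar A)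
    (t : ℕ) (ht1 : 1 ≤ t) (htp : 24 * t < p) (hp29 : 29 ≤ p) (hDp : D.card ≤ p + 1 + t) (K : ℕ) (hKp : K < p)
    (hpK : p ≤ 3 * K + 2 * t + 2) (hM : ∀ k, 1 ≤ k → k ≤ K → ∀ u, M A k u = 0) {a v : Vec p}
    (hL : K + 1 ≤ (Ln A a v).card) :
    ∃ θ φ ψ O : Vec p,
      (∀ z, θ ⬝ᵥ z = 0 → φ ⬝ᵥ z = 0 → ψ ⬝ᵥ z = 0 → z = 0) ∧
      (∀ x ∈ A, (φ ⬝ᵥ x = φ ⬝ᵥ O ∧ ψ ⬝ᵥ x = ψ ⬝ᵥ O) ∨ (θ ⬝ᵥ x = θ ⬝ᵥ O ∧ ψ ⬝ᵥ x = ψ ⬝ᵥ O) ∨
        (θ ⬝ᵥ x = θ ⬝ᵥ O ∧ φ ⬝ᵥ x = φ ⬝ᵥ O)) ∧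
      K ≤ (A.filter (fun x => θ ⬝ᵥ x ≠ θ ⬝ᵥ O)).card ∧
      K + 1 ≤ (A.filter (fun x => φ ⬝ᵥ x ≠ φ ⬝ᵥ O)).card ∧
      K + 1 ≤ (A.filter (fun x => ψ ⬝ᵥ x ≠ ψ ⬝ᵥ O)).card ∧
      3 * K + 3 ≤ p := by
  have hK1 : 1 ≤ K := by omega
  have hv0 : v ≠ 0 := by
    rintro rfl
    obtain ⟨b, hb, b', hb', hbb⟩ := Finset.one_lt_card.mp (by omega : 1 < (Ln A a 0).card)
    obtain ⟨_, s, hs⟩ := mem_Ln.mp hb
    obtain ⟨_, s', hs'⟩ := mem_Ln.mp hb'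
    apply hbb
    rw [hs, hs', smul_zero, smul_zero]
  obtain ⟨φ, ψ, hφ, hψ, hφv, hψv, hcov⟩ := rich_line hD hA hnp K (by omega) hK1 hKp (by omega) hM hL
  have hcard := two_planes_card hA hφv hψv hcov
  have hb1 := plane_bound A hA K hKp hM hnp φ hφ (φ ⬝ᵥ a)
  have hb2 := plane_bound A hA K hKp hM hnp ψ hψ (ψ ⬝ᵥ a)
  obtain ⟨F1, hF1, hF1c⟩ : ∃ F : Finset (Vec p), (∀ x, x ∈ F ↔ x ∈ A ∧ φ ⬝ᵥ x ≠ φ ⬝ᵥ a) ∧
      F.card = (A.filter (fun x => φ ⬝ᵥ x ≠ φ ⬝ᵥ a)).card :=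
    ⟨_, fun x => Finset.mem_filter, rfl⟩
  obtain ⟨F2, hF2, hF2c⟩ : ∃ F : Finset (Vec p), (∀ x, x ∈ F ↔ x ∈ A ∧ ψ ⬝ᵥ x ≠ ψ ⬝ᵥ a) ∧
      F.card = (A.filter (fun x => ψ ⬝ᵥ x ≠ ψ ⬝ᵥ a)).card :=
    ⟨_, fun x => Finset.mem_filter, rfl⟩
  obtain ⟨b1, hb1F, w1, hw1, hl1⟩ := off_collinear hA hnp K hK1 hKp hM φ hφ _ F1 hF1 (by omega)
  obtain ⟨b2, hb2F, w2, hw2, hl2⟩ := off_collinear hA hnp K hK1 hKp hM ψ hψ _ F2 hF2 (by omega)
  -- the third plane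
  obtain ⟨θ, hθ, hθ1, hθ2⟩ : ∃ θ : Vec p, θ ≠ 0 ∧ (∀ x ∈ F1, θ ⬝ᵥ x = θ ⬝ᵥ b1) ∧
      (∀ x ∈ F2, θ ⬝ᵥ x = θ ⬝ᵥ b1) := by
    obtain ⟨φ', ψ', hφ', hψ', hφ'w, hψ'w, hcov'⟩ :=
      rich_line hD hA hnp K (by omega) hK1 hKp (by omega) hM hw1
    have main : ∀ θ : Vec p, θ ≠ 0 → θ ⬝ᵥ w1 = 0 → (∃ x ∈ F2, ∃ y ∈ F2, x ≠ y ∧
        θ ⬝ᵥ x = θ ⬝ᵥ b1 ∧ θ ⬝ᵥ y = θ ⬝ᵥ b1) → ∃ θ : Vec p, θ ≠ 0 ∧
        (∀ x ∈ F1, θ ⬝ᵥ x = θ ⬝ᵥ b1) ∧ (∀ x ∈ F2, θ ⬝ᵥ x = θ ⬝ᵥ b1) := by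
      rintro θ hθ hθw ⟨x, hx, y, hy, hxy, h1, h2⟩
      obtain ⟨s, hs⟩ := hl2 x hx
      obtain ⟨s', hs'⟩ := hl2 y hy
      have hss : s ≠ s' := by
        intro h
        exact hxy (by rw [hs, hs', h])
      have hθw2 : θ ⬝ᵥ w2 = 0 := by
        rw [hs, dotProduct_add, dotProduct_smul, smul_eq_mul] at h1
        rw [hs', dotProduct_add, dotProduct_smul, smul_eq_mul] at h2
        have h3 : (s - s') * (θ ⬝ᵥ w2) = 0 := by linear_combination h1 - h2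
        exact (mul_eq_zero.mp h3).resolve_left (sub_ne_zero.mpr hss)
      have hb : θ ⬝ᵥ b2 = θ ⬝ᵥ b1 := by
        rw [hs, dotProduct_add, dotProduct_smul, hθw2, smul_zero, add_zero] at h1
        exact h1
      refine ⟨θ, hθ, ?_, ?_⟩
      · intro z hz
        obtain ⟨r, rfl⟩ := hl1 z hz
        rw [dotProduct_add, dotProduct_smul, hθw, smul_zero, add_zero]
      · intro z hz
        obtain ⟨r, rfl⟩ := hl2 z hz
        rw [dotProduct_add, dotProduct_smul, hθw2, smul_zero, add_zero, hb]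
    -- pigeonhole
    obtain ⟨x, y, z, hx, hy, hz, hxy, hxz, hyz⟩ := Finset.two_lt_card_iff.mp
      (by omega : 2 < F2.card)
    have cx := hcov' x ((hF2 x).mp hx).1
    have cy := hcov' y ((hF2 y).mp hy).1
    have cz := hcov' z ((hF2 z).mp hz).1
    rcases cx with cx | cx
    · rcases cy with cy | cy
      · exact main φ' hφ' hφ'w ⟨x, hx, y, hy, hxy, cx, cy⟩
      · rcases cz with cz | cz
        · exact main φ' hφ' hφ'w ⟨x, hx, z, hz, hxz, cx, cz⟩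
        · exact main ψ' hψ' hψ'w ⟨y, hy, z, hz, hyz, cy, cz⟩
    · rcases cy with cy | cy
      · rcases cz with cz | cz
        · exact main φ' hφ' hφ'w ⟨y, hy, z, hz, hyz, cy, cz⟩
        · exact main ψ' hψ' hψ'w ⟨x, hx, z, hz, hxz, cx, cz⟩
      · exact main ψ' hψ' hψ'w ⟨x, hx, y, hy, hxy, cx, cy⟩
  -- values at `b1` and `b2`
  have hb1' := (hF1 b1).mp hb1F
  have hb2' := (hF2 b2).mp hb2F
  have hψb1 : ψ ⬝ᵥ b1 = ψ ⬝ᵥ a := (hcov b1 hb1'.1).resolve_left hb1'.2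
  have hφb2 : φ ⬝ᵥ b2 = φ ⬝ᵥ a := (hcov b2 hb2'.1).resolve_right hb2'.2
  have hline : ∀ x ∈ A, x ∉ F1 → x ∉ F2 → x ∈ Ln A a v := by
    intro x hx h1 h2
    have e1 : φ ⬝ᵥ x = φ ⬝ᵥ a := by
      by_contra h; exact h1 ((hF1 x).mpr ⟨hx, h⟩)
    have e2 : ψ ⬝ᵥ x = ψ ⬝ᵥ a := by
      by_contra h; exact h2 ((hF2 x).mpr ⟨hx, h⟩)
    obtain ⟨s, hs⟩ := line_of_two (z := x - a) (y := b1 - a) (y' := b2 - a) hv0 hφv hψv
      (by rw [dotProduct_sub]; exact sub_ne_zero.mpr hb1'.2)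
      (by rw [dotProduct_sub, hψb1, sub_self])
      (by rw [dotProduct_sub]; exact sub_ne_zero.mpr hb2'.2)
      (by rw [dotProduct_sub, e1, sub_self]) (by rw [dotProduct_sub, e2, sub_self])
    rw [mem_Ln]
    exact ⟨hx, s, by rw [← hs]; abel⟩
  -- the third plane meets the line
  have hθv : θ ⬝ᵥ v ≠ 0 := by
    intro h0
    have hm := moments A hA K hKp hM (fun _ : Fin 1 => θ) (fun _ => - (θ ⬝ᵥ b1)) Finset.univ
      (by simpa using hK1)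
    simp only [Finset.univ_unique, Finset.prod_singleton] at hm
    have hsplit : ∑ x ∈ A, (θ ⬝ᵥ x + -(θ ⬝ᵥ b1)) = ∑ x ∈ Ln A a v, (θ ⬝ᵥ a + -(θ ⬝ᵥ b1)) := by
      symm
      have e1 : ∑ x ∈ Ln A a v, (θ ⬝ᵥ a + -(θ ⬝ᵥ b1)) = ∑ x ∈ Ln A a v, (θ ⬝ᵥ x + -(θ ⬝ᵥ b1)) := by
        apply Finset.sum_congr rfl
        intro x hx
        rw [dot_Ln h0 hx]
      rw [e1]
      apply Finset.sum_subset
      · intro x hx; exact (mem_Ln.mp hx).1
      · intro x hx hxL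
        by_cases h1 : x ∈ F1
        · rw [hθ1 x h1]; ring
        · by_cases h2 : x ∈ F2
          · rw [hθ2 x h2]; ring
          · exact absurd (hline x hx h1 h2) hxL
    rw [hsplit, Finset.sum_const, nsmul_eq_mul] at hm
    rcases mul_eq_zero.mp hm with h1 | h1
    · rw [ZMod.natCast_eq_zero_iff] at h1
      have := Nat.le_of_dvd (by omega) h1
      omega
    · have hab : θ ⬝ᵥ a = θ ⬝ᵥ b1 := by linear_combination h1
      apply hnp θ hθ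
      refine ⟨θ ⬝ᵥ b1, ?_⟩
      intro x hx
      by_cases h1 : x ∈ F1
      · exact hθ1 x h1
      · by_cases h2 : x ∈ F2
        · exact hθ2 x h2
        · rw [dot_Ln h0 (hline x hx h1 h2), hab]
  set O : Vec p := a + ((θ ⬝ᵥ b1 - θ ⬝ᵥ a) / (θ ⬝ᵥ v)) • v with hO
  have hθO : θ ⬝ᵥ O = θ ⬝ᵥ b1 := by
    rw [hO, dotProduct_add, dotProduct_smul, smul_eq_mul]
    field_simp
    ring
  have hφO : φ ⬝ᵥ O = φ ⬝ᵥ a := by
    rw [hO, dotProduct_add, dotProduct_smul, hφv, smul_zero, add_zero]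
  have hψO : ψ ⬝ᵥ O = ψ ⬝ᵥ a := by
    rw [hO, dotProduct_add, dotProduct_smul, hψv, smul_zero, add_zero]
  refine ⟨θ, φ, ψ, O, ?_, ?_, ?_, ?_, ?_, ?_⟩
  · intro z h1 h2 h3
    apply eq_zero_of_kill (v := θ) (w2 := φ) (w3 := ψ) (θ2 := b1 - O) (θ3 := b2 - O) hθ
    · rw [dotProduct_comm, dotProduct_sub, hθO, sub_self]
    · rw [dotProduct_comm, dotProduct_sub, hφO]
      exact sub_ne_zero.mpr hb1'.2
    · rw [dotProduct_comm, dotProduct_sub, hθO, hθ2 b2 hb2F, sub_self]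
    · rw [dotProduct_comm, dotProduct_sub, hφO, hφb2, sub_self]
    · rw [dotProduct_comm, dotProduct_sub, hψO]
      exact sub_ne_zero.mpr hb2'.2
    · rw [dotProduct_comm]; exact h1
    · rw [dotProduct_comm]; exact h2
    · rw [dotProduct_comm]; exact h3
  · intro x hx
    rw [hθO, hφO, hψO]
    by_cases h1 : x ∈ F1
    · right; left
      exact ⟨hθ1 x h1, (hcov x hx).resolve_left ((hF1 x).mp h1).2⟩
    · by_cases h2 : x ∈ F2
      · right; right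
        exact ⟨hθ2 x h2, (hcov x hx).resolve_right ((hF2 x).mp h2).2⟩
      · left
        exact ⟨dot_Ln hφv (hline x hx h1 h2), dot_Ln hψv (hline x hx h1 h2)⟩
  · -- at most one point of the line has `θ`-value `θ ⬝ᵥ O`
    have h1 : ((Ln A a v).filter (fun x => θ ⬝ᵥ x = θ ⬝ᵥ O)).card ≤ 1 := by
      rw [Finset.card_le_one]
      intro y hy y' hy'
      rw [Finset.mem_filter] at hy hy'
      obtain ⟨_, s, hs⟩ := mem_Ln.mp hy.1
      obtain ⟨_, s', hs'⟩ := mem_Ln.mp hy'.1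
      have h3 : θ ⬝ᵥ y = θ ⬝ᵥ y' := by rw [hy.2, hy'.2]
      rw [hs, hs', dotProduct_add, dotProduct_add, dotProduct_smul, dotProduct_smul] at h3
      have h4 : s * (θ ⬝ᵥ v) = s' * (θ ⬝ᵥ v) := add_left_cancel h3
      have h5 := mul_right_cancel₀ hθv h4
      rw [hs, hs', h5]
    have h2 : ((Ln A a v).filter (fun x => θ ⬝ᵥ x = θ ⬝ᵥ O)).card +
        ((Ln A a v).filter (fun x => θ ⬝ᵥ x ≠ θ ⬝ᵥ O)).card = (Ln A a v).card :=
      Finset.card_filter_add_card_filter_not (s := Ln A a v) (fun x => θ ⬝ᵥ x = θ ⬝ᵥ O)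
    have h3 : ((Ln A a v).filter (fun x => θ ⬝ᵥ x ≠ θ ⬝ᵥ O)).card ≤
        (A.filter (fun x => θ ⬝ᵥ x ≠ θ ⬝ᵥ O)).card := by
      apply Finset.card_le_card
      intro x hx
      rw [Finset.mem_filter] at hx ⊢
      exact ⟨(mem_Ln.mp hx.1).1, hx.2⟩
    omega
  · rw [hφO]; exact hb1
  · rw [hψO]; exact hb2
  · omega

end KS41.Dir
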