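import Pool.Agent.KS6_41.Dir.Rich

/-!
Counting the directions of a set on three concurrent lines, and the structure theorem.
-/

set_option autoImplicit false

open Polynomial Finset

namespace KS41.Dir

variable {p : ℕ} [Fact p.Prime]

/-- counting directions by their zero pattern -/
lemma dir_count (D : Finset (Vec p)) (f g h : Vec p) (Q12 Q13 Q23 : Finset (ZMod p))
    (h1 : ∃ d ∈ D, f ⬝ᵥ d ≠ 0 ∧ g ⬝ᵥ d = 0 ∧ h ⬝ᵥ d = 0)
    (h2 : ∃ d ∈ D, f ⬝ᵥ d = 0 ∧ g ⬝ᵥ d ≠ 0 ∧ h ⬝ᵥ d = 0)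
    (h3 : ∃ d ∈ D, f ⬝ᵥ d = 0 ∧ g ⬝ᵥ d = 0 ∧ h ⬝ᵥ d ≠ 0)
    (h12 : ∀ r ∈ Q12, ∃ d ∈ D, f ⬝ᵥ d ≠ 0 ∧ g ⬝ᵥ d ≠ 0 ∧ h ⬝ᵥ d = 0 ∧ f ⬝ᵥ d / g ⬝ᵥ d = -r)
    (h13 : ∀ r ∈ Q13, ∃ d ∈ D, f ⬝ᵥ d ≠ 0 ∧ g ⬝ᵥ d = 0 ∧ h ⬝ᵥ d ≠ 0 ∧ f ⬝ᵥ d / h ⬝ᵥ d = -r)
    (h23 : ∀ r ∈ Q23, ∃ d ∈ D, f ⬝ᵥ d = 0 ∧ g ⬝ᵥ d ≠ 0 ∧ h ⬝ᵥ d ≠ 0 ∧ g ⬝ᵥ d / h ⬝ᵥ d = -r) :
    3 + Q12.card + Q13.card + Q23.card ≤ D.card := by
  classical
  set π : Vec p → Bool × Bool × Bool :=
    fun d => (decide (f ⬝ᵥ d = 0), decide (g ⬝ᵥ d = 0), decide (h ⬝ᵥ d = 0)) with hπ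
  have hsum : D.card = ∑ b : Bool × Bool × Bool, (D.filter (fun d => π d = b)).card :=
    Finset.card_eq_sum_card_fiberwise (f := π) (t := Finset.univ) (fun _ _ => Finset.mem_univ _)
  simp only [Fintype.sum_prod_type, Fintype.sum_bool] at hsum
  have c1 : 1 ≤ (D.filter (fun d => π d = (false, true, true))).card := by
    obtain ⟨d, hd, e1, e2, e3⟩ := h1
    exact Finset.card_pos.mpr ⟨d, by rw [Finset.mem_filter]; exact ⟨hd, by simp [hπ, e1, e2, e3]⟩⟩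
  have c2 : 1 ≤ (D.filter (fun d => π d = (true, false, true))).card := by
    obtain ⟨d, hd, e1, e2, e3⟩ := h2
    exact Finset.card_pos.mpr ⟨d, by rw [Finset.mem_filter]; exact ⟨hd, by simp [hπ, e1, e2, e3]⟩⟩
  have c3 : 1 ≤ (D.filter (fun d => π d = (true, true, false))).card := by
    obtain ⟨d, hd, e1, e2, e3⟩ := h3
    exact Finset.card_pos.mpr ⟨d, by rw [Finset.mem_filter]; exact ⟨hd, by simp [hπ, e1, e2, e3]⟩⟩
  have c12 : Q12.card ≤ (D.filter (fun d => π d = (false, false, true))).card := by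
    choose! d hd e1 e2 e3 e4 using h12
    apply Finset.card_le_card_of_injOn d
    · intro r hr
      rw [Finset.mem_coe, Finset.mem_filter]
      exact ⟨hd r hr, by simp [hπ, e1 r hr, e2 r hr, e3 r hr]⟩
    · intro r hr r' hr' hrr
      have q1 := e4 r hr
      have q2 := e4 r' hr'
      rw [hrr, q2] at q1
      exact (neg_injective q1).symm
  have c13 : Q13.card ≤ (D.filter (fun d => π d = (false, true, false))).card := by
    choose! d hd e1 e2 e3 e4 using h13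
    apply Finset.card_le_card_of_injOn d
    · intro r hr
      rw [Finset.mem_coe, Finset.mem_filter]
      exact ⟨hd r hr, by simp [hπ, e1 r hr, e2 r hr, e3 r hr]⟩
    · intro r hr r' hr' hrr
      have q1 := e4 r hr
      have q2 := e4 r' hr'
      rw [hrr, q2] at q1
      exact (neg_injective q1).symm
  have c23 : Q23.card ≤ (D.filter (fun d => π d = (true, false, false))).card := by
    choose! d hd e1 e2 e3 e4 using h23
    apply Finset.card_le_card_of_injOn d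
    · intro r hr
      rw [Finset.mem_coe, Finset.mem_filter]
      exact ⟨hd r hr, by simp [hπ, e1 r hr, e2 r hr, e3 r hr]⟩
    · intro r hr r' hr' hrr
      have q1 := e4 r hr
      have q2 := e4 r' hr'
      rw [hrr, q2] at q1
      exact (neg_injective q1).symm
  omega

/-- the values of a functional, relative to `O`, on the points where they do not vanish -/
def vals (A : Finset (Vec p)) (f O : Vec p) : Finset (ZMod p) :=
  (A.filter (fun x => f ⬝ᵥ x ≠ f ⬝ᵥ O)).image (fun x => f ⬝ᵥ x - f ⬝ᵥ O)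

lemma mem_vals {A : Finset (Vec p)} {f O : Vec p} {r : ZMod p} :
    r ∈ vals A f O ↔ ∃ x ∈ A, f ⬝ᵥ x ≠ f ⬝ᵥ O ∧ r = f ⬝ᵥ x - f ⬝ᵥ O := by
  rw [vals, Finset.mem_image]
  constructor
  · rintro ⟨x, hx, h⟩
    rw [Finset.mem_filter] at hx
    exact ⟨x, hx.1, hx.2, h.symm⟩
  · rintro ⟨x, hx, hx', h⟩
    exact ⟨x, Finset.mem_filter.mpr ⟨hx, hx'⟩, h.symm⟩

lemma zero_notMem_vals {A : Finset (Vec p)} {f O : Vec p} : (0 : ZMod p) ∉ vals A f O := by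
  intro h
  obtain ⟨x, _, hx, h0⟩ := mem_vals.mp h
  exact hx (sub_eq_zero.mp h0.symm)

lemma pair_dir {f g h O x y d : Vec p} {c : ZMod p} (hc : c ≠ 0) (hd : d = c • (x - y))
    (e1 : f ⬝ᵥ y = f ⬝ᵥ O) (e2 : g ⬝ᵥ x = g ⬝ᵥ O) (e3 : h ⬝ᵥ x = h ⬝ᵥ O) (e4 : h ⬝ᵥ y = h ⬝ᵥ O)
    (n1 : f ⬝ᵥ x ≠ f ⬝ᵥ O) (n2 : g ⬝ᵥ y ≠ g ⬝ᵥ O) :
    f ⬝ᵥ d ≠ 0 ∧ g ⬝ᵥ d ≠ 0 ∧ h ⬝ᵥ d = 0 ∧
      f ⬝ᵥ d / g ⬝ᵥ d = -((f ⬝ᵥ x - f ⬝ᵥ O) / (g ⬝ᵥ y - g ⬝ᵥ O)) := by
  have k1 : f ⬝ᵥ d = c * (f ⬝ᵥ x - f ⬝ᵥ O) := by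
    rw [hd, dotProduct_smul, dotProduct_sub, e1, smul_eq_mul]
  have k2 : g ⬝ᵥ d = c * (g ⬝ᵥ O - g ⬝ᵥ y) := by
    rw [hd, dotProduct_smul, dotProduct_sub, e2, smul_eq_mul]
  have m1 := sub_ne_zero.mpr n1
  have m2 := sub_ne_zero.mpr n2
  have m2' := sub_ne_zero.mpr n2.symm
  refine ⟨?_, ?_, ?_, ?_⟩
  · rw [k1]; exact mul_ne_zero hc m1
  · rw [k2]; exact mul_ne_zero hc m2'
  · rw [hd, dotProduct_smul, dotProduct_sub, e3, e4, sub_self, smul_zero]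
  · rw [k1, k2, mul_div_mul_left _ _ hc, ← neg_sub (g ⬝ᵥ y) (g ⬝ᵥ O), div_neg]

/-- at most one coordinate is nonzero -/
def Tri (A : Finset (Vec p)) (f g h O : Vec p) : Prop :=
  ∀ x ∈ A, (g ⬝ᵥ x = g ⬝ᵥ O ∧ h ⬝ᵥ x = h ⬝ᵥ O) ∨ (f ⬝ᵥ x = f ⬝ᵥ O ∧ h ⬝ᵥ x = h ⬝ᵥ O) ∨
    (f ⬝ᵥ x = f ⬝ᵥ O ∧ g ⬝ᵥ x = g ⬝ᵥ O)

lemma Tri.first {A : Finset (Vec p)} {f g h O : Vec p} (hT : Tri A f g h O) {x : Vec p} (hx : x ∈ A)
    (hf : f ⬝ᵥ x ≠ f ⬝ᵥ O) : g ⬝ᵥ x = g ⬝ᵥ O ∧ h ⬝ᵥ x = h ⬝ᵥ O := by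
  rcases hT x hx with h1 | h1 | h1
  · exact h1
  · exact absurd h1.1 hf
  · exact absurd h1.1 hf

lemma Tri.rot {A : Finset (Vec p)} {f g h O : Vec p} (hT : Tri A f g h O) : Tri A g h f O := by
  intro x hx
  rcases hT x hx with h1 | h1 | h1
  · exact Or.inr (Or.inr h1)
  · exact Or.inl ⟨h1.2, h1.1⟩
  · exact Or.inr (Or.inl ⟨h1.2, h1.1⟩)

/-- a quotient of two coordinates is a direction -/
lemma Tri.dir {A D : Finset (Vec p)} (hD : Dirs A D) {f g h O : Vec p} (hT : Tri A f g h O)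
    {r : ZMod p} (hr : r ∈ quo (vals A f O) (vals A g O)) :
    ∃ d ∈ D, f ⬝ᵥ d ≠ 0 ∧ g ⬝ᵥ d ≠ 0 ∧ h ⬝ᵥ d = 0 ∧ f ⬝ᵥ d / g ⬝ᵥ d = -r := by
  obtain ⟨s, hs, y, hy, rfl⟩ := mem_quo.mp hr
  obtain ⟨a, ha, hfa, rfl⟩ := mem_vals.mp hs
  obtain ⟨b, hb, hgb, rfl⟩ := mem_vals.mp hy
  obtain ⟨g1, h1⟩ := hT.first ha hfa
  obtain ⟨h2, f2⟩ := hT.rot.first hb hgb
  have hab : a ≠ b := by
    rintro rfl
    exact hgb g1
  obtain ⟨d, hd, c, hc, hdc⟩ := hD.cov a ha b hb hab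
  exact ⟨d, hd, pair_dir hc hdc f2 g1 h1 h2 hfa hgb⟩

/-- the axis direction -/
lemma Tri.axis {A D : Finset (Vec p)} (hD : Dirs A D) {f g h O : Vec p} (hT : Tri A f g h O)
    (hinj : ∀ z, f ⬝ᵥ z = 0 → g ⬝ᵥ z = 0 → h ⬝ᵥ z = 0 → z = 0)
    (h2 : 2 ≤ (A.filter (fun x => f ⬝ᵥ x ≠ f ⬝ᵥ O)).card) :
    ∃ d ∈ D, f ⬝ᵥ d ≠ 0 ∧ g ⬝ᵥ d = 0 ∧ h ⬝ᵥ d = 0 := by
  obtain ⟨x, hx, y, hy, hxy⟩ := Finset.one_lt_card.mp
    (by omega : 1 < (A.filter (fun x => f ⬝ᵥ x ≠ f ⬝ᵥ O)).card)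
  rw [Finset.mem_filter] at hx hy
  obtain ⟨g1, h1⟩ := hT.first hx.1 hx.2
  obtain ⟨g2, h2⟩ := hT.first hy.1 hy.2
  obtain ⟨d, hd, c, hc, hdc⟩ := hD.cov x hx.1 y hy.1 hxy
  have k2 : g ⬝ᵥ d = 0 := by
    rw [hdc, dotProduct_smul, dotProduct_sub, g1, g2, sub_self, smul_zero]
  have k3 : h ⬝ᵥ d = 0 := by
    rw [hdc, dotProduct_smul, dotProduct_sub, h1, h2, sub_self, smul_zero]
  refine ⟨d, hd, ?_, k2, k3⟩
  intro k1
  have h0 := hinj d k1 k2 k3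
  rw [hdc] at h0
  exact hxy (sub_eq_zero.mp ((smul_eq_zero.mp h0).resolve_left hc))

lemma Tri.card_vals {A : Finset (Vec p)} {f g h O : Vec p} (hT : Tri A f g h O)
    (hinj : ∀ z, f ⬝ᵥ z = 0 → g ⬝ᵥ z = 0 → h ⬝ᵥ z = 0 → z = 0) :
    (vals A f O).card = (A.filter (fun x => f ⬝ᵥ x ≠ f ⬝ᵥ O)).card := by
  rw [vals, Finset.card_image_of_injOn]
  intro x hx y hy hxy
  rw [Finset.mem_coe, Finset.mem_filter] at hx hy
  have hxy' : f ⬝ᵥ x = f ⬝ᵥ y := sub_left_injective hxy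
  obtain ⟨g1, h1⟩ := hT.first hx.1 hx.2
  obtain ⟨g2, h2⟩ := hT.first hy.1 hy.2
  have h0 := hinj (x - y) (by rw [dotProduct_sub, hxy', sub_self])
    (by rw [dotProduct_sub, g1, g2, sub_self]) (by rw [dotProduct_sub, h1, h2, sub_self])
  exact sub_eq_zero.mp h0

/-- points on an axis are multiples of one of them -/
lemma Tri.mult {A : Finset (Vec p)} {f g h O : Vec p} (hT : Tri A f g h O)
    (hinj : ∀ z, f ⬝ᵥ z = 0 → g ⬝ᵥ z = 0 → h ⬝ᵥ z = 0 → z = 0) {x y : Vec p} (hx : x ∈ A)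
    (hy : y ∈ A) (hfx : f ⬝ᵥ x ≠ f ⬝ᵥ O) (hfy : f ⬝ᵥ y ≠ f ⬝ᵥ O) :
    y = O + ((f ⬝ᵥ y - f ⬝ᵥ O) / (f ⬝ᵥ x - f ⬝ᵥ O)) • (x - O) := by
  obtain ⟨g1, h1⟩ := hT.first hx hfx
  obtain ⟨g2, h2⟩ := hT.first hy hfy
  have m1 := sub_ne_zero.mpr hfx
  have h0 := hinj (y - (O + ((f ⬝ᵥ y - f ⬝ᵥ O) / (f ⬝ᵥ x - f ⬝ᵥ O)) • (x - O)))
    (by rw [dotProduct_sub, dotProduct_add, dotProduct_smul, dotProduct_sub, smul_eq_mul,
          div_mul_cancel₀ _ m1]; ring)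
    (by rw [dotProduct_sub, dotProduct_add, dotProduct_smul, dotProduct_sub, g1, g2, sub_self,
          smul_zero]; ring)
    (by rw [dotProduct_sub, dotProduct_add, dotProduct_smul, dotProduct_sub, h1, h2, sub_self,
          smul_zero]; ring)
  exact sub_eq_zero.mp h0

/-- the structure theorem, from the coordinates -/
theorem struct_of_coords {A D : Finset (Vec p)} (hD : Dirs A D) (hA : A.card = p)
    (t : ℕ) (ht1 : 1 ≤ t) (hDp : D.card ≤ p + 1 + t) (K : ℕ) (hKt : 22 * t ≤ 3 * K + 1) (hK7 : 7 ≤ K)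
    (hpK : p ≤ 3 * K + 2 * t + 2) (hKp : 3 * K + 3 ≤ p) {f g h O : Vec p}
    (hinj : ∀ z, f ⬝ᵥ z = 0 → g ⬝ᵥ z = 0 → h ⬝ᵥ z = 0 → z = 0) (hT : Tri A f g h O)
    (n1 : K ≤ (A.filter (fun x => f ⬝ᵥ x ≠ f ⬝ᵥ O)).card)
    (n2 : K + 1 ≤ (A.filter (fun x => g ⬝ᵥ x ≠ g ⬝ᵥ O)).card)
    (n3 : K + 1 ≤ (A.filter (fun x => h ⬝ᵥ x ≠ h ⬝ᵥ O)).card) :
    p % 3 = 1 ∧ ∃ v : Fin 3 → Vec p, LinearIndependent (ZMod p) v ∧
      ∀ a, a ∈ A ↔ a = O ∨ ∃ i : Fin 3, ∃ x : ZMod p, x ^ ((p - 1) / 3) = 1 ∧ a = O + x • v i := by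
  have hinj2 : ∀ z, g ⬝ᵥ z = 0 → h ⬝ᵥ z = 0 → f ⬝ᵥ z = 0 → z = 0 := fun z a b c => hinj z c a b
  have hinj3 : ∀ z, h ⬝ᵥ z = 0 → f ⬝ᵥ z = 0 → g ⬝ᵥ z = 0 → z = 0 := fun z a b c => hinj z b c a
  have hT2 : Tri A g h f O := hT.rot
  have hT3 : Tri A h f g O := hT.rot.rot
  have hT' : Tri A f h g O := by
    intro x hx
    rcases hT x hx with h1 | h1 | h1
    · exact Or.inl ⟨h1.2, h1.1⟩
    · exact Or.inr (Or.inr h1)
    · exact Or.inr (Or.inl h1)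
  set A1 := A.filter (fun x => f ⬝ᵥ x ≠ f ⬝ᵥ O) with hA1
  set A2 := A.filter (fun x => g ⬝ᵥ x ≠ g ⬝ᵥ O) with hA2
  set A3 := A.filter (fun x => h ⬝ᵥ x ≠ h ⬝ᵥ O) with hA3
  have v1 : (vals A f O).card = A1.card := hT.card_vals hinj
  have v2 : (vals A g O).card = A2.card := hT2.card_vals hinj2
  have v3 : (vals A h O).card = A3.card := hT3.card_vals hinj3
  -- the sizes
  have hm1 : ∀ {x}, x ∈ A1 ↔ x ∈ A ∧ f ⬝ᵥ x ≠ f ⬝ᵥ O := by intro x; rw [hA1, Finset.mem_filter]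
  have hm2 : ∀ {x}, x ∈ A2 ↔ x ∈ A ∧ g ⬝ᵥ x ≠ g ⬝ᵥ O := by intro x; rw [hA2, Finset.mem_filter]
  have hm3 : ∀ {x}, x ∈ A3 ↔ x ∈ A ∧ h ⬝ᵥ x ≠ h ⬝ᵥ O := by intro x; rw [hA3, Finset.mem_filter]
  have d12 : Disjoint A1 A2 := by
    rw [Finset.disjoint_left]
    intro x h1 h2
    exact (hm2.mp h2).2 (hT.first (hm1.mp h1).1 (hm1.mp h1).2).1
  have d13 : Disjoint A1 A3 := by
    rw [Finset.disjoint_left]
    intro x h1 h2
    exact (hm3.mp h2).2 (hT.first (hm1.mp h1).1 (hm1.mp h1).2).2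
  have d23 : Disjoint A2 A3 := by
    rw [Finset.disjoint_left]
    intro x h1 h2
    exact (hm3.mp h2).2 (hT2.first (hm2.mp h1).1 (hm2.mp h1).2).1
  have hle : A1.card + A2.card + A3.card ≤ p := by
    have hsub : A1 ∪ (A2 ∪ A3) ⊆ A := by
      intro x hx
      simp only [Finset.mem_union] at hx
      rcases hx with hx | hx | hx
      · exact (hm1.mp hx).1
      · exact (hm2.mp hx).1
      · exact (hm3.mp hx).1
    have := Finset.card_le_card hsub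
    rw [Finset.card_union_of_disjoint (Finset.disjoint_union_right.mpr ⟨d12, d13⟩),
      Finset.card_union_of_disjoint d23, hA] at this
    omega
  have hout : ∀ x ∈ A, x ∉ A1 → x ∉ A2 → x ∉ A3 → x = O := by
    intro x hx k1 k2 k3
    have e1 : f ⬝ᵥ x = f ⬝ᵥ O := by by_contra hne; exact k1 (hm1.mpr ⟨hx, hne⟩)
    have e2 : g ⬝ᵥ x = g ⬝ᵥ O := by by_contra hne; exact k2 (hm2.mpr ⟨hx, hne⟩)
    have e3 : h ⬝ᵥ x = h ⬝ᵥ O := by by_contra hne; exact k3 (hm3.mpr ⟨hx, hne⟩)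
    exact sub_eq_zero.mp (hinj (x - O) (by rw [dotProduct_sub, e1, sub_self])
      (by rw [dotProduct_sub, e2, sub_self]) (by rw [dotProduct_sub, e3, sub_self]))
  have hge : p ≤ A1.card + A2.card + A3.card + 1 := by
    have hsub : A ⊆ insert O (A1 ∪ (A2 ∪ A3)) := by
      intro x hx
      rw [Finset.mem_insert, Finset.mem_union, Finset.mem_union]
      by_cases k1 : x ∈ A1
      · exact Or.inr (Or.inl k1)
      · by_cases k2 : x ∈ A2
        · exact Or.inr (Or.inr (Or.inl k2))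
        · by_cases k3 : x ∈ A3
          · exact Or.inr (Or.inr (Or.inr k3))
          · exact Or.inl (hout x hx k1 k2 k3)
    have h1 := (Finset.card_le_card hsub).trans (Finset.card_insert_le _ _)
    rw [Finset.card_union_of_disjoint (Finset.disjoint_union_right.mpr ⟨d12, d13⟩),
      Finset.card_union_of_disjoint d23, hA] at h1
    omega
  -- the count of directions
  have hcount := dir_count D f g h (quo (vals A f O) (vals A g O)) (quo (vals A f O) (vals A h O))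
    (quo (vals A g O) (vals A h O)) (hT.axis hD hinj (show 2 ≤ A1.card by omega))
    (by
      obtain ⟨d, hd, e1, e2, e3⟩ := hT2.axis hD hinj2 (show 2 ≤ A2.card by omega)
      exact ⟨d, hd, e3, e1, e2⟩)
    (by
      obtain ⟨d, hd, e1, e2, e3⟩ := hT3.axis hD hinj3 (show 2 ≤ A3.card by omega)
      exact ⟨d, hd, e2, e3, e1⟩)
    (fun r hr => hT.dir hD hr)
    (by
      intro r hr
      obtain ⟨d, hd, e1, e2, e3, e4⟩ := hT'.dir hD hr
      exact ⟨d, hd, e1, e3, e2, e4⟩)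
    (by
      intro r hr
      obtain ⟨d, hd, e1, e2, e3, e4⟩ := hT2.dir hD hr
      exact ⟨d, hd, e3, e1, e2, e4⟩)
  have ne1 : (vals A f O).Nonempty := Finset.card_pos.mp (by omega)
  have ne2 : (vals A g O).Nonempty := Finset.card_pos.mp (by omega)
  have ne3 : (vals A h O).Nonempty := Finset.card_pos.mp (by omega)
  have q12 := card_le_quo_right (T := vals A g O) ne1 zero_notMem_vals
  have q12' := card_le_quo_left (S := vals A f O) ne2 zero_notMem_vals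
  have q13 := card_le_quo_right (T := vals A h O) ne1 zero_notMem_vals
  have q13' := card_le_quo_left (S := vals A f O) ne3 zero_notMem_vals
  have q23 := card_le_quo_right (T := vals A h O) ne2 zero_notMem_vals
  have q23' := card_le_quo_left (S := vals A g O) ne3 zero_notMem_vals
  -- the numerical condition
  have hnum : 2 * ((vals A h O).card * (vals A h O).card) <
      (p - 1) * ((vals A h O).card - (t - 1)) := by
    obtain ⟨z, hz⟩ : ∃ z, (vals A h O).card = K + 1 + z := ⟨(vals A h O).card - (K + 1), by omega⟩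
    obtain ⟨r, hr⟩ : ∃ r, t = r + 1 := ⟨t - 1, by omega⟩
    have hz2 : z ≤ 2 * r + 2 := by omega
    have hK2 : 22 * r + 21 ≤ 3 * K := by omega
    obtain ⟨y, hy⟩ : ∃ y, (vals A h O).card - (t - 1) = y ∧ y + r = K + 1 + z :=
      ⟨(vals A h O).card - (t - 1), rfl, by omega⟩
    rw [hy.1, hz]
    have h1 : (3 * K + 2) * y ≤ (p - 1) * y := Nat.mul_le_mul_right _ (by omega)
    refine lt_of_lt_of_le ?_ h1
    have hyr := hy.2
    have : (3 * K + 2) * y + (3 * K + 2) * r = (3 * K + 2) * (K + 1 + z) := by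
      rw [← mul_add, hyr]
    have key : 2 * ((K + 1 + z) * (K + 1 + z)) + (3 * K + 2) * r < (3 * K + 2) * (K + 1 + z) := by
      nlinarith [Nat.mul_le_mul_left K hz2, Nat.mul_le_mul hz2 hz2, Nat.mul_le_mul_left K hK2,
        Nat.mul_le_mul_left r hK2, Nat.mul_le_mul_left z hz2, Nat.zero_le (z * r),
        Nat.zero_le (K * z), Nat.zero_le (r * r)]
    omega
  obtain ⟨hmod, s2, s3⟩ := mult_structure (vals A g O) (vals A h O) zero_notMem_vals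
    zero_notMem_vals (t - 1) (by omega) (by omega) (by omega) hnum (by omega)
  obtain ⟨_, s1, _⟩ := mult_structure (vals A f O) (vals A h O) zero_notMem_vals
    zero_notMem_vals (t - 1) (by omega) (by omega) (by omega) hnum (by omega)
  refine ⟨hmod, ?_⟩
  obtain ⟨x1, hx1⟩ := Finset.card_pos.mp (by omega : 0 < A1.card)
  obtain ⟨x2, hx2⟩ := Finset.card_pos.mp (by omega : 0 < A2.card)
  obtain ⟨x3, hx3⟩ := Finset.card_pos.mp (by omega : 0 < A3.card)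
  rw [hm1] at hx1
  rw [hm2] at hx2
  rw [hm3] at hx3
  obtain ⟨g1, h1⟩ := hT.first hx1.1 hx1.2
  obtain ⟨h2, f2⟩ := hT2.first hx2.1 hx2.2
  obtain ⟨f3, g3⟩ := hT3.first hx3.1 hx3.2
  set v : Fin 3 → Vec p := ![x1 - O, x2 - O, x3 - O] with hv
  -- the set on the right hand side
  set H : Finset (ZMod p) := Finset.univ.filter (fun x => x ^ ((p - 1) / 3) = 1) with hH
  have hHc : H.card ≤ (p - 1) / 3 := by
    have hpos : 0 < (p - 1) / 3 := by omega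
    have hsub : H ⊆ (nthRoots ((p - 1) / 3) (1 : ZMod p)).toFinset := by
      intro x hx
      rw [Multiset.mem_toFinset, mem_nthRoots hpos]
      exact (Finset.mem_filter.mp hx).2
    exact (Finset.card_le_card hsub).trans ((Multiset.toFinset_card_le _).trans (card_nthRoots _ _))
  set B : Finset (Vec p) := insert O ((Finset.univ ×ˢ H).image
    (fun q : Fin 3 × ZMod p => O + q.2 • v q.1)) with hB
  have hBc : B.card ≤ p := by
    have e1 : B.card ≤ ((Finset.univ ×ˢ H).image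
      (fun q : Fin 3 × ZMod p => O + q.2 • v q.1)).card + 1 := Finset.card_insert_le _ _
    have e2 : ((Finset.univ ×ˢ H).image
      (fun q : Fin 3 × ZMod p => O + q.2 • v q.1)).card ≤ ((Finset.univ : Finset (Fin 3)) ×ˢ H).card :=
      Finset.card_image_le
    rw [Finset.card_product, Finset.card_univ, Fintype.card_fin] at e2
    omega
  have hin : ∀ (i : Fin 3) (x : ZMod p), x ^ ((p - 1) / 3) = 1 → O + x • v i ∈ B := by
    intro i x hx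
    rw [hB, Finset.mem_insert, Finset.mem_image]
    right
    refine ⟨(i, x), ?_, rfl⟩
    rw [Finset.mem_product, hH, Finset.mem_filter]
    exact ⟨Finset.mem_univ _, Finset.mem_univ _, hx⟩
  have hAB : A ⊆ B := by
    intro x hx
    by_cases k1 : x ∈ A1
    · have k1' := (hm1.mp k1).2
      rw [hT.mult hinj hx1.1 hx hx1.2 k1']
      exact hin 0 _ (s1 _ (mem_vals.mpr ⟨x, hx, k1', rfl⟩) _ (mem_vals.mpr ⟨x1, hx1.1, hx1.2, rfl⟩))
    · by_cases k2 : x ∈ A2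
      · have k2' := (hm2.mp k2).2
        rw [hT2.mult hinj2 hx2.1 hx hx2.2 k2']
        exact hin 1 _ (s2 _ (mem_vals.mpr ⟨x, hx, k2', rfl⟩) _
          (mem_vals.mpr ⟨x2, hx2.1, hx2.2, rfl⟩))
      · by_cases k3 : x ∈ A3
        · have k3' := (hm3.mp k3).2
          rw [hT3.mult hinj3 hx3.1 hx hx3.2 k3']
          exact hin 2 _ (s3 _ (mem_vals.mpr ⟨x, hx, k3', rfl⟩) _
            (mem_vals.mpr ⟨x3, hx3.1, hx3.2, rfl⟩))
        · rw [hout x hx k1 k2 k3, hB]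
          exact Finset.mem_insert_self _ _
  have hEq : A = B := Finset.eq_of_subset_of_card_le hAB (by omega)
  refine ⟨v, ?_, ?_⟩
  · rw [Fintype.linearIndependent_iff]
    intro c hc
    rw [Fin.sum_univ_three] at hc
    have hv0 : v 0 = x1 - O := rfl
    have hv1 : v 1 = x2 - O := rfl
    have hv2 : v 2 = x3 - O := rfl
    rw [hv0, hv1, hv2] at hc
    have e1 : f ⬝ᵥ (c 0 • (x1 - O) + c 1 • (x2 - O) + c 2 • (x3 - O)) = 0 := by
      rw [hc, dotProduct_zero]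
    have e2 : g ⬝ᵥ (c 0 • (x1 - O) + c 1 • (x2 - O) + c 2 • (x3 - O)) = 0 := by
      rw [hc, dotProduct_zero]
    have e3 : h ⬝ᵥ (c 0 • (x1 - O) + c 1 • (x2 - O) + c 2 • (x3 - O)) = 0 := by
      rw [hc, dotProduct_zero]
    simp only [dotProduct_add, dotProduct_smul, dotProduct_sub, smul_eq_mul, f2, f3, sub_self,
      mul_zero, add_zero] at e1
    simp only [dotProduct_add, dotProduct_smul, dotProduct_sub, smul_eq_mul, g1, g3, sub_self,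
      mul_zero, add_zero, zero_add] at e2
    simp only [dotProduct_add, dotProduct_smul, dotProduct_sub, smul_eq_mul, h1, h2, sub_self,
      mul_zero, zero_add] at e3
    intro i
    fin_cases i
    · exact (mul_eq_zero.mp e1).resolve_right (sub_ne_zero.mpr hx1.2)
    · exact (mul_eq_zero.mp e2).resolve_right (sub_ne_zero.mpr hx2.2)
    · exact (mul_eq_zero.mp e3).resolve_right (sub_ne_zero.mpr hx3.2)
  · intro a
    rw [hEq]
    constructor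
    · intro ha
      rw [hB, Finset.mem_insert, Finset.mem_image] at ha
      rcases ha with ha | ⟨⟨i, x⟩, hq, ha⟩
      · exact Or.inl ha
      · right
        rw [Finset.mem_product, hH, Finset.mem_filter] at hq
        exact ⟨i, x, hq.2.2, ha.symm⟩
    · rintro (rfl | ⟨i, x, hx, rfl⟩)
      · rw [hB]; exact Finset.mem_insert_self _ _
      · exact hin i x hx

/-- **The structure theorem.** -/
theorem structure_thm {A D : Finset (Vec p)} (hD : Dirs A D) (hA : A.card = p) (hnp : NonPlanar A)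
    (t : ℕ) (ht1 : 1 ≤ t) (htp : 24 * t < p) (hp29 : 29 ≤ p) (hDp : D.card ≤ p + 1 + t)
    (hD0 : ∀ d ∈ D, d ≠ 0) (h : ℕ) (hh2 : 2 ≤ h) (hp : p = 2 * h + 1) :
    p % 3 = 1 ∧ ∃ (O : Vec p) (v : Fin 3 → Vec p), LinearIndependent (ZMod p) v ∧
      ∀ a, a ∈ A ↔ a = O ∨ ∃ i : Fin 3, ∃ x : ZMod p, x ^ ((p - 1) / 3) = 1 ∧ a = O + x • v i := by
  obtain ⟨K, hKh, hpK, hM⟩ := low_moments4 hD hA hnp t ht1 hDp (by omega) hD0 h hh2 hp
  have hKp : K < p := by omega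
  by_cases hline : ∀ a v, (Ln A a v).card ≤ K
  · exact (no_rich_false hD hA hnp t ht1 htp hp29 hDp K hKp hpK hM hline).elim
  · push Not at hline
    obtain ⟨a, v, hL⟩ := hline
    obtain ⟨θ, φ, ψ, O, hinj, hT, c1, c2, c3, hK3⟩ :=
      rich_coords hD hA hnp t ht1 htp hp29 hDp K hKp hpK hM hL
    obtain ⟨hmod, v, hv, hall⟩ := struct_of_coords hD hA t ht1 hDp K (by omega) (by omega) hpK hK3 hinj hT c1 c2 c3
    exact ⟨hmod, O, v, hv, hall⟩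

end KS41.Dir
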