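import Pool.Agent.KS6_41.Dir.Bridge
import Pool.Agent.KS6_41.Dir.Struct

/-!
The directions of the extremal sets, in general position.
-/

set_option autoImplicit false

open Finset Polynomial

namespace KS41.Dir

variable {p : ℕ} [Fact p.Prime]

/-- the subgroup of index three, as a finite set -/
lemma exists_roots (hp3 : p % 3 = 1) : ∃ H : Finset (ZMod p),
    (∀ x, x ∈ H ↔ x ^ ((p - 1) / 3) = 1) ∧ 3 * H.card + 1 ≤ p := by
  have hp2 := (Fact.out : p.Prime).two_le
  refine ⟨Finset.univ.filter (fun x => x ^ ((p - 1) / 3) = 1), fun x => by simp, ?_⟩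
  have hpos : 0 < (p - 1) / 3 := by
    have hpr := (Fact.out : p.Prime)
    have hp4 : p ≠ 4 := by
      rintro rfl
      revert hpr; decide
    omega
  have hsub : Finset.univ.filter (fun x : ZMod p => x ^ ((p - 1) / 3) = 1) ⊆
      (nthRoots ((p - 1) / 3) (1 : ZMod p)).toFinset := by
    intro x hx
    rw [Multiset.mem_toFinset, mem_nthRoots hpos]
    exact (Finset.mem_filter.mp hx).2
  have := (Finset.card_le_card hsub).trans
    ((Multiset.toFinset_card_le _).trans (card_nthRoots _ _))
  omega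

lemma tripod_upper (hp3 : p % 3 = 1) (A : Finset (Fin 3 → ZMod p)) (c : Fin 3 → ZMod p)
    (v : Fin 3 → Fin 3 → ZMod p)
    (hA : ∀ a, a ∈ A ↔ a = c ∨ ∃ i : Fin 3, ∃ x : ZMod p, x ^ ((p - 1) / 3) = 1 ∧ a = c + x • v i) :
    ndirs A ≤ p + 2 := by
  classical
  obtain ⟨H, hH, hHc⟩ := exists_roots (p := p) hp3
  have hpos : 0 < (p - 1) / 3 := by
    have hpr := (Fact.out : p.Prime)
    have hp4 : p ≠ 4 := by
      rintro rfl
      revert hpr; decide
    have := hpr.two_le
    omega
  have hne : ∀ x ∈ H, x ≠ 0 := by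
    rintro x hx rfl
    rw [hH, zero_pow hpos.ne'] at hx
    exact zero_ne_one hx
  have hdiv : ∀ x ∈ H, ∀ y ∈ H, x / y ∈ H := by
    intro x hx y hy
    rw [hH] at hx hy ⊢
    rw [div_pow, hx, hy, div_one]
  set V : Finset (Fin 3 → ZMod p) := (Finset.univ.image v) ∪
    (Finset.univ ×ˢ H).image (fun q : Fin 3 × ZMod p => v q.1 - q.2 • v (q.1 + 1)) with hV
  have hVc : V.card ≤ 3 + 3 * H.card := by
    rw [hV]
    refine (Finset.card_union_le _ _).trans (Nat.add_le_add ?_ ?_)
    · refine Finset.card_image_le.trans ?_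
      simp
    · refine Finset.card_image_le.trans ?_
      rw [Finset.card_product, Finset.card_univ, Fintype.card_fin]
  have hunit : ∀ i : Fin 3, v i ∈ V := by
    intro i
    rw [hV]
    exact Finset.mem_union_left _ (Finset.mem_image_of_mem _ (Finset.mem_univ i))
  have hmix : ∀ (i : Fin 3) (x : ZMod p), x ∈ H → v i - x • v (i + 1) ∈ V := by
    intro i x hx
    rw [hV]
    apply Finset.mem_union_right
    rw [Finset.mem_image]
    exact ⟨(i, x), Finset.mem_product.mpr ⟨Finset.mem_univ _, hx⟩, rfl⟩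
  have hkey : ∀ (i : Fin 3) (x y : ZMod p), x ∈ H → y ∈ H →
      ∃ w ∈ V, Submodule.span (ZMod p) {x • v i - y • v (i + 1)} = Submodule.span (ZMod p) {w} := by
    intro i x y hx hy
    refine ⟨_, hmix i (y / x) (hdiv y hy x hx), span_smul (hne x hx) _ _ ?_⟩
    rw [smul_sub, smul_smul, mul_div_cancel₀ _ (hne x hx)]
  have hneg : ∀ w : Fin 3 → ZMod p, Submodule.span (ZMod p) {-w} = Submodule.span (ZMod p) {w} := by
    intro w
    exact span_smul (c := -1) (neg_ne_zero.mpr one_ne_zero) _ _ (by rw [neg_one_smul])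
  have hij : ∀ i j : Fin 3, i ≠ j → j = i + 1 ∨ i = j + 1 := by decide
  have hdir : ∀ a ∈ A, ∀ b ∈ A, a ≠ b →
      ∃ w ∈ V, Submodule.span (ZMod p) {a - b} = Submodule.span (ZMod p) {w} := by
    intro a ha b hb hab
    rcases (hA a).mp ha with rfl | ⟨i, x, hx, rfl⟩
    · rcases (hA b).mp hb with rfl | ⟨j, y, hy, rfl⟩
      · exact absurd rfl hab
      · refine ⟨_, hunit j, ?_⟩
        have e : a - (a + y • v j) = -(y • v j) := by abel
        rw [e, hneg]
        exact span_smul (hne y ((hH y).mpr hy)) _ _ rfl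
    · rcases (hA b).mp hb with rfl | ⟨j, y, hy, rfl⟩
      · refine ⟨_, hunit i, ?_⟩
        have e : b + x • v i - b = x • v i := by abel
        rw [e]
        exact span_smul (hne x ((hH x).mpr hx)) _ _ rfl
      · have e : c + x • v i - (c + y • v j) = x • v i - y • v j := by abel
        rw [e]
        by_cases h : i = j
        · subst h
          have hxy : x ≠ y := fun h => hab (by rw [h])
          refine ⟨_, hunit i, ?_⟩
          rw [← sub_smul]
          exact span_smul (sub_ne_zero.mpr hxy) _ _ rfl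
        · rcases hij i j h with rfl | rfl
          · exact hkey i x y ((hH x).mpr hx) ((hH y).mpr hy)
          · obtain ⟨w, hw, hw'⟩ := hkey j y x ((hH y).mpr hy) ((hH x).mpr hx)
            refine ⟨w, hw, ?_⟩
            rw [← hw', ← hneg, neg_sub]
  have hsub : {W : Submodule (ZMod p) (Fin 3 → ZMod p) |
        ∃ a ∈ A, ∃ b ∈ A, a ≠ b ∧ W = Submodule.span (ZMod p) {a - b}} ⊆
      ((V.image (fun v => Submodule.span (ZMod p) {v}) :
        Finset (Submodule (ZMod p) (Fin 3 → ZMod p))) : Set _) := by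
    rintro W ⟨a, ha, b, hb, hab, rfl⟩
    obtain ⟨w, hw, h⟩ := hdir a ha b hb hab
    rw [Finset.coe_image]
    exact ⟨w, hw, h.symm⟩
  have h1 : ndirs A ≤ (V.image (fun v => Submodule.span (ZMod p) {v})).card := by
    rw [ndirs, ← Set.ncard_coe_finset]
    exact Set.ncard_le_ncard hsub (Finset.finite_toSet _)
  have h2 : (V.image (fun v => Submodule.span (ZMod p) {v})).card ≤ V.card := Finset.card_image_le
  omega

end KS41.Dir
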